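import Pool.Agent.N926.Sup2.H

set_option autoImplicit false
set_option linter.unusedSectionVars false
set_option linter.unusedVariables false

namespace Pool.Agent.N926.Sup2

open Finset Pool.Agent.N926.Sup

theorem t_rf (k : ℕ) : t k = (∏ i ∈ range k, ((1:ℚ)/2 + (i:ℚ))) / (k.factorial : ℚ) := by
  induction k with
  | zero => simp [t_zero]
  | succ k ih =>
    rw [t_succ, ih, prod_range_succ, Nat.factorial_succ]
    have h1 : (k.factorial : ℚ) ≠ 0 := by positivity
    have h2 : (k:ℚ) + 1 ≠ 0 := by positivity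
    push_cast
    field_simp
    ring

section
variable {p : ℕ} [hp : Fact p.Prime]

theorem den_of_Dv {u : ℚ} (h : Dv p 0 u) : ¬ p ∣ u.den := by
  intro hd
  have h2 := hp.out.one_lt
  by_cases h0 : u = 0
  · subst h0
    simp at hd
    omega
  rcases h with h | h
  · exact h0 h
  have h3 : ¬ (p:ℤ) ∣ u.num := by
    intro hn
    have h4 : p ∣ u.num.natAbs := Int.natCast_dvd.1 hn
    have h5 := Nat.dvd_gcd h4 hd
    rw [u.reduced] at h5
    have := Nat.dvd_one.1 h5
    omega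
  have h6 : padicValRat p u = (padicValInt p u.num : ℤ) - (padicValNat p u.den : ℤ) := rfl
  have h7 : 1 ≤ padicValNat p u.den := one_le_padicValNat_of_dvd u.den_nz hd
  have h8 := padicValInt.eq_zero_of_not_dvd h3
  rw [h6] at h
  omega

/-- from valuations to the congruence notion of the problems -/
theorem congr_of_Dv {m : ℕ} {z : ℚ} (h : Dv p m z) : ∃ u : ℚ, ¬ p ∣ u.den ∧ z = (p:ℚ)^m * u := by
  have hpp : (p:ℚ)^m ≠ 0 := pow_ne_zero _ (by exact_mod_cast hp.out.ne_zero)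
  refine ⟨z / (p:ℚ)^m, ?_, by field_simp⟩
  apply den_of_Dv
  have e : (p:ℚ)^m * (z/(p:ℚ)^m) = z := by field_simp
  have h1 : Dv p (0 + (m:ℕ)) ((p:ℚ)^m * (z/(p:ℚ)^m)) := by
    rw [e, zero_add]
    exact h
  exact Dv.of_p_mul h1

/-- multiply a congruence by `P` -/
theorem mul_P {s : ℕ} {P x y : ℚ} (hP : P = (p:ℚ)^(s+1)) (h : Dv p 4 (x / P - y)) :
    Dv p ((s+1+4 : ℕ) : ℤ) (x - P * y) := by
  have hpp : (p:ℚ)^(s+1) ≠ 0 := pow_ne_zero _ (by exact_mod_cast hp.out.ne_zero)
  have h1 := (Dv.p_pow (p := p) (s+1)).mul h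
  have e : (p:ℚ)^(s+1) * (x / P - y) = x - P * y := by
    rw [hP]
    field_simp
  rw [e] at h1
  refine h1.mono (le_of_eq ?_)
  push_cast
  ring

end

end Pool.Agent.N926.Sup2
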