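import Pool.Agent.N926.Sup2.J
import Pool.Agent.N926.Sup2.Cg

set_option autoImplicit false
set_option linter.unusedSectionVars false
set_option linter.unusedVariables false

namespace Pool.Agent.N926.Sup2

open Finset Pool.Agent.N926.Sup

section
variable {p : ℕ} [hp : Fact p.Prime] {s M h : ℕ}

theorem smul_int {n : ℤ} {x : ℚ} (c : ℕ) (hx : Dv p n x) : Dv p n ((c:ℚ) * x) :=
  (Dv.nat c).mul0' hx

theorem TB_int (h2 : p ≠ 2) (hM : p^(s+1) = 2*M+1) (hh : p = 2*h+1) {n : ℕ} (hn : n < M) :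
    Dv p 2 (TB M n) ∧ (¬ p^s ∣ n+1 → Dv p 4 (TB M n)) := by
  have a0 : Dv p 1 (x M n) := by
    rw [x_X]; exact x1 h2 hM (by omega) (by omega)
  have b1 := (prod_cong h2 hM hh (i := 2*n+1) (by omega) (-4) (fun l => -(4 * x M l)) (by
    intro l hl
    left
    push_cast
    ring)).2
  have b2 := (prod_cong h2 hM hh (i := n+1) (by omega) 4 (fun l => 4 * x M l / (1 - 3 * x M l)) (by
    intro l hl
    have a1 : Dv p 1 (x M l) := by
      rw [x_X]; exact x1 h2 hM (by omega) (by omega)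
    have a2 : Dv p 2 (((12:ℕ):ℚ) * x M l ^ 2) := smul_int 12 (by simpa using a1.pow 2)
    have a3 := a2.div_sub (by simpa using smul_int 3 a1 : Dv p 1 (3 * x M l))
    have e : 4 * x M l / (1 - 3 * x M l) - ((4:ℤ):ℚ) * x M l =
      ((12:ℕ):ℚ) * x M l ^ 2 / (1 - 3 * x M l) := by
      have := x3_ne M l
      push_cast
      rw [div_sub' this, div_left_inj' this]
      ring
    rw [e]
    exact a3)).2
  have c1 : Dv p 0 (∏ l ∈ range (2*n+1), (1 - 4 * x M l)) := by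
    have := (b1.mono (by norm_num : (0:ℤ) ≤ 1)).add Dv.one
    simpa [sub_eq_add_neg] using this
  have c2 : Dv p 0 (∏ l ∈ range (n+1), ((1 + x M l)/(1 - 3 * x M l))) := by
    have := (b2.mono (by norm_num : (0:ℤ) ≤ 1)).add Dv.one
    rw [sub_add_cancel] at this
    have e : ∏ l ∈ range (n+1), ((1 + x M l)/(1 - 3 * x M l)) =
      ∏ l ∈ range (n+1), (1 + 4 * x M l / (1 - 3 * x M l)) := by
      refine prod_congr rfl fun l _ => ?_
      have := x3_ne M l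
      rw [← sub_ne_zero] at this
      have h3 := x3_ne M l
      rw [eq_comm, one_add_div h3]
      congr 1
      ring
    rw [e]
    exact this
  have hneg : Dv p 1 (-x M n) := a0.neg
  unfold TB
  constructor
  · have a2 : Dv p 2 (((2:ℕ):ℚ) * x M n ^ 2) := smul_int 2 (by simpa using a0.pow 2)
    have a3 := a2.div_sub hneg
    rw [sub_neg_eq_add] at a3
    push_cast at a3
    exact (a3.mul0 c1).mul0 c2
  · intro hq
    have a1 : Dv p 2 (x M n) := by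
      rw [x_X]; exact x2 h2 hM (by omega) hq
    have a2 : Dv p 4 (((2:ℕ):ℚ) * x M n ^ 2) := smul_int 2 (by simpa using a1.pow 2)
    have a3 := a2.div_sub hneg
    rw [sub_neg_eq_add] at a3
    push_cast at a3
    exact (a3.mul0 c1).mul0 c2

theorem TB_cong (h2 : p ≠ 2) (hM : p^(s+1) = 2*M+1) (hh : p = 2*h+1) {j : ℕ} (hj : j < h) :
    Dv p 4 (TB M (p^s*(j+1)-1) -
      2 * (p/(2*((j:ℚ)+1)))^2 * (1 - p/(2*((j:ℚ)+1)) - 2 * p * Hs 1 (2*j+1) + 2 * p * Hs 1 (j+1))) := by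
  have hq : 0 < p^s := Nat.pos_of_ne_zero (pow_ne_zero _ hp.out.ne_zero)
  obtain ⟨pl1, pl2, pl3⟩ := place (p := p) hM hh hj
  obtain ⟨n, hn⟩ : ∃ n, p^s*(j+1) = n+1 := ⟨p^s*(j+1)-1, by omega⟩
  have hn2 : p^s*(j+1)-1 = n := by omega
  have hdiv1 : (2*n+1) / p^s = 2*j+1 := by
    have h3 : 2*n+1 = p^s*(2*j+1) + (p^s-1) := by
      have e1 : p^s*(2*j+1) = 2*(p^s*(j+1)) - p^s := by
        have : p^s*(2*j+1) + p^s = 2*(p^s*(j+1)) := by ring
        omega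
      have e2 : p^s ≤ p^s*(j+1) := Nat.le_mul_of_pos_right _ (by omega)
      omega
    rw [h3, Nat.mul_add_div hq, Nat.div_eq_of_lt (by omega), add_zero]
  have hdiv2 : (n+1) / p^s = j+1 := by
    rw [← hn, Nat.mul_div_cancel_left _ hq]
  obtain ⟨b1, b1'⟩ := (prod_cong h2 hM hh (i := 2*n+1) (by omega) (-4) (fun l => -(4 * x M l)) (by
    intro l hl
    left
    push_cast
    ring))
  obtain ⟨b2, b2'⟩ := (prod_cong h2 hM hh (i := n+1) (by omega) 4 (fun l => 4 * x M l / (1 - 3 * x M l)) (by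
    intro l hl
    have a1 : Dv p 1 (x M l) := by
      rw [x_X]; exact x1 h2 hM (by omega) (by omega)
    have a2 : Dv p 2 (((12:ℕ):ℚ) * x M l ^ 2) := smul_int 12 (by simpa using a1.pow 2)
    have a3 := a2.div_sub (by simpa using smul_int 3 a1 : Dv p 1 (3 * x M l))
    have e : 4 * x M l / (1 - 3 * x M l) - ((4:ℤ):ℚ) * x M l =
      ((12:ℕ):ℚ) * x M l ^ 2 / (1 - 3 * x M l) := by
      have := x3_ne M l
      push_cast
      rw [div_sub' this, div_left_inj' this]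
      ring
    rw [e]
    exact a3))
  rw [hdiv1] at b1
  rw [hdiv2] at b2
  have hxq : x M n = p/(2*((j:ℚ)+1)) := by
    rw [x_X, ← hn, Xq hM]
  have a0 : Dv p 1 (x M n) := by
    rw [x_X]; exact x1 h2 hM (by omega) (by omega)
  rw [hn2, ← hxq]
  unfold TB
  have e1 : ∏ l ∈ range (2*n+1), (1 + -(4 * x M l)) = ∏ l ∈ range (2*n+1), (1 - 4 * x M l) := by
    refine prod_congr rfl fun l _ => ?_
    ring
  have e2 : ∏ l ∈ range (n+1), (1 + 4 * x M l / (1 - 3 * x M l)) =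
      ∏ l ∈ range (n+1), ((1 + x M l)/(1 - 3 * x M l)) := by
    refine prod_congr rfl fun l _ => ?_
    have h3 := x3_ne M l
    rw [one_add_div h3]
    congr 1
    ring
  rw [e1] at b1 b1'
  rw [e2] at b2 b2'
  have hxp := x_pos M n
  generalize ∏ l ∈ range (2*n+1), (1 - 4 * x M l) = R1 at *
  generalize ∏ l ∈ range (n+1), ((1 + x M l)/(1 - 3 * x M l)) = R2 at *
  generalize x M n = y at *
  have hH1 : Dv p 0 (Hs 1 (2*j+1)) := Hs_int (by omega)
  have hH2 : Dv p 0 (Hs 1 (j+1)) := Hs_int (by omega)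
  have c1 : Dv p 1 ((2:ℚ) * p * Hs 1 (2*j+1)) := by
    have := smul_int 2 (Dv.p1.mul0 hH1)
    have e : ((2:ℕ):ℚ) * ((p:ℚ) * Hs 1 (2*j+1)) = 2 * p * Hs 1 (2*j+1) := by push_cast; ring
    rwa [e] at this
  have c2 : Dv p 1 ((2:ℚ) * p * Hs 1 (j+1)) := by
    have := smul_int 2 (Dv.p1.mul0 hH2)
    have e : ((2:ℕ):ℚ) * ((p:ℚ) * Hs 1 (j+1)) = 2 * p * Hs 1 (j+1) := by push_cast; ring
    rwa [e] at this
  have d1 : Dv p 2 (R1 - 1 + 2 * p * Hs 1 (2*j+1)) := by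
    have e : R1 - 1 - ((-4:ℤ):ℚ) * ((p:ℚ)/2) * Hs 1 (2*j+1) = R1 - 1 + 2 * p * Hs 1 (2*j+1) := by
      push_cast; ring
    rwa [e] at b1
  have d2 : Dv p 2 (R2 - 1 - 2 * p * Hs 1 (j+1)) := by
    have e : R2 - 1 - ((4:ℤ):ℚ) * ((p:ℚ)/2) * Hs 1 (j+1) = R2 - 1 - 2 * p * Hs 1 (j+1) := by
      push_cast; ring
    rwa [e] at b2
  have hy2 : Dv p 2 (2 * y^2) := by
    have := smul_int 2 (show Dv p 2 (y^2) by simpa using a0.pow 2)
    simpa using this
  have hy3 : Dv p 2 (y^2/(1+y)) := by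
    have := (show Dv p 2 (y^2) by simpa using a0.pow 2).div_sub a0.neg
    rwa [sub_neg_eq_add] at this
  have hR1 : Dv p 0 R1 := by
    have := (b1'.mono (by norm_num : (0:ℤ) ≤ 1)).add Dv.one
    simpa using this
  have hR2 : Dv p 0 R2 := by
    have := (b2'.mono (by norm_num : (0:ℤ) ≤ 1)).add Dv.one
    simpa using this
  have hy0 : 1 + y ≠ 0 := by positivity
  have e3 : 2 * y^2 / (1 + y) * R1 * R2 - 2 * y^2 * (1 - y - 2 * p * Hs 1 (2*j+1) + 2 * p * Hs 1 (j+1)) =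
      2 * y^2 * ((y^2/(1+y)) * (R1 * R2) + (1 - y) * ((R1 - 1) * (R2 - 1) +
        (R1 - 1 + 2 * p * Hs 1 (2*j+1)) + (R2 - 1 - 2 * p * Hs 1 (j+1))) -
        y * (2 * p * Hs 1 (j+1) - 2 * p * Hs 1 (2*j+1))) := by
    field_simp
    ring
  rw [e3]
  refine (hy2.mul (n := 2) ?_).mono (by norm_num)
  have h1y : Dv p 0 (1 - y) := Dv.one.sub (a0.mono (by norm_num))
  refine ((hy3.mul0 (hR1.mul0 hR2)).add (h1y.mul0' ?_)).sub ?_
  · exact (((b1'.mul b2').mono (by norm_num)).add d1).add d2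
  · exact (a0.mul (c2.sub c1)).mono (by norm_num)

theorem TR_cong (h2 : p ≠ 2) (hM : p^(s+1) = 2*M+1) (hh : p = 2*h+1) {j : ℕ} (hj : j < h) :
    Dv p 4 (T M (p^s*(j+1)-1) * (rho M (M-1-(p^s*(j+1)-1)) / rho M M) -
      2 * (p/(2*((j:ℚ)+1)))^2 * (1 + p/(2*((j:ℚ)+1)) - p * Hs 1 j + p * (Hs 1 (h-1-j) - Hs 1 h))) := by
  obtain ⟨pl1, pl2, pl3⟩ := place (p := p) hM hh hj
  have e2 : M-1-(p^s*(j+1)-1) = M - p^s*(j+1) := by omega
  rw [e2]
  obtain ⟨b1, b2⟩ := ratio_cong h2 hM hh (i := M - p^s*(j+1)) (by omega)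
  rw [pl3] at b1
  have c1 := T_cong h2 hM hh hj
  have hy : Dv p 1 ((p:ℚ)/(2*((j:ℚ)+1))) := Dv.p1.div_unit (unit_two_j h2 (by omega))
  have hH : Dv p 0 (Hs 1 j) := Hs_int (by omega)
  generalize T M (p^s*(j+1)-1) = t at *
  generalize rho M (M - p^s*(j+1)) / rho M M = r at *
  generalize (p:ℚ)/(2*((j:ℚ)+1)) = y at *
  have hy2 : Dv p 2 (2*y^2) := by
    have := smul_int 2 (show Dv p 2 (y^2) by simpa using hy.pow 2)
    simpa using this
  have hc : Dv p 1 (y - p * Hs 1 j) := hy.sub (Dv.p1.mul0 hH)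
  have hr0 : Dv p 0 r := by
    have := (b2.mono (by norm_num : (0:ℤ) ≤ 1)).add Dv.one
    simpa using this
  have e4 : t * r - 2*y^2 * (1 + y - p * Hs 1 j + p * (Hs 1 (h-1-j) - Hs 1 h)) =
    (t - 2*y^2*(1 + y - p * Hs 1 j)) * r + 2*y^2 * ((y - p * Hs 1 j) * (r-1)) +
    2*y^2 * (r - 1 - p * (Hs 1 (h-1-j) - Hs 1 h)) := by ring
  rw [e4]
  refine ((c1.mul0 hr0).add ?_).add ?_
  · exact (hy2.mul (hc.mul b2)).mono (by norm_num)
  · exact (hy2.mul b1).mono (by norm_num)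

theorem YY_int (h2 : p ≠ 2) (hh : p = 2*h+1) : Dv p 0 (YY p h) := by
  unfold YY
  refine Dv.sum _ _ fun j hj => ?_
  rw [mem_range] at hj
  unfold gg
  have e : (((j+1:ℕ):ℚ))-p = (((j+1:ℕ):ℤ)-(p:ℤ) : ℤ) := by push_cast; ring
  have n1 : (((j+1:ℕ):ℚ)) ≠ 0 := by positivity
  have n2 : (((j+1:ℕ):ℚ))-p ≠ 0 := by
    rw [e]
    exact_mod_cast (by omega : (((j+1:ℕ):ℤ)-(p:ℤ) : ℤ) ≠ 0)
  refine Dv.one.div_unit ?_
  rw [padicValRat.mul n1 n2, e, unit_int_of (p := p) (by omega) (by omega) (by omega)]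
  have := unit_nat (p := p) (n := j+1) (not_dvd_of_lt (by omega) (by omega))
  rw [this, add_zero]

theorem Z3_cong (h2 : p ≠ 2) (hM : p^(s+1) = 2*M+1) (hh : p = 2*h+1) :
    Dv p 4 (Z3 M - 1 + 3 * p^2 * YY p h) ∧ Dv p 2 (Z3 M - 1) := by
  have hq : 0 < p^s := Nat.pos_of_ne_zero (pow_ne_zero _ hp.out.ne_zero)
  have hx : ∀ l < 2*M, Dv p 1 (x M l) := by
    intro l hl
    rw [x_X]; exact x1 h2 hM (by omega) (by omega)
  have h1 : Dv p 1 (Z3 M - 1) := by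
    unfold Z3
    have := Dv.prod1 (p := p) (n := 1) (by norm_num) (range (2*M)) (fun l => -(6 * x M l)) (by
      intro l hl
      rw [mem_range] at hl
      have := smul_int 6 (hx l hl)
      push_cast at this
      exact this.neg)
    simpa [sub_eq_add_neg] using this
  have hne : ∀ l < 2*M, 1 - 2 * x M l ≠ 0 := by
    intro l hl
    have := smul_int 2 (hx l hl)
    push_cast at this
    exact (unit_sub this).1
  have hsq : Z3 M ^ 2 = ∏ l ∈ range (2*M), (1 + (-24) * x M l ^ 2 / (1 - 2 * x M l)) := by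
    have e1 : Z3 M = ∏ l ∈ range (2*M), (1 - 6 * x M (2*M-1-l)) := by
      unfold Z3
      rw [← prod_range_reflect]
    have e2 : Z3 M ^ 2 = Z3 M * ∏ l ∈ range (2*M), (1 - 6 * x M (2*M-1-l)) := by
      rw [← e1]; ring
    rw [e2]
    unfold Z3
    rw [← prod_mul_distrib]
    refine prod_congr rfl fun l hl => ?_
    rw [mem_range] at hl
    have hn := hne l hl
    have e3 : x M (2*M-1-l) = - x M l / (1 - 2 * x M l) := by
      rw [eq_div_iff hn]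
      have e4 : ((2*M-1-l:ℕ):ℚ) + 1 = 2*M - l := by
        have : 2*M-1-l + 1 + l = 2*M := by omega
        have h5 : ((2*M-1-l + 1 + l : ℕ) : ℚ) = ((2*M:ℕ):ℚ) := by rw [this]
        push_cast at h5
        linarith
      unfold x
      rw [e4]
      have h6 : (2*(M:ℚ) - l) ≠ 0 := by
        have : l < 2*M := hl
        have h7 : (l:ℚ) < 2*M := by exact_mod_cast this
        intro h8
        linarith
      have h9 : ((l:ℚ)+1) ≠ 0 := by positivity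
      field_simp
      ring
    rw [e3]
    generalize x M l = y at *
    obtain ⟨v, hv⟩ : ∃ v : ℚ, v = 1 - 2 * y := ⟨_, rfl⟩
    have hy : y = (1 - v)/2 := by rw [hv]; ring
    rw [← hv] at hn ⊢
    rw [hy]
    field_simp
    ring
  have hf : ∀ l ∈ range (2*M), Dv p 2 ((-24) * x M l ^ 2 / (1 - 2 * x M l)) := by
    intro l hl
    rw [mem_range] at hl
    have a1 := hx l hl
    have a2 : Dv p 2 (-(((24:ℕ):ℚ) * x M l ^ 2)) := (smul_int 24 (by simpa using a1.pow 2)).neg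
    have a3 := a2.div_sub (by simpa using smul_int 2 a1 : Dv p 1 (2 * x M l))
    push_cast at a3
    rwa [← neg_mul] at a3
  have h3 := Dv.prod2 (p := p) (n := 2) (by norm_num) (range (2*M)) _ hf
  rw [← hsq] at h3
  have h5 := Dv.split (p := p) (n := 4) (p^s) (fun k => (-24) * X M k ^ 2 / (1 - 2 * X M k)) (2*M)
    (fun l hl hql => by
      have a1 := hx l hl
      have a1' : Dv p 2 (X M (l+1)) := x2 h2 hM (by omega) hql
      rw [x_X] at a1
      have a2 : Dv p 4 (-(((24:ℕ):ℚ) * X M (l+1) ^ 2)) := (smul_int 24 (by simpa using a1'.pow 2)).neg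
      have a3 := a2.div_sub (by simpa using smul_int 2 a1 : Dv p 1 (2 * X M (l+1)))
      push_cast at a3
      rwa [← neg_mul] at a3)
  have hdiv : 2*M / p^s = 2*h := by
    have h6 : 2*M = p^s*(2*h) + (p^s - 1) := by
      have : p^(s+1) = p^s*(2*h) + p^s := by
        rw [pow_succ]
        conv_lhs => rw [show p^s * p = p^s * (2*h+1) by rw [← hh]]
        ring
      omega
    rw [h6, Nat.mul_add_div hq, Nat.div_eq_of_lt (by omega), add_zero]
  rw [hdiv] at h5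
  have h6 : ∑ l ∈ range (2*h), (-24) * X M (p^s*(l+1)) ^ 2 / (1 - 2 * X M (p^s*(l+1))) =
      -(6 * p^2 * YY p h) := by
    unfold YY
    rw [mul_sum, ← sum_neg_distrib]
    refine sum_congr rfl fun l hl => ?_
    rw [mem_range] at hl
    rw [Xq hM]
    unfold gg
    have n1 : ((l:ℚ)+1) ≠ 0 := by positivity
    have n2 : ((l:ℚ)+1) - p ≠ 0 := by
      have : l + 1 < p := by omega
      have h7 : ((l:ℚ)+1) < p := by exact_mod_cast this
      intro h8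
      linarith
    have e : 1 - 2 * ((p:ℚ)/(2*((l:ℚ)+1))) = ((l:ℚ)+1-p)/((l:ℚ)+1) := by
      field_simp
    rw [e]
    push_cast
    field_simp
    ring
  simp only [h6] at h5
  have h7 : ∑ l ∈ range (2*M), (-24) * x M l ^ 2 / (1 - 2 * x M l) =
      ∑ l ∈ range (2*M), (-24) * X M (l+1) ^ 2 / (1 - 2 * X M (l+1)) := by
    refine sum_congr rfl fun l _ => ?_
    rw [x_X]
  simp only [h7] at h3
  have h8 : Dv p 4 (Z3 M ^ 2 - 1 + 6 * p^2 * YY p h) := by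
    have := h3.add h5
    have e : Z3 M ^ 2 - 1 - ∑ l ∈ range (2*M), (-24) * X M (l+1) ^ 2 / (1 - 2 * X M (l+1)) +
      (∑ l ∈ range (2*M), (-24) * X M (l+1) ^ 2 / (1 - 2 * X M (l+1)) - -(6 * p^2 * YY p h)) =
      Z3 M ^ 2 - 1 + 6 * p^2 * YY p h := by ring
    rw [e] at this
    exact this
  have hY := YY_int (p := p) h2 hh
  have h9 : Dv p 2 ((p:ℚ)^2 * YY p h) := (Dv.p_pow 2).mul0 hY
  have h10 : Dv p 2 (Z3 M - 1) := by
    have a1 : Dv p 2 ((Z3 M + 1) * (Z3 M - 1)) := by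
      have := (h8.mono (by norm_num : (2:ℤ) ≤ 4)).sub (smul_int 6 h9)
      have e : Z3 M ^ 2 - 1 + 6 * p^2 * YY p h - ((6:ℕ):ℚ) * ((p:ℚ)^2 * YY p h) =
        (Z3 M + 1) * (Z3 M - 1) := by push_cast; ring
      rw [e] at this
      exact this
    have hu := unit_of_cong (p := p) (x := Z3 M + 1) (y := 2) (by
      have e : Z3 M + 1 - 2 = Z3 M - 1 := by ring
      rw [e]; exact h1) (by norm_num) (val_two h2)
    exact a1.of_unit_mul hu.2 hu.1
  refine ⟨?_, h10⟩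
  have a2 : Dv p 4 ((Z3 M - 1)^2) := by simpa using h10.pow 2
  have a3 := h8.sub a2
  have e : Z3 M ^ 2 - 1 + 6 * p^2 * YY p h - (Z3 M - 1)^2 = 2 * (Z3 M - 1 + 3 * p^2 * YY p h) := by
    ring
  rw [e] at a3
  exact a3.of_unit_mul (val_two h2) (by norm_num)

/-- the bracket -/
theorem bracket (h2 : p ≠ 2) (hM : p^(s+1) = 2*M+1) (hh : p = 2*h+1) :
    Dv p 4 (Pi2 2 M * (1 + ∑ n ∈ range M, T M n * (rho M (M-1-n) / rho M M)) -
      Z3 M * (1 - ∑ n ∈ range M, TB M n)) := by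
  have hr0 : ∀ n < M, Dv p 0 (rho M (M-1-n) / rho M M) := fun n hn => by
    have := ((ratio_cong h2 hM hh (i := M-1-n) (by omega)).2.mono (by norm_num : (0:ℤ) ≤ 1)).add Dv.one
    simpa using this
  have s1 := sumT_split h2 hM hh (fun n => rho M (M-1-n) / rho M M) hr0
  have s2 := Dv.split (p := p) (n := 4) (p^s) (fun k => TB M (k-1)) M (fun l hl hq => by
    simp only [Nat.add_sub_cancel]
    exact (TB_int h2 hM hh hl).2 hq)
  rw [div_q hM hh] at s2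
  simp only [Nat.add_sub_cancel] at s2
  have i1 : Dv p 2 (∑ n ∈ range M, T M n * (rho M (M-1-n) / rho M M)) :=
    Dv.sum _ _ fun n hn => (T_int h2 hM hh (mem_range.1 hn)).1.mul0 (hr0 n (mem_range.1 hn))
  have i2 : Dv p 2 (∑ n ∈ range M, TB M n) :=
    Dv.sum _ _ fun n hn => (TB_int h2 hM hh (mem_range.1 hn)).1
  obtain ⟨p1, p2⟩ := Pi2_cong (p := p) h2 hM hh 2
  have e2 : (((2:ℤ):ℚ)) = 2 := by norm_num
  rw [e2] at p1 p2
  obtain ⟨z1, z2⟩ := Z3_cong (p := p) h2 hM hh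
  have y1 := (Y_cong (p := p) h2 hh).1
  have hsum : Dv p 4 (∑ j ∈ range h, T M (p^s*(j+1)-1) * (rho M (M-1-(p^s*(j+1)-1)) / rho M M) +
      ∑ j ∈ range h, TB M (p^s*(j+1)-1) - p^2 * Hs 2 h - p^3 * Hs 3 h) := by
    have e : ∑ j ∈ range h, T M (p^s*(j+1)-1) * (rho M (M-1-(p^s*(j+1)-1)) / rho M M) +
      ∑ j ∈ range h, TB M (p^s*(j+1)-1) - p^2 * Hs 2 h - p^3 * Hs 3 h =
      ∑ j ∈ range h, (T M (p^s*(j+1)-1) * (rho M (M-1-(p^s*(j+1)-1)) / rho M M) +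
        TB M (p^s*(j+1)-1) - p^2 * (1/((j:ℚ)+1)^2) - p^3 * (1/((j:ℚ)+1)^3)) := by
      rw [sum_sub_distrib, sum_sub_distrib, sum_add_distrib, ← mul_sum, ← mul_sum]
      rfl
    rw [e]
    refine Dv.sum _ _ fun j hj => ?_
    rw [mem_range] at hj
    have a1 := TR_cong h2 hM hh hj
    have a2 := TB_cong h2 hM hh hj
    have a3 := refl_H (p := p) hh (j+1) (by omega)
    have e1 : h - (j+1) = h-1-j := by omega
    have e2' : 2*(j+1) = 2*j+1+1 := by ring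
    have hy : Dv p 1 ((p:ℚ)/(2*((j:ℚ)+1))) := Dv.p1.div_unit (unit_two_j h2 (by omega))
    rw [e1, e2'] at a3
    have H1 : Hs 1 (2*j+1+1) = Hs 1 (2*j+1) + 1/(2*((j:ℚ)+1)) := by
      rw [Hs_succ]
      push_cast
      congr 1
      ring
    have H2 : Hs 1 (j+1) = Hs 1 j + 1/((j:ℚ)+1) := by
      rw [Hs_succ, pow_one]
    rw [H1] at a3
    generalize T M (p^s*(j+1)-1) * (rho M (M-1-(p^s*(j+1)-1)) / rho M M) = t1 at *
    generalize TB M (p^s*(j+1)-1) = t2 at *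
    have hy2 : Dv p 2 (2 * ((p:ℚ)/(2*((j:ℚ)+1)))^2) := by
      have := smul_int 2 (show Dv p 2 (((p:ℚ)/(2*((j:ℚ)+1)))^2) by simpa using hy.pow 2)
      simpa using this
    have a4 := (hy2.mul (Dv.p1.mul a3)).mono (by norm_num : (4:ℤ) ≤ 2 + (1+1))
    have a5 := (a1.add a2).add a4
    have n1 : ((j:ℚ)+1) ≠ 0 := by positivity
    rw [H2] at a5
    have e3 : t1 - 2 * (p/(2*((j:ℚ)+1)))^2 * (1 + p/(2*((j:ℚ)+1)) - p * Hs 1 j +
        p * (Hs 1 (h-1-j) - Hs 1 h)) +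
        (t2 - 2 * (p/(2*((j:ℚ)+1)))^2 * (1 - p/(2*((j:ℚ)+1)) - 2 * p * Hs 1 (2*j+1) +
          2 * p * (Hs 1 j + 1/((j:ℚ)+1)))) +
        2 * (p/(2*((j:ℚ)+1)))^2 * (p * (Hs 1 j + 1/((j:ℚ)+1) + Hs 1 (h-1-j) - Hs 1 h -
          2 * (Hs 1 (2*j+1) + 1/(2*((j:ℚ)+1))))) =
        t1 + t2 - p^2 * (1/((j:ℚ)+1)^2) - p^3 * (1/((j:ℚ)+1)^3) := by
      field_simp
      ring
    rw [e3] at a5
    exact a5
  have hY2 : Dv p 4 ((p:ℚ)^2 * (3 * YY p h + p * Hs 3 h)) :=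
    ((Dv.p_pow (p := p) 2).mul y1).mono (by norm_num)
  generalize ∑ n ∈ range M, T M n * (rho M (M-1-n) / rho M M) = S1 at *
  generalize ∑ n ∈ range M, TB M n = S2 at *
  generalize ∑ j ∈ range h, T M (p^s*(j+1)-1) * (rho M (M-1-(p^s*(j+1)-1)) / rho M M) = S1' at *
  generalize ∑ j ∈ range h, TB M (p^s*(j+1)-1) = S2' at *
  have q1 : Dv p 4 ((Pi2 2 M - 1) * S1) := (p2.mul i1).mono (by norm_num)
  have q2 : Dv p 4 ((Z3 M - 1) * S2) := (z2.mul i2).mono (by norm_num)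
  have tot := ((((((p1.sub z1).add s1).add s2).add hsum).add hY2).add q1).add q2
  have e : Pi2 2 M - 1 + 2^2 * (p^2/4) * Hs 2 h - (Z3 M - 1 + 3 * p^2 * YY p h) + (S1 - S1') +
    (S2 - S2') + (S1' + S2' - p^2 * Hs 2 h - p^3 * Hs 3 h) + (p:ℚ)^2 * (3 * YY p h + p * Hs 3 h) +
    (Pi2 2 M - 1) * S1 + (Z3 M - 1) * S2 = Pi2 2 M * (1 + S1) - Z3 M * (1 - S2) := by ring
  rw [e] at tot
  exact tot

theorem AB (h2 : p ≠ 2) (hM : p^(s+1) = 2*M+1) (hh : p = 2*h+1) :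
    Dv p 4 (A M / (2*(M:ℚ)+1) - B (2*M+1) / (2*(M:ℚ)+1)) := by
  have hb := bracket h2 hM hh
  have hP : (2*(M:ℚ)+1) ≠ 0 := by positivity
  have hA := A_form2 M
  have hB := B_form M
  obtain ⟨p1, p2⟩ := Pi2_cong (p := p) h2 hM hh 2
  have e2 : (((2:ℤ):ℚ)) = 2 := by norm_num
  rw [e2] at p2
  have hu := unit_of_cong (p := p) (p2.mono (by norm_num : (1:ℤ) ≤ 2)) (by norm_num) padicValRat.one
  obtain ⟨_, p3⟩ := Pi2_cong (p := p) h2 hM hh 1
  have e1 : (((1:ℤ):ℚ)) = 1 := by norm_num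
  rw [e1] at p3
  have hw := wM_cong h2 hM hh
  have i1 : Dv p 0 (Pi2 1 M) := by
    have := (p3.mono (by norm_num : (0:ℤ) ≤ 2)).add Dv.one
    simpa using this
  have i2 : Dv p 0 (w M M) := by
    have := (hw.mono (by norm_num : (0:ℤ) ≤ 2)).add Dv.one
    simpa using this
  generalize (1 + ∑ n ∈ range M, T M n * (rho M (M-1-n) / rho M M)) = U at *
  generalize (1 - ∑ n ∈ range M, TB M n) = V at *
  have h4 := ((i2.mul0 i1).mul0' hb).div_unit hu.2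
  have e : A M / (2*(M:ℚ)+1) - B (2*M+1) / (2*(M:ℚ)+1) =
      w M M * Pi2 1 M * (Pi2 2 M * U - Z3 M * V) / Pi2 2 M := by
    rw [hA, eq_div_iff hu.1]
    field_simp
    linear_combination -hB
  rw [e]
  exact h4

theorem B_final (h2 : p ≠ 2) (h3 : p ≠ 3) (hM : p^(s+1) = 2*M+1) (hh : p = 2*h+1) :
    Dv p 4 (B (2*M+1) / (2*(M:ℚ)+1) - (1 + (7/6) * p^3 * bernoulli (p-3))) := by
  have h4 := (A_final (p := p) h2 h3 hM hh).sub (AB h2 hM hh)
  have e : A M / (2*(M:ℚ)+1) - (1 + (7/6) * p^3 * bernoulli (p-3)) -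
    (A M / (2*(M:ℚ)+1) - B (2*M+1) / (2*(M:ℚ)+1)) =
    B (2*M+1) / (2*(M:ℚ)+1) - (1 + (7/6) * p^3 * bernoulli (p-3)) := by ring
  rw [e] at h4
  exact h4

end

end Pool.Agent.N926.Sup2
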