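import Pool.Agent.N926.Sup2.F

set_option autoImplicit false
set_option linter.unusedSectionVars false
set_option linter.unusedVariables false

namespace Pool.Agent.N926.Sup2

open Finset Pool.Agent.N926.Sup

section
variable (p : ℕ) [hp : Fact p.Prime]

/-- partial sums of inverses in `ZMod p` -/
def hN (n : ℕ) : ZMod p := ∑ i ∈ range n, (((i+1 : ℕ) : ZMod p))⁻¹

/-- the harmonic function on `ZMod p` -/
def Hz (x : ZMod p) : ZMod p := hN p x.val

theorem sum_univ_eq (f : ZMod p → ZMod p) : ∑ x : ZMod p, f x = ∑ i ∈ range p, f (i : ZMod p) := by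
  symm
  refine Finset.sum_nbij' (fun i : ℕ => (i : ZMod p)) (fun x : ZMod p => x.val) ?_ ?_ ?_ ?_ ?_
  · intro a _
    exact mem_univ _
  · intro a _
    exact mem_range.2 (ZMod.val_lt a)
  · intro a ha
    exact ZMod.val_cast_of_lt (mem_range.1 ha)
  · intro a _
    exact ZMod.natCast_zmod_val a
  · intro a _
    rfl

theorem two_ne (h2 : p ≠ 2) : (2 : ZMod p) ≠ 0 := by
  intro h
  have : ((2:ℕ) : ZMod p) = 0 := by exact_mod_cast h
  rw [ZMod.natCast_eq_zero_iff] at this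
  exact h2 ((Nat.prime_dvd_prime_iff_eq hp.out Nat.prime_two).1 this)

theorem three_ne (h3 : p ≠ 3) : (3 : ZMod p) ≠ 0 := by
  intro h
  have : ((3:ℕ) : ZMod p) = 0 := by exact_mod_cast h
  rw [ZMod.natCast_eq_zero_iff] at this
  exact h3 ((Nat.prime_dvd_prime_iff_eq hp.out Nat.prime_three).1 this)

theorem sum_neg_self (h2 : p ≠ 2) (f : ZMod p → ZMod p) (hf : ∀ x, f (-x) = - f x) :
    ∑ x : ZMod p, f x = 0 := by
  have h1 : ∑ x : ZMod p, f x = ∑ x : ZMod p, f (-x) :=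
    (Equiv.sum_comp (Equiv.neg (ZMod p)) f).symm
  have h3 : ∑ x : ZMod p, f (-x) = - ∑ x : ZMod p, f x := by
    rw [← sum_neg_distrib]
    exact sum_congr rfl fun x _ => hf x
  rw [h3] at h1
  have h4 : (2 : ZMod p) * ∑ x : ZMod p, f x = 0 := by
    linear_combination h1
  exact (mul_eq_zero.1 h4).resolve_left (two_ne p h2)

theorem sum_inv (h2 : p ≠ 2) : ∑ x : ZMod p, x⁻¹ = 0 :=
  sum_neg_self p h2 _ fun x => by rw [inv_neg]

theorem sum_inv3 (h2 : p ≠ 2) : ∑ x : ZMod p, (x⁻¹)^3 = 0 :=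
  sum_neg_self p h2 _ fun x => by rw [inv_neg]; ring

theorem sum_double (h2 : p ≠ 2) (f : ZMod p → ZMod p) : ∑ x : ZMod p, f (2*x) = ∑ x : ZMod p, f x :=
  Equiv.sum_comp (Equiv.mulLeft₀ (2 : ZMod p) (two_ne p h2)) f

theorem sum_inv2 (h2 : p ≠ 2) (h3 : p ≠ 3) : ∑ x : ZMod p, (x⁻¹)^2 = 0 := by
  have h1 := sum_double p h2 (fun x => (x⁻¹)^2)
  have h4 : ∑ x : ZMod p, ((2*x)⁻¹)^2 = (2⁻¹)^2 * ∑ x : ZMod p, (x⁻¹)^2 := by
    rw [mul_sum]
    refine sum_congr rfl fun x _ => ?_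
    rw [mul_inv]
    ring
  rw [h4] at h1
  have h5 := two_ne p h2
  have h6 : (2:ZMod p)^2 * ((2⁻¹)^2 * ∑ x : ZMod p, (x⁻¹)^2) = ∑ x : ZMod p, (x⁻¹)^2 := by
    rw [← mul_assoc, ← mul_pow, mul_inv_cancel₀ h5, one_pow, one_mul]
  rw [h1] at h6
  have h7 : (3:ZMod p) * ∑ x : ZMod p, (x⁻¹)^2 = 0 := by
    linear_combination h6
  exact (mul_eq_zero.1 h7).resolve_left (three_ne p h3)

theorem hN_succ (n : ℕ) : hN p (n+1) = hN p n + (((n+1:ℕ) : ZMod p))⁻¹ := by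
  unfold hN
  rw [sum_range_succ]

theorem hN_p (h2 : p ≠ 2) : hN p p = 0 := by
  have h1 : ∑ x : ZMod p, (x+1)⁻¹ = ∑ x : ZMod p, x⁻¹ :=
    Equiv.sum_comp (Equiv.addRight (1 : ZMod p)) (fun x => x⁻¹)
  rw [sum_inv p h2, sum_univ_eq] at h1
  unfold hN
  push_cast
  exact h1

theorem hN_add (h2 : p ≠ 2) (n : ℕ) : hN p (n + p) = hN p n := by
  induction n with
  | zero => rw [zero_add, hN_p p h2]; simp [hN]
  | succ n ih =>
    have e : n + 1 + p = (n + p) + 1 := by ring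
    rw [e, hN_succ, ih, hN_succ]
    congr 2
    push_cast
    simp

theorem Hz_nat (h2 : p ≠ 2) (n : ℕ) : Hz p (n : ZMod p) = hN p n := by
  unfold Hz
  rw [ZMod.val_natCast]
  have : ∀ k m : ℕ, hN p (m + p * k) = hN p m := by
    intro k
    induction k with
    | zero => intro m; simp
    | succ k ih =>
      intro m
      have e : m + p * (k+1) = (m + p*k) + p := by ring
      rw [e, hN_add p h2, ih]
  conv_rhs => rw [← Nat.mod_add_div n p]
  rw [this]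

theorem Hz_step (h2 : p ≠ 2) (x : ZMod p) : Hz p x - Hz p (x-1) = x⁻¹ := by
  have hpos := hp.out.pos
  obtain ⟨n, hn⟩ : ∃ n : ℕ, x = ((n+1 : ℕ) : ZMod p) := by
    refine ⟨x.val + p - 1, ?_⟩
    have e : x.val + p - 1 + 1 = x.val + p := by omega
    rw [e]
    push_cast
    rw [ZMod.natCast_zmod_val]
    simp
  have e : x - 1 = (n : ZMod p) := by
    rw [hn]
    push_cast
    ring
  rw [e, hn, Hz_nat p h2, Hz_nat p h2, hN_succ]
  ring

theorem const_of_step (K : ZMod p → ZMod p) (h : ∀ x, K x = K (x-1)) (x : ZMod p) : K x = K 0 := by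
  have h1 : ∀ n : ℕ, K (n : ZMod p) = K 0 := by
    intro n
    induction n with
    | zero => simp
    | succ n ih =>
      rw [h]
      push_cast
      rw [add_sub_cancel_right, ih]
  rw [← ZMod.natCast_zmod_val x]
  exact h1 _

variable {h : ℕ}

theorem two_h (hh : p = 2*h+1) : (2:ZMod p) * (h : ZMod p) = -1 := by
  have : ((2*h+1 : ℕ) : ZMod p) = 0 := by
    rw [← hh]
    simp
  push_cast at this
  linear_combination this

theorem Hz_refl (h2 : p ≠ 2) (hh : p = 2*h+1) (x : ZMod p) : Hz p (-1-x) = Hz p x := by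
  have h3 := const_of_step p (fun x => Hz p x - Hz p (-1-x)) (fun x => by
    have a1 := Hz_step p h2 x
    have a2 := Hz_step p h2 (-x)
    have e1 : -x - 1 = -1 - x := by ring
    have e2 : -1 - (x-1) = -x := by ring
    rw [e1] at a2
    simp only [e2]
    rw [inv_neg] at a2
    linear_combination a1 + a2)
  have h4 := h3 (h : ZMod p)
  have h5 := h3 x
  try simp only at h4 h5
  have e : -1 - (h : ZMod p) = h := by
    linear_combination -(two_h p hh)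
  rw [e] at h4
  rw [← h4] at h5
  linear_combination -h5

theorem Hz_zero : Hz p 0 = 0 := by
  unfold Hz hN
  simp

theorem Hz_dup (h2 : p ≠ 2) (hh : p = 2*h+1) (x : ZMod p) :
    2 * Hz p (2*x) = Hz p x + Hz p (x + h) - Hz p h := by
  have h2' := two_ne p h2
  have h3 := const_of_step p (fun x => 2 * Hz p (2*x) - Hz p x - Hz p (x + h)) (fun x => by
    have a1 := Hz_step p h2 x
    have a2 := Hz_step p h2 (x + h)
    have a3 := Hz_step p h2 (2*x)
    have a4 := Hz_step p h2 (2*x-1)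
    have e1 : 2*x - 1 - 1 = 2*(x-1) := by ring
    have e2 : x + (h:ZMod p) - 1 = x - 1 + h := by ring
    have e3 : 2*x - 1 = 2*(x + h) := by
      linear_combination -(two_h p hh)
    rw [e1] at a4
    rw [e2] at a2
    have e4 : (2*x-1)⁻¹ = 2⁻¹ * (x + h)⁻¹ := by rw [e3, mul_inv]
    have e5 : (2*x)⁻¹ = 2⁻¹ * x⁻¹ := by rw [mul_inv]
    rw [e4] at a4
    rw [e5] at a3
    have e6 : (2:ZMod p) * 2⁻¹ = 1 := mul_inv_cancel₀ h2'
    try simp only
    linear_combination 2 * a3 + 2 * a4 - a1 - a2 + (x⁻¹ + (x+h)⁻¹) * e6)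
  have h4 := h3 x
  try simp only at h4
  rw [mul_zero, zero_add, Hz_zero] at h4
  linear_combination h4

/-- `S(a) = ∑_x H(a+x)/x²` -/
def Sa (a : ZMod p) : ZMod p := ∑ x : ZMod p, Hz p (a + x) * (x⁻¹)^2

theorem frac (h2 : p ≠ 2) (h3 : p ≠ 3) (c : ZMod p) :
    ∑ x : ZMod p, (c + x)⁻¹ * (x⁻¹)^2 = -3 * (c⁻¹)^3 := by
  by_cases hc : c = 0
  · subst hc
    have e : ∀ x : ZMod p, (0 + x)⁻¹ * (x⁻¹)^2 = (x⁻¹)^3 := fun x => by rw [zero_add]; ring
    simp only [e]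
    rw [sum_inv3 p h2]
    simp
  have key : ∀ x : ZMod p, (c + x)⁻¹ * (x⁻¹)^2 = c⁻¹ * (x⁻¹)^2 - (c⁻¹)^2 * x⁻¹ +
      (c⁻¹)^2 * (x + c)⁻¹ - (if x = 0 then (c⁻¹)^3 else 0) - (if x = -c then 2*(c⁻¹)^3 else 0) := by
    intro x
    by_cases hx : x = 0
    · subst hx
      have : (0:ZMod p) ≠ -c := fun h => hc (by linear_combination h)
      rw [if_pos rfl, if_neg this]
      simp
      ring
    by_cases hx2 : x = -c
    · subst hx2
      rw [if_neg hx, if_pos rfl]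
      rw [inv_neg, neg_add_cancel, add_neg_cancel]
      simp
      ring
    · rw [if_neg hx, if_neg hx2]
      have h4 : c + x ≠ 0 := fun h => hx2 (by linear_combination h)
      have h5 : x + c ≠ 0 := fun h => hx2 (by linear_combination h)
      field_simp
      ring
  have h4 : ∑ x : ZMod p, (x+c)⁻¹ = ∑ x : ZMod p, x⁻¹ :=
    Equiv.sum_comp (Equiv.addRight (c : ZMod p)) (fun x => x⁻¹)
  rw [sum_congr rfl fun x _ => key x]
  rw [sum_sub_distrib, sum_sub_distrib, sum_add_distrib, sum_sub_distrib, ← mul_sum, ← mul_sum,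
    ← mul_sum, h4, sum_inv p h2, sum_inv2 p h2 h3]
  simp
  ring

theorem Sa_step (h2 : p ≠ 2) (h3 : p ≠ 3) (a : ZMod p) :
    Sa p (a+1) - Sa p a = -3 * ((a+1)⁻¹)^3 := by
  rw [← frac p h2 h3]
  unfold Sa
  rw [← sum_sub_distrib]
  refine sum_congr rfl fun x _ => ?_
  have := Hz_step p h2 (a+1+x)
  have e : a + 1 + x - 1 = a + x := by ring
  rw [e] at this
  rw [← this]
  ring

theorem Sa_nat (h2 : p ≠ 2) (h3 : p ≠ 3) (n : ℕ) :
    Sa p (n : ZMod p) = Sa p 0 - 3 * ∑ i ∈ range n, ((((i+1:ℕ) : ZMod p))⁻¹)^3 := by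
  induction n with
  | zero => simp
  | succ n ih =>
    have h4 := Sa_step p h2 h3 (n : ZMod p)
    rw [sum_range_succ]
    push_cast
    push_cast at ih
    linear_combination h4 + ih

theorem Sa_zero (h2 : p ≠ 2) (h3 : p ≠ 3) (hh : p = 2*h+1) : 8 * Sa p 0 = Sa p 0 + Sa p h := by
  have h1 := sum_double p h2 (fun x => Hz p x * (x⁻¹)^2)
  have h5 := two_ne p h2
  have e6 : (2:ZMod p) * 2⁻¹ = 1 := mul_inv_cancel₀ h5
  have h6 : 8 * ∑ x : ZMod p, Hz p (2*x) * ((2*x)⁻¹)^2 =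
      ∑ x : ZMod p, (Hz p x + Hz p (x+h) - Hz p h) * (x⁻¹)^2 := by
    rw [mul_sum]
    refine sum_congr rfl fun x _ => ?_
    rw [← Hz_dup p h2 hh, mul_inv]
    linear_combination 2 * Hz p (2*x) * (x⁻¹)^2 * ((2:ZMod p) * 2⁻¹ + 1) * e6
  have h7 : Sa p 0 = ∑ x : ZMod p, Hz p x * (x⁻¹)^2 := by
    unfold Sa
    refine sum_congr rfl fun x _ => ?_
    rw [zero_add]
  have h8 : Sa p h = ∑ x : ZMod p, Hz p (x+h) * (x⁻¹)^2 := by
    unfold Sa
    refine sum_congr rfl fun x _ => ?_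
    rw [add_comm]
  have h9 : ∑ x : ZMod p, (Hz p x + Hz p (x+h) - Hz p h) * (x⁻¹)^2 =
      Sa p 0 + Sa p h - Hz p h * ∑ x : ZMod p, (x⁻¹)^2 := by
    rw [h7, h8, mul_sum, ← sum_add_distrib, ← sum_sub_distrib]
    refine sum_congr rfl fun x _ => ?_
    ring
  rw [h1, ← h7, h9, sum_inv2 p h2 h3] at h6
  linear_combination h6

theorem Sa_h (h2 : p ≠ 2) (hh : p = 2*h+1) :
    Sa p h = 2 * ∑ j ∈ range h, hN p (h-1-j) * ((((j+1:ℕ) : ZMod p))⁻¹)^2 := by
  have hx : ∀ x : ZMod p, Hz p (h + x) * (x⁻¹)^2 = Hz p (h - x) * (x⁻¹)^2 := by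
    intro x
    rw [← Hz_refl p h2 hh (h - x)]
    congr 2
    linear_combination (two_h p hh)
  unfold Sa
  rw [sum_univ_eq]
  have e : p = h + (h + 1) := by omega
  have e2 : ∀ f : ℕ → ZMod p, ∑ i ∈ range p, f i = f 0 + ∑ j ∈ range h, f (j+1) +
      ∑ j ∈ range h, f (h+1+j) := by
    intro f
    have e3 : range p = range ((h+1) + h) := by
      congr 1
      omega
    rw [e3, sum_range_add, sum_range_succ']
    ring
  rw [e2]
  have h5 : ∑ j ∈ range h, Hz p ((h:ZMod p) + ((h+1+j:ℕ) : ZMod p)) * ((((h+1+j:ℕ) : ZMod p))⁻¹)^2 =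
      ∑ j ∈ range h, Hz p ((h:ZMod p) - ((j+1:ℕ) : ZMod p)) * ((((j+1:ℕ) : ZMod p))⁻¹)^2 := by
    rw [← sum_range_reflect]
    refine sum_congr rfl fun j hj => ?_
    rw [mem_range] at hj
    have e4 : ((h+1+(h-1-j):ℕ) : ZMod p) = -((j+1:ℕ) : ZMod p) := by
      have : h+1+(h-1-j) + (j+1) = p := by omega
      have h6 : ((h+1+(h-1-j) + (j+1) : ℕ) : ZMod p) = 0 := by rw [this]; simp
      rw [Nat.cast_add] at h6
      linear_combination h6
    rw [e4, inv_neg]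
    have e5 : (h:ZMod p) + -((j+1:ℕ) : ZMod p) = (h:ZMod p) - ((j+1:ℕ) : ZMod p) := by ring
    rw [e5]
    ring
  have h6 : ∑ j ∈ range h, Hz p ((h:ZMod p) + ((j+1:ℕ) : ZMod p)) * ((((j+1:ℕ) : ZMod p))⁻¹)^2 =
      ∑ j ∈ range h, Hz p ((h:ZMod p) - ((j+1:ℕ) : ZMod p)) * ((((j+1:ℕ) : ZMod p))⁻¹)^2 :=
    sum_congr rfl fun j _ => hx _
  have h7 : ∑ j ∈ range h, Hz p ((h:ZMod p) - ((j+1:ℕ) : ZMod p)) * ((((j+1:ℕ) : ZMod p))⁻¹)^2 =
      ∑ j ∈ range h, hN p (h-1-j) * ((((j+1:ℕ) : ZMod p))⁻¹)^2 := by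
    refine sum_congr rfl fun j hj => ?_
    rw [mem_range] at hj
    have : (h:ZMod p) - ((j+1:ℕ) : ZMod p) = ((h-1-j : ℕ) : ZMod p) := by
      have h8 : h - 1 - j + (j+1) = h := by omega
      have h9 : ((h-1-j + (j+1) : ℕ) : ZMod p) = (h : ZMod p) := by rw [h8]
      rw [Nat.cast_add] at h9
      linear_combination -h9
    rw [this, Hz_nat p h2]
  rw [h5, h6, h7]
  simp
  ring

/-- `4 D = -7 H_h^{(3)}` in `ZMod p` -/
theorem D_zmod (h2 : p ≠ 2) (h3 : p ≠ 3) (hh : p = 2*h+1) :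
    4 * ∑ j ∈ range h, hN p (h-1-j) * ((((j+1:ℕ) : ZMod p))⁻¹)^2 =
      -7 * ∑ i ∈ range h, ((((i+1:ℕ) : ZMod p))⁻¹)^3 := by
  have a1 := Sa_zero p h2 h3 hh
  have a2 := Sa_h p h2 hh
  have a3 := Sa_nat p h2 h3 h
  rw [a3] at a1
  have h6 : (3:ZMod p) * (2 * Sa p 0 + ∑ i ∈ range h, ((((i+1:ℕ) : ZMod p))⁻¹)^3) = 0 := by
    linear_combination a1
  have h7 := (mul_eq_zero.1 h6).resolve_left (three_ne p h3)
  linear_combination -2 * a2 + 2 * a3 + h7

end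

end Pool.Agent.N926.Sup2
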