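import Pool.Agent.N926.Sup2.G

set_option autoImplicit false
set_option linter.unusedSectionVars false
set_option linter.unusedVariables false

namespace Pool.Agent.N926.Sup2

open Finset Pool.Agent.N926.Sup

section
variable {p : ℕ} [hp : Fact p.Prime]

theorem Dv.of_dvd {n : ℕ} {z : ℤ} (h : (p:ℤ)^n ∣ z) : Dv p n (z:ℚ) := by
  obtain ⟨c, hc⟩ := h
  rw [hc]
  push_cast
  exact (Dv.p_pow n).mul0 (Dv.int c)

theorem Dv.of_zmod {z : ℤ} (h : (z : ZMod p) = 0) : Dv p 1 (z:ℚ) := by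
  have h1 := (ZMod.intCast_zmod_eq_zero_iff_dvd z p).1 h
  have := Dv.of_dvd (p := p) (n := 1) (z := z) (by rwa [pow_one])
  simpa using this

/-- the rational `r` (which is `p`-integral) reduces to `z` -/
def Br (p : ℕ) (r : ℚ) (z : ZMod p) : Prop := ∃ n : ℤ, Dv p 1 (r - n) ∧ (n : ZMod p) = z

theorem Br.int0 {r : ℚ} {z : ZMod p} (h : Br p r z) : Dv p 0 r := by
  obtain ⟨n, h1, h2⟩ := h
  have := (h1.mono (by norm_num : (0:ℤ) ≤ 1)).add (Dv.int n)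
  simpa using this

theorem Br.add {r r' : ℚ} {z z' : ZMod p} (h : Br p r z) (h' : Br p r' z') :
    Br p (r + r') (z + z') := by
  obtain ⟨n, h1, h2⟩ := h
  obtain ⟨n', h1', h2'⟩ := h'
  refine ⟨n + n', ?_, ?_⟩
  · have := h1.add h1'
    push_cast
    have e : r + r' - ((n:ℚ) + n') = r - n + (r' - n') := by ring
    rw [e]
    exact this
  · push_cast
    rw [h2, h2']

theorem Br.mul {r r' : ℚ} {z z' : ZMod p} (h : Br p r z) (h' : Br p r' z') :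
    Br p (r * r') (z * z') := by
  have i' := h'.int0
  obtain ⟨n, h1, h2⟩ := h
  obtain ⟨n', h1', h2'⟩ := h'
  refine ⟨n * n', ?_, ?_⟩
  · have := (h1.mul0 i').add ((Dv.int n).mul0' h1')
    push_cast
    have e : r * r' - ((n:ℚ) * n') = (r - n) * r' + n * (r' - n') := by ring
    rw [e]
    exact this
  · push_cast
    rw [h2, h2']

theorem Br.ofInt (n : ℤ) : Br p (n:ℚ) (n : ZMod p) := ⟨n, Or.inl (by ring), rfl⟩

theorem Br.sub {r r' : ℚ} {z z' : ZMod p} (h : Br p r z) (h' : Br p r' z') :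
    Br p (r - r') (z - z') := by
  have := h.add ((Br.ofInt (p := p) (-1)).mul h')
  push_cast at this
  have e1 : r + -1 * r' = r - r' := by ring
  have e2 : z + -1 * z' = z - z' := by ring
  rw [e1, e2] at this
  exact this

theorem Br.pow {r : ℚ} {z : ZMod p} (h : Br p r z) (k : ℕ) : Br p (r^k) (z^k) := by
  induction k with
  | zero => simpa using Br.ofInt (p := p) 1
  | succ k ih =>
    rw [pow_succ, pow_succ]
    exact ih.mul h

theorem Br.sum {ι : Type*} (s : Finset ι) (f : ι → ℚ) (g : ι → ZMod p)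
    (h : ∀ i ∈ s, Br p (f i) (g i)) : Br p (∑ i ∈ s, f i) (∑ i ∈ s, g i) := by
  classical
  induction s using Finset.induction_on with
  | empty => simpa using Br.ofInt (p := p) 0
  | insert a s ha ih =>
    rw [sum_insert ha, sum_insert ha]
    exact (h a (mem_insert_self a s)).add (ih fun i hi => h i (mem_insert_of_mem hi))

theorem Br.zero {r : ℚ} {z : ZMod p} (h : Br p r z) (hz : z = 0) : Dv p 1 r := by
  obtain ⟨n, h1, h2⟩ := h
  rw [hz] at h2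
  have := h1.add (Dv.of_zmod h2)
  simpa using this

theorem fermat {k : ℕ} (hk : ¬ p ∣ k) : Dv p 1 ((k:ℚ)^(p-1) - 1) := by
  have h1 : (((k:ℤ)^(p-1) - 1 : ℤ) : ZMod p) = 0 := by
    push_cast
    have hk0 : (k : ZMod p) ≠ 0 := fun h => hk ((ZMod.natCast_eq_zero_iff k p).1 h)
    rw [ZMod.pow_card_sub_one_eq_one hk0, sub_self]
  have := Dv.of_zmod h1
  push_cast at this
  exact this

theorem Br.inv {k : ℕ} (hk : ¬ p ∣ k) : Br p (1/(k:ℚ)) ((k : ZMod p)⁻¹) := by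
  have hk0 : (k : ZMod p) ≠ 0 := fun h => hk ((ZMod.natCast_eq_zero_iff k p).1 h)
  have hkq : (k:ℚ) ≠ 0 := by
    intro h
    apply hk
    have : k = 0 := by exact_mod_cast h
    rw [this]
    exact dvd_zero p
  have h2 := hp.out.two_le
  refine ⟨(k:ℤ)^(p-2), ?_, ?_⟩
  · have h1 := (fermat hk).neg.div_unit (unit_nat hk)
    have e : 1/(k:ℚ) - (((k:ℤ)^(p-2) : ℤ) : ℚ) = -((k:ℚ)^(p-1) - 1) / k := by
      have e2 : (k:ℚ)^(p-1) = (k:ℚ)^(p-2) * k := by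
        rw [← pow_succ]
        congr 1
        omega
      rw [e2]
      push_cast
      field_simp
      ring
    rw [e]
    exact h1
  · push_cast
    have h3 := ZMod.pow_card_sub_one_eq_one hk0
    have e2 : (k:ZMod p)^(p-1) = (k:ZMod p)^(p-2) * k := by
      rw [← pow_succ]
      congr 1
      omega
    rw [e2] at h3
    exact eq_inv_of_mul_eq_one_left h3

variable {h : ℕ}

theorem not_dvd_of_lt {k : ℕ} (h0 : 0 < k) (h1 : k < p) : ¬ p ∣ k := fun hd => by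
  have := Nat.le_of_dvd h0 hd
  omega

theorem Br_j {j : ℕ} (k : ℕ) (hj : j + 1 < p) :
    Br p (1/((j:ℚ)+1)^k) ((((j+1:ℕ) : ZMod p))⁻¹^k) := by
  have h1 := (Br.inv (p := p) (k := j+1) (not_dvd_of_lt (by omega) hj)).pow k
  have e : (1/((j+1:ℕ):ℚ))^k = 1/((j:ℚ)+1)^k := by
    push_cast
    rw [div_pow, one_pow]
  rw [e] at h1
  exact h1

theorem Br_Hs (k n : ℕ) (hn : n < p) :
    Br p (Hs k n) (∑ i ∈ range n, ((((i+1:ℕ) : ZMod p))⁻¹)^k) := by
  unfold Hs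
  refine Br.sum _ _ _ fun i hi => ?_
  rw [mem_range] at hi
  exact Br_j k (by omega)

theorem five_le (hh : p = 2*h+1) (h3 : p ≠ 3) : 5 ≤ p := by
  have := hp.out.two_le
  have h4 : p ≠ 4 := by
    intro h
    rw [h] at hp
    exact absurd hp.out (by norm_num)
  omega

theorem unit_small {z : ℤ} (h : (z : ZMod p) ≠ 0) : padicValRat p (z:ℚ) = 0 := by
  apply unit_int
  intro hd
  exact h ((ZMod.intCast_zmod_eq_zero_iff_dvd z p).2 hd)

theorem unit_six (h2 : p ≠ 2) (h3 : p ≠ 3) : padicValRat p (6:ℚ) = 0 := by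
  have : ((6:ℤ) : ZMod p) ≠ 0 := by
    have e : ((6:ℤ) : ZMod p) = 2 * 3 := by push_cast; norm_num
    rw [e]
    exact mul_ne_zero (two_ne p h2) (three_ne p h3)
  simpa using unit_small this

theorem unit_three (h3 : p ≠ 3) : padicValRat p (3:ℚ) = 0 := by
  have : ((3:ℤ) : ZMod p) ≠ 0 := by
    push_cast
    exact three_ne p h3
  simpa using unit_small this

theorem X1 (h2 : p ≠ 2) (hh : p = 2*h+1) : Dv p 2 (6 * Hs 2 h + 7 * p * Hs 3 h) := by
  obtain ⟨a1, a2⟩ := Y_cong (p := p) h2 hh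
  have h4 := a1.sub ((Dv.nat (p := p) 3).mul0' a2)
  have e : 3 * YY p h + p * Hs 3 h - ((3:ℕ):ℚ) * (YY p h - 2 * Hs 2 h - 2 * p * Hs 3 h) =
    6 * Hs 2 h + 7 * p * Hs 3 h := by
    push_cast
    ring
  rw [e] at h4
  exact h4

theorem Hs2_1 (h2 : p ≠ 2) (h3 : p ≠ 3) (hh : p = 2*h+1) : Dv p 1 (Hs 2 h) := by
  have h4 := (X1 (p := p) h2 hh).mono (by norm_num : (1:ℤ) ≤ 2)
  have h5 : Dv p 1 ((p:ℚ) * (7 * Hs 3 h)) :=
    Dv.p1.mul0 (by simpa using (Dv.nat (p := p) 7).mul0 (Hs_int (k := 3) (n := h) (by omega)))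
  have h6 := h4.sub h5
  have e : 6 * Hs 2 h + 7 * p * Hs 3 h - (p:ℚ) * (7 * Hs 3 h) = 6 * Hs 2 h := by ring
  rw [e] at h6
  exact h6.of_unit_mul (unit_six h2 h3) (by norm_num)

theorem X2 (h2 : p ≠ 2) (h3 : p ≠ 3) (hh : p = 2*h+1) : Dv p 1 (4 * DD h + 7 * Hs 3 h) := by
  have hp5 := five_le (p := p) hh h3
  have a1 : Br p (∑ j ∈ range h, Hs 1 (h-1-j) * (1/((j:ℚ)+1)^2))
      (∑ j ∈ range h, hN p (h-1-j) * ((((j+1:ℕ) : ZMod p))⁻¹)^2) := by
    refine Br.sum _ _ _ fun j hj => ?_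
    rw [mem_range] at hj
    have := Br_Hs (p := p) 1 (h-1-j) (by omega)
    simp only [pow_one] at this
    exact this.mul (Br_j 2 (by omega))
  have a2 := Br_Hs (p := p) 3 h (by omega)
  have a3 := ((Br.ofInt (p := p) 4).mul a1).add ((Br.ofInt (p := p) 7).mul a2)
  have a4 := a3.zero (by
    have := D_zmod p h2 h3 hh
    push_cast at this ⊢
    linear_combination this)
  have a5 : Dv p 1 (4 * (Hs 1 h * Hs 2 h)) := by
    have := (Dv.nat (p := p) 4).mul0' ((Hs_int (k := 1) (n := h) (by omega)).mul0' (Hs2_1 (p := p) h2 h3 hh))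
    simpa using this
  have a6 := a4.sub a5
  have e : ((4:ℤ):ℚ) * ∑ j ∈ range h, Hs 1 (h-1-j) * (1/((j:ℚ)+1)^2) + ((7:ℤ):ℚ) * Hs 3 h -
    4 * (Hs 1 h * Hs 2 h) = 4 * DD h + 7 * Hs 3 h := by
    unfold DD
    have e2 : ∑ j ∈ range h, (1/((j:ℚ)+1)^2) * (Hs 1 (h-1-j) - Hs 1 h) =
      ∑ j ∈ range h, Hs 1 (h-1-j) * (1/((j:ℚ)+1)^2) - Hs 1 h * Hs 2 h := by
      conv_rhs => rw [show Hs 2 h = ∑ j ∈ range h, 1/((j:ℚ)+1)^2 from rfl]
      rw [mul_sum, ← sum_sub_distrib]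
      refine sum_congr rfl fun j _ => ?_
      ring
    rw [e2]
    push_cast
    ring
  rw [e] at a6
  exact a6

/-! ### Bernoulli numbers -/

theorem bern_int : ∀ m : ℕ, m + 1 < p → Dv p 0 (bernoulli m) := by
  intro m
  induction m using Nat.strong_induction_on with
  | _ m ih =>
    intro hm
    have h1 := sum_bernoulli (m+1)
    rw [sum_range_succ, Nat.choose_succ_self_right] at h1
    have h2 : Dv p 0 (∑ k ∈ range m, ((m+1).choose k : ℚ) * bernoulli k) := by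
      refine Dv.sum _ _ fun k hk => ?_
      rw [mem_range] at hk
      exact (Dv.nat _).mul0' (ih k hk (by omega))
    have h3 : Dv p 0 ((if m + 1 = 1 then (1:ℚ) else 0)) := by
      split_ifs
      · exact Dv.one
      · exact Dv.zero 0
    have h4 := h3.sub h2
    have e : (if m + 1 = 1 then (1:ℚ) else 0) - ∑ k ∈ range m, ((m+1).choose k : ℚ) * bernoulli k =
      ((m+1:ℕ):ℚ) * bernoulli m := by
      rw [← h1]
      ring
    rw [e] at h4
    exact h4.of_unit_mul (unit_nat (not_dvd_of_lt (by omega) hm)) (by positivity)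

theorem faulhaber (hp5 : 5 ≤ p) :
    Dv p 2 (∑ k ∈ range p, (k:ℚ)^(p-3) - p * bernoulli (p-3)) := by
  rw [sum_range_pow, sum_range_succ]
  have h1 : Dv p 2 (∑ i ∈ range (p-3), bernoulli i * ((p-3+1).choose i : ℚ) * (p:ℚ)^(p-3+1-i) /
      (((p-3:ℕ):ℚ)+1)) := by
    refine Dv.sum _ _ fun i hi => ?_
    rw [mem_range] at hi
    have e : (p:ℚ)^(p-3+1-i) = (p:ℚ)^2 * (p:ℚ)^(p-3-1-i) := by
      rw [← pow_add]
      congr 1
      omega
    have h2 : Dv p 2 (bernoulli i * ((p-3+1).choose i : ℚ) * (p:ℚ)^(p-3+1-i)) := by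
      rw [e]
      refine ((bern_int i (by omega)).mul0 (Dv.nat _)).mul0' ?_
      exact (Dv.p_pow 2).mul0 ((Dv.p_pow _).mono (by positivity))
    refine h2.div_unit ?_
    have := unit_nat (p := p) (n := p-3+1) (not_dvd_of_lt (by omega) (by omega))
    push_cast at this
    exact this
  have e : bernoulli (p-3) * ((p-3+1).choose (p-3) : ℚ) * (p:ℚ)^(p-3+1-(p-3)) /
      (((p-3:ℕ):ℚ)+1) = p * bernoulli (p-3) := by
    have e1 : p-3+1-(p-3) = 1 := by omega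
    rw [e1, Nat.choose_succ_self_right, pow_one]
    have : (((p-3:ℕ):ℚ)+1) ≠ 0 := by positivity
    push_cast
    field_simp
  rw [e, add_sub_cancel_right]
  exact h1

/-- power sums -/
def Pw (m n : ℕ) : ℚ := ∑ j ∈ range n, ((j:ℚ)+1)^m

theorem Pw_int (m n : ℕ) : Dv p 0 (Pw m n) := by
  unfold Pw
  refine Dv.sum _ _ fun j _ => ?_
  have := (Dv.nat (p := p) (j+1)).pow m
  push_cast at this
  simpa using this

theorem pow_refl {m : ℕ} (hm : Even m) (k : ℤ) :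
    Dv p 2 (((p:ℚ) - k)^m - (k:ℚ)^m + m * p * (k:ℚ)^(m-1)) := by
  obtain ⟨c, hc⟩ := Polynomial.powAddExpansion (k:ℤ) (-(p:ℤ)) m
  have h1 : ((p:ℚ) - k)^m = ((k:ℚ) + (-(p:ℚ)))^m := by
    have : (k:ℚ) + (-(p:ℚ)) = -((p:ℚ) - k) := by ring
    rw [this, hm.neg_pow]
  have h2 : ((k:ℚ) + (-(p:ℚ)))^m = (k:ℚ)^m + m * (k:ℚ)^(m-1) * (-(p:ℚ)) + c * (-(p:ℚ))^2 := by
    exact_mod_cast congrArg (fun z : ℤ => (z:ℚ)) hc
  rw [h1, h2]
  have e : (k:ℚ)^m + m * (k:ℚ)^(m-1) * (-(p:ℚ)) + c * (-(p:ℚ))^2 - (k:ℚ)^m + m * p * (k:ℚ)^(m-1) =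
    (p:ℚ)^2 * c := by ring
  rw [e]
  exact (Dv.p_pow 2).mul0 (Dv.int c)

theorem Pw_half (hh : p = 2*h+1) {m : ℕ} (hm : Even m) :
    Dv p 2 (Pw m (2*h) - 2 * Pw m h + m * p * Pw (m-1) h) := by
  have h1 : Pw m (2*h) = Pw m h + ∑ j ∈ range h, ((p:ℚ) - ((j+1:ℕ):ℤ))^m := by
    unfold Pw
    have e : 2*h = h + h := by ring
    rw [e, sum_range_add]
    congr 1
    rw [← sum_range_reflect]
    refine sum_congr rfl fun j hj => ?_
    rw [mem_range] at hj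
    congr 1
    have h3 : h + (h-1-j) + 1 + (j+1) = p := by omega
    have h4 : ((h + (h-1-j) + 1 + (j+1) : ℕ) : ℚ) = p := by rw [h3]
    push_cast at h4 ⊢
    linarith
  have h2 := Dv.sum (range h) _ fun j _ => pow_refl (p := p) hm ((j+1:ℕ):ℤ)
  have e : ∑ i ∈ range h, (((p:ℚ) - (((i+1:ℕ):ℤ):ℚ))^m - ((((i+1:ℕ):ℤ):ℚ))^m + m * p * ((((i+1:ℕ):ℤ):ℚ))^(m-1)) =
    Pw m (2*h) - 2 * Pw m h + m * p * Pw (m-1) h := by
    rw [h1, sum_add_distrib, sum_sub_distrib, ← mul_sum]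
    unfold Pw
    push_cast
    ring
  rw [e] at h2
  exact h2

theorem Pw_even (hh : p = 2*h+1) {m : ℕ} (hm : Even m) (hm0 : 0 < m) :
    Dv p 2 (Pw m (2*h) - 2 * 2^m * Pw m h + m * p * (2^(m-1) * Pw (m-1) h)) := by
  have h1 : ∀ n : ℕ, Pw m (2*n) = ∑ j ∈ range n, (2*(j:ℚ)+1)^m + ∑ j ∈ range n, (2*((j:ℚ)+1))^m := by
    intro n
    unfold Pw
    induction n with
    | zero => simp
    | succ n ih =>
      have e : 2*(n+1) = 2*n+1+1 := by ring
      rw [e, sum_range_succ, sum_range_succ, ih, sum_range_succ, sum_range_succ]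
      push_cast
      ring
  have h5 : ∑ j ∈ range h, (2*(j:ℚ)+1)^m = ∑ j ∈ range h, ((p:ℚ) - ((2*(j+1):ℕ):ℤ))^m := by
    rw [← sum_range_reflect]
    refine sum_congr rfl fun j hj => ?_
    rw [mem_range] at hj
    congr 1
    have h3 : 2*(h-1-j) + 1 + 2*(j+1) = p := by omega
    have h4 : ((2*(h-1-j) + 1 + 2*(j+1) : ℕ) : ℚ) = p := by rw [h3]
    push_cast at h4 ⊢
    linarith
  have h2 := Dv.sum (range h) _ fun j _ => pow_refl (p := p) hm ((2*(j+1):ℕ):ℤ)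
  have e6 : ∑ j ∈ range h, (2*((j:ℚ)+1))^m = 2^m * Pw m h := by
    unfold Pw
    rw [mul_sum]
    exact sum_congr rfl fun j _ => mul_pow _ _ _
  have e7 : ∑ j ∈ range h, (2*((j:ℚ)+1))^(m-1) = 2^(m-1) * Pw (m-1) h := by
    unfold Pw
    rw [mul_sum]
    exact sum_congr rfl fun j _ => mul_pow _ _ _
  have e : ∑ j ∈ range h, (((p:ℚ) - (((2*(j+1):ℕ):ℤ):ℚ))^m - ((((2*(j+1):ℕ):ℤ):ℚ))^m +
      m * p * ((((2*(j+1):ℕ):ℤ):ℚ))^(m-1)) =
    Pw m (2*h) - 2 * 2^m * Pw m h + m * p * (2^(m-1) * Pw (m-1) h) := by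
    rw [h1 h, h5, sum_add_distrib, sum_sub_distrib, ← mul_sum]
    push_cast
    rw [e6, e7]
    ring
  rw [e] at h2
  exact h2

/-- `2B_{p-3} + H_h^{(3)} ≡ 0` mod `p` -/
theorem X3 (h2 : p ≠ 2) (h3 : p ≠ 3) (hh : p = 2*h+1) :
    Dv p 1 (2 * bernoulli (p-3) + Hs 3 h) := by
  have hp5 := five_le (p := p) hh h3
  have hev : Even (p-3) := ⟨h-1, by omega⟩
  have a1 := Pw_half (p := p) hh hev
  have a2 := Pw_even (p := p) hh hev (by omega)
  have a3 := faulhaber (p := p) hp5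
  have hS : ∑ k ∈ range p, (k:ℚ)^(p-3) = Pw (p-3) (2*h) := by
    have e : range p = range (2*h+1) := by rw [← hh]
    rw [e, sum_range_succ']
    unfold Pw
    have e2 : (((0:ℕ):ℚ))^(p-3) = 0 := by
      rw [Nat.cast_zero, zero_pow (by omega)]
    rw [e2, add_zero]
    refine sum_congr rfl fun j _ => ?_
    push_cast
    rfl
  rw [hS] at a3
  obtain ⟨b, hb⟩ : ∃ b, b = Pw (p-3-1) h := ⟨_, rfl⟩
  rw [← hb] at a1 a2
  have hbi : Dv p 0 b := by rw [hb]; exact Pw_int _ _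
  have hai : Dv p 0 (Pw (p-3) h) := Pw_int _ _
  -- b ≡ Hs 3 h
  have hbH : Dv p 1 (b - Hs 3 h) := by
    rw [hb]
    unfold Pw Hs
    rw [← sum_sub_distrib]
    refine Dv.sum _ _ fun j hj => ?_
    rw [mem_range] at hj
    have hf := fermat (p := p) (k := j+1) (not_dvd_of_lt (by omega) (by omega))
    have hu : padicValRat p (((j:ℚ)+1)^3) = 0 := by
      rw [padicValRat.pow, unit_j (by omega), mul_zero]
    have := hf.div_unit hu
    have e : ((j:ℚ)+1)^(p-3-1) - 1/((j:ℚ)+1)^3 = ((((j+1:ℕ):ℚ))^(p-1) - 1)/((j:ℚ)+1)^3 := by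
      have e2 : (((j+1:ℕ):ℚ))^(p-1) = ((j:ℚ)+1)^(p-3-1) * ((j:ℚ)+1)^3 := by
        push_cast
        rw [← pow_add]
        congr 1
        omega
      rw [e2]
      have : ((j:ℚ)+1) ≠ 0 := by positivity
      field_simp
    rw [e]
    exact this
  -- 2^(p-1) = 1 + u
  have hf2 := fermat (p := p) (k := 2) (not_dvd_of_lt (by omega) (by omega))
  push_cast at hf2
  obtain ⟨u, hu⟩ : ∃ u : ℚ, u = 2^(p-1) - 1 := ⟨_, rfl⟩
  rw [← hu] at hf2
  have e1 : (2:ℚ)^(p-3) * 4 = 1 + u := by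
    have : (2:ℚ)^(p-1) = 2^(p-3) * 2^2 := by
      rw [← pow_add]
      congr 1
      omega
    rw [hu, this]
    ring
  have e2 : (2:ℚ)^(p-3-1) * 8 = 1 + u := by
    have : (2:ℚ)^(p-1) = 2^(p-3-1) * 2^3 := by
      rw [← pow_add]
      congr 1
      omega
    rw [hu, this]
    ring
  have hm : ((p-3:ℕ):ℚ) = p - 3 := by
    rw [Nat.cast_sub (by omega)]
    norm_num
  rw [hm] at a1 a2
  generalize Pw (p-3) (2*h) = S at *
  generalize Pw (p-3) h = a at *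
  have hp2 : Dv p 2 ((p:ℚ)^2) := Dv.p_pow 2
  -- (1)
  have b1 : Dv p 2 (S - 2*a - 3*p*b) := by
    have h4 := a1.sub (hp2.mul0 hbi)
    have e : S - 2*a + ((p:ℚ)-3)*p*b - (p:ℚ)^2*b = S - 2*a - 3*p*b := by ring
    rw [e] at h4
    exact h4
  -- (2)
  have hui : Dv p 0 u := hf2.mono (by norm_num)
  have b2 : Dv p 2 (8*S - 4*(1+u)*a - 3*p*b) := by
    have h4 := (Dv.nat (p := p) 8).mul0' a2
    have h5 : Dv p 2 ((p:ℚ)^2 * ((1+u)*b)) := hp2.mul0 ((Dv.one.add hui).mul0 hbi)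
    have h6 : Dv p 2 ((3:ℕ) * (p * u * b)) := by
      refine (Dv.nat (p := p) 3).mul0' ?_
      exact (Dv.p1.mul hf2).mul0 hbi
    have h7 := (h4.sub h5).add h6
    have e : ((8:ℕ):ℚ) * (S - 2 * 2^(p-3) * a + ((p:ℚ)-3)*p*(2^(p-3-1) * b)) - (p:ℚ)^2 * ((1+u)*b) +
      ((3:ℕ):ℚ) * (p * u * b) = 8*S - 4*(1+u)*a - 3*p*b := by
      push_cast
      linear_combination (-4*a) * e1 + ((p:ℚ)-3)*p*b * e2
    rw [e] at h7
    exact h7
  -- a ≡ 0 mod p
  have ha1 : Dv p 1 a := by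
    have h4 := (((Dv.nat (p := p) 8).mul0' b1).sub b2).mono (by norm_num : (1:ℤ) ≤ 2)
    have h5 : Dv p 1 ((p:ℚ) * (21 * b)) := Dv.p1.mul0 (by simpa using (Dv.nat (p := p) 21).mul0 hbi)
    have h6 : Dv p 1 (u * (4 * a)) := hf2.mul0 (by simpa using (Dv.nat (p := p) 4).mul0 hai)
    have h7 := (h4.add h5).sub h6
    have e : ((8:ℕ):ℚ) * (S - 2*a - 3*p*b) - (8*S - 4*(1+u)*a - 3*p*b) + (p:ℚ) * (21 * b) -
      u * (4 * a) = (-2) * (6 * a) := by
      push_cast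
      ring
    rw [e] at h7
    have hu2 : padicValRat p (-2:ℚ) = 0 := by rw [padicValRat.neg]; exact val_two h2
    exact (h7.of_unit_mul hu2 (by norm_num)).of_unit_mul (unit_six h2 h3) (by norm_num)
  have b3 : Dv p 2 (8*S - 4*a - 3*p*b) := by
    have h6 : Dv p 2 (u * a) := hf2.mul ha1
    have h7 := b2.add ((Dv.nat (p := p) 4).mul0' h6)
    have e : 8*S - 4*(1+u)*a - 3*p*b + ((4:ℕ):ℚ) * (u * a) = 8*S - 4*a - 3*p*b := by
      push_cast
      ring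
    rw [e] at h7
    exact h7
  have b4 : Dv p 2 (2*S + p*b) := by
    have h7 := b3.sub ((Dv.nat (p := p) 2).mul0' b1)
    have e : 8*S - 4*a - 3*p*b - ((2:ℕ):ℚ) * (S - 2*a - 3*p*b) = 3 * (2*S + p*b) := by
      push_cast
      ring
    rw [e] at h7
    exact h7.of_unit_mul (unit_three h3) (by norm_num)
  have b5 : Dv p (1 + (1:ℕ)) ((p:ℚ)^1 * (2 * bernoulli (p-3) + b)) := by
    have h7 := b4.sub ((Dv.nat (p := p) 2).mul0' a3)
    have e : 2*S + p*b - ((2:ℕ):ℚ) * (S - p * bernoulli (p-3)) =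
      (p:ℚ)^1 * (2 * bernoulli (p-3) + b) := by
      push_cast
      ring
    rw [e] at h7
    exact h7.mono (by norm_num)
  have b6 := (Dv.of_p_mul b5).sub hbH
  have e : 2 * bernoulli (p-3) + b - (b - Hs 3 h) = 2 * bernoulli (p-3) + Hs 3 h := by ring
  rw [e] at b6
  exact b6

/-- the combination of the three relations -/
theorem combo (h2 : p ≠ 2) (h3 : p ≠ 3) (hh : p = 2*h+1) :
    Dv p 4 (-(p^2/4) * Hs 2 h + (p^3/2) * DD h - (7/6) * p^3 * bernoulli (p-3)) := by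
  have x1 := X1 (p := p) h2 hh
  have x2 := X2 (p := p) h2 h3 hh
  have x3 := X3 (p := p) h2 h3 hh
  have y1 : Dv p 4 ((p:ℚ)^2 * (6 * Hs 2 h + 7 * p * Hs 3 h)) :=
    ((Dv.p_pow (p := p) 2).mul x1).mono (by norm_num)
  have y2 : Dv p 4 ((p:ℚ)^3 * (4 * DD h + 7 * Hs 3 h)) :=
    ((Dv.p_pow (p := p) 3).mul x2).mono (by norm_num)
  have y3 : Dv p 4 ((p:ℚ)^3 * (2 * bernoulli (p-3) + Hs 3 h)) :=
    ((Dv.p_pow (p := p) 3).mul x3).mono (by norm_num)
  have h4 := (((Dv.nat (p := p) 3).mul0' y2).sub y1).sub ((Dv.nat (p := p) 14).mul0' y3)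
  have e : ((3:ℕ):ℚ) * ((p:ℚ)^3 * (4 * DD h + 7 * Hs 3 h)) - (p:ℚ)^2 * (6 * Hs 2 h + 7 * p * Hs 3 h) -
    ((14:ℕ):ℚ) * ((p:ℚ)^3 * (2 * bernoulli (p-3) + Hs 3 h)) =
    2 * (2 * (6 * (-(p^2/4) * Hs 2 h + (p^3/2) * DD h - (7/6) * p^3 * bernoulli (p-3)))) := by
    push_cast
    ring
  rw [e] at h4
  exact ((h4.of_unit_mul (val_two h2) (by norm_num)).of_unit_mul (val_two h2) (by norm_num)).of_unit_mul
    (unit_six h2 h3) (by norm_num)

theorem A_final (h2 : p ≠ 2) (h3 : p ≠ 3) {s M : ℕ} (hM : p^(s+1) = 2*M+1) (hh : p = 2*h+1) :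
    Dv p 4 (A M / (2*(M:ℚ)+1) - (1 + (7/6) * p^3 * bernoulli (p-3))) := by
  have h4 := (A_main h2 hM hh).add (combo (p := p) h2 h3 hh)
  have e : A M / (2*(M:ℚ)+1) - (1 - (p^2/4) * Hs 2 h + (p^3/2) * DD h) +
    (-(p^2/4) * Hs 2 h + (p^3/2) * DD h - (7/6) * p^3 * bernoulli (p-3)) =
    A M / (2*(M:ℚ)+1) - (1 + (7/6) * p^3 * bernoulli (p-3)) := by ring
  rw [e] at h4
  exact h4

end

end Pool.Agent.N926.Sup2
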