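import Mathlib

set_option autoImplicit false

namespace Pool.Agent.N926.Sup2

open Finset

/-- `t n = (1/2)_n / n! = binom(2n,n) / 4^n` -/
def t (n : ℕ) : ℚ := (Nat.centralBinom n : ℚ) / 4^n

theorem t_zero : t 0 = 1 := by simp [t]

theorem t_succ (n : ℕ) : t (n+1) = t n * ((2*n+1) / (2*n+2)) := by
  unfold t
  have h := Nat.succ_mul_centralBinom_succ n
  have h2 : ((n:ℚ)+1) * (Nat.centralBinom (n+1) : ℚ) = 2*(2*n+1) * (Nat.centralBinom n : ℚ) := by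
    exact_mod_cast h
  have h3 : (n:ℚ)+1 ≠ 0 := by positivity
  have h4 : (Nat.centralBinom (n+1) : ℚ) = 2*(2*n+1) * (Nat.centralBinom n : ℚ) / (n+1) := by
    field_simp
    linarith
  rw [h4, pow_succ]
  have h5 : (2*(n:ℚ)+2) ≠ 0 := by positivity
  field_simp
  ring

theorem t_ne (n : ℕ) : t n ≠ 0 := by
  unfold t
  have := Nat.centralBinom_pos n
  positivity

theorem t_pos (n : ℕ) : 0 < t n := by
  unfold t
  have := Nat.centralBinom_pos n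
  positivity

/-- `V M = ∑_{i=0}^M t_{M-i} t_{M+1+i} / (2i+1)` -/
def V (M : ℕ) : ℚ := ∑ i ∈ range (M+1), t (M-i) * t (M+1+i) / (2*i+1)

/-- `A M = ∑_{k=0}^M (4k+1) t_k^4` -/
def A (M : ℕ) : ℚ := ∑ k ∈ range (M+1), (4*(k:ℚ)+1) * t k ^ 4

theorem V_rec (m : ℕ) : (2*(m:ℚ)+3)^2 * V (m+1) - 4*((m:ℚ)+1)^2 * V m
    = (4*m+5) * t (m+1)^2 / 2 := by
  have key : ∀ i ∈ range (m+1),
      (2*(m:ℚ)+3)^2 * (t (m+1-i) * t (m+1+1+i) / (2*i+1)) - 4*((m:ℚ)+1)^2 *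
        (t (m-i) * t (m+1+i) / (2*i+1)) =
      -((4*m+5)/2) * (t (m+1-(i+1)) * t (m+1+(i+1)) - t (m+1-i) * t (m+1+i)) := by
    intro i hi
    rw [mem_range] at hi
    obtain ⟨s, hs⟩ : ∃ s, m = i + s := ⟨m-i, by omega⟩
    subst hs
    have e1 : i + s + 1 - i = s + 1 := by omega
    have e2 : i + s + 1 - (i+1) = s := by omega
    have e3 : i + s - i = s := by omega
    have e4 : i + s + 1 + 1 + i = (i + s + 1 + i) + 1 := by ring
    have e5 : i + s + 1 + (i + 1) = (i + s + 1 + i) + 1 := by ring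
    rw [e1, e2, e3, e4, e5, t_succ s, t_succ (i+s+1+i)]
    push_cast
    have h1 : (2*(i:ℚ)+1) ≠ 0 := by positivity
    have h2 : (2*(s:ℚ)+2) ≠ 0 := by positivity
    have h3 : (2*((i:ℚ)+s+1+i)+2) ≠ 0 := by positivity
    field_simp
    ring
  have h1 : (2*(m:ℚ)+3)^2 * V (m+1) - 4*((m:ℚ)+1)^2 * V m =
      ∑ i ∈ range (m+1), ((2*(m:ℚ)+3)^2 * (t (m+1-i) * t (m+1+1+i) / (2*i+1)) - 4*((m:ℚ)+1)^2 *
        (t (m-i) * t (m+1+i) / (2*i+1))) +
      (2*(m:ℚ)+3)^2 * (t (m+1-(m+1)) * t (m+1+1+(m+1)) / (2*(m+1:ℕ)+1)) := by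
    unfold V
    rw [sum_range_succ (fun i => t (m+1-i) * t (m+1+1+i) / (2*(i:ℚ)+1)) (m+1), mul_add, mul_sum,
      mul_sum, sum_sub_distrib]
    ring
  rw [h1, sum_congr rfl key, ← mul_sum, sum_range_sub (fun i => t (m+1-i) * t (m+1+i)) (m+1)]
  have e1 : m + 1 - (m+1) = 0 := by omega
  have e2 : m + 1 + 1 + (m+1) = (m + 1 + (m+1)) + 1 := by ring
  have e3 : m + 1 - 0 = m + 1 := by omega
  rw [e1, e2, e3, t_succ (m+1+(m+1)), t_zero]
  push_cast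
  have h2 : (2*((m:ℚ)+1)+1) ≠ 0 := by positivity
  have h3 : (2*((m:ℚ)+1+(m+1))+2) ≠ 0 := by positivity
  have e4 : m + 1 + 0 = m + 1 := rfl
  field_simp
  ring

theorem A_eq (M : ℕ) : A M = 2 * (2*(M:ℚ)+1)^2 * t M ^ 2 * V M := by
  induction M with
  | zero =>
    unfold A V
    simp [t_zero, t_succ]
  | succ m ih =>
    have h1 : A (m+1) = A m + (4*((m+1:ℕ):ℚ)+1) * t (m+1)^4 := by
      unfold A
      rw [sum_range_succ]
    have h2 := V_rec m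
    have h3 : (2*(m:ℚ)+1) * t m = (2*m+2) * t (m+1) := by
      rw [t_succ]
      have : (2*(m:ℚ)+2) ≠ 0 := by positivity
      field_simp
    have h4 : 2 * (2*(m:ℚ)+1)^2 * t m ^ 2 * V m = 2 * ((2*(m:ℚ)+1) * t m)^2 * V m := by ring
    rw [h1, ih, h4, h3]
    have h5 : (2*(m:ℚ)+3)^2 * V (m+1) = 4*((m:ℚ)+1)^2 * V m + (4*m+5) * t (m+1)^2 / 2 := by
      linarith
    have h6 : 2 * (2*((m+1:ℕ):ℚ)+1)^2 * t (m+1) ^ 2 * V (m+1) =
        2 * t (m+1)^2 * ((2*(m:ℚ)+3)^2 * V (m+1)) := by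
      push_cast
      ring
    rw [h6, h5]
    push_cast
    ring

/-! ### product formulas, `P = 2M+1` -/

/-- `t_M = (-1)^M ∏_{j=1}^M (1 - P/(2j))` -/
theorem t_half (M : ℕ) : t M = (-1)^M * ∏ j ∈ range M, (1 - (2*(M:ℚ)+1)/(2*((j:ℚ)+1))) := by
  have h0 : ∀ n : ℕ, t n = ∏ j ∈ range n, ((2*(j:ℚ)+1)/(2*((j:ℚ)+1))) := by
    intro n
    induction n with
    | zero => simp [t_zero]
    | succ n ih =>
      rw [prod_range_succ, ← ih, t_succ]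
      congr 2
      ring
  have h1 : ∏ j ∈ range M, (2*(j:ℚ)+1) = ∏ j ∈ range M, ((2*(M:ℚ)+1) - 2*((j:ℚ)+1)) := by
    rw [← prod_range_reflect]
    refine prod_congr rfl fun j hj => ?_
    rw [mem_range] at hj
    have : ((M-1-j:ℕ):ℚ) = M - 1 - j := by
      rw [Nat.sub_sub, Nat.cast_sub (by omega)]
      push_cast
      ring
    rw [this]
    ring
  rw [h0, prod_div_distrib, h1, ← prod_div_distrib]
  have h2 : (-1:ℚ)^M = ∏ _j ∈ range M, (-1:ℚ) := by simp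
  rw [h2, ← prod_mul_distrib]
  refine prod_congr rfl fun j _ => ?_
  have : (2*((j:ℚ)+1)) ≠ 0 := by positivity
  field_simp
  ring

end Pool.Agent.N926.Sup2
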