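import Pool.Agent.N926.Sup2.A

set_option autoImplicit false

namespace Pool.Agent.N926.Sup2

open Finset

/-- weights -/
def w (M i : ℕ) : ℚ :=
  (-1)^i * (2*M+1) / (2*i+1) * ((2*M+1).choose (M-i) : ℕ) * (t M / 4^M)

/-- the factors `ρ_i = ∏_{l≤i} (2l+P)/(2l-P)` up to sign -/
def rho (M i : ℕ) : ℚ :=
  ∏ l ∈ range i, ((1 + (2*(M:ℚ)+1)/(2*((l:ℚ)+1))) / (1 - (2*(M:ℚ)+1)/(2*((l:ℚ)+1))))

theorem odd_ne (a b : ℕ) : 2*((b:ℚ)+1) - (2*(a:ℚ)+1) ≠ 0 := by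
  intro h
  have h2 : 2*((b:ℚ)+1) = (2*(a:ℚ)+1) := by linarith
  have h3 : 2*(b+1) = 2*a+1 := by exact_mod_cast h2
  omega

theorem choose_rel (s i : ℕ) :
    ((2*(i+s+1)+1).choose s : ℚ) * (2*(i:ℚ)+s+3) = ((2*(i+s+1)+1).choose (s+1) : ℚ) * (s+1) := by
  have h := Nat.choose_succ_right_eq (2*(i+s+1)+1) s
  have e : 2*(i+s+1)+1 - s = 2*i+s+3 := by omega
  rw [e] at h
  have h2 : (((2*(i+s+1)+1).choose (s+1) * (s+1) : ℕ) : ℚ) =
    (((2*(i+s+1)+1).choose s * (2*i+s+3) : ℕ) : ℚ) := by rw [h]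
  push_cast at h2
  linarith

theorem tt_eq (M i : ℕ) (h : i ≤ M) : 2 * (t (M-i) * t (M+1+i)) =
    (-1)^i * ((2*M+1).choose (M-i) : ℕ) * (t M / 4^M) * rho M i := by
  induction i with
  | zero =>
    unfold rho
    simp only [Nat.sub_zero, add_zero, pow_zero, range_zero, prod_empty, mul_one, one_mul]
    have h1 : t (M+1) = ((2*M+1).choose M : ℕ) * 2 / 4^(M+1) := by
      unfold t
      congr 1
      have h3 : Nat.centralBinom (M+1) = 2 * (2*M+1).choose M := by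
        unfold Nat.centralBinom
        have e : 2*(M+1) = 2*M+1+1 := by ring
        rw [e, Nat.choose_succ_succ, Nat.choose_symm_half]
        ring
      rw [h3]
      push_cast
      ring
    rw [h1, pow_succ]
    field_simp
    ring
  | succ i ih =>
    obtain ⟨s, hs⟩ : ∃ s, M = i + s + 1 := ⟨M-i-1, by omega⟩
    subst hs
    have ih' := ih (by omega)
    have e1 : i + s + 1 - i = s + 1 := by omega
    have e2 : i + s + 1 - (i+1) = s := by omega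
    have e3 : i + s + 1 + 1 + (i+1) = (i+s+1+1+i) + 1 := by ring
    rw [e1] at ih'
    rw [e2, e3, t_succ (i+s+1+1+i)]
    rw [t_succ s] at ih'
    have h4 : rho (i+s+1) (i+1) = rho (i+s+1) i * ((1 + (2*((i+s+1:ℕ):ℚ)+1)/(2*((i:ℚ)+1))) /
        (1 - (2*((i+s+1:ℕ):ℚ)+1)/(2*((i:ℚ)+1)))) := by
      unfold rho
      rw [prod_range_succ]
    rw [h4]
    have hc := choose_rel s i
    have p1 : (2*(s:ℚ)+1) ≠ 0 := by positivity
    have p2 : (2*(s:ℚ)+2) ≠ 0 := by positivity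
    have p3 : (2*((i+s+1+1+i:ℕ):ℚ)+2) ≠ 0 := by positivity
    have p4 : (2*(i:ℚ)+s+3) ≠ 0 := by positivity
    have p5 : (2*((i:ℚ)+1)) ≠ 0 := by positivity
    have hs1 : ((s:ℚ)+1) ≠ 0 := by positivity
    have hc2 : ((2*(i+s+1)+1).choose s : ℚ) = ((2*(i+s+1)+1).choose (s+1) : ℚ) * (s+1) /
      (2*(i:ℚ)+s+3) := by
      field_simp
      exact hc
    rw [hc2]
    have hq : 2 * (t s * (t (i+s+1+1+i) * ((2*((i+s+1+1+i:ℕ):ℚ)+1) / (2*((i+s+1+1+i:ℕ):ℚ)+2)))) =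
      (2 * (t s * ((2*(s:ℚ)+1)/(2*s+2)) * t (i+s+1+1+i))) * ((2*s+2)/(2*s+1)) *
        ((2*((i+s+1+1+i:ℕ):ℚ)+1) / (2*((i+s+1+1+i:ℕ):ℚ)+2)) := by
      field_simp
    rw [hq, ih']
    have p6 : 1 - (2*((i+s+1:ℕ):ℚ)+1)/(2*((i:ℚ)+1)) = -(2*s+1)/(2*((i:ℚ)+1)) := by
      push_cast
      field_simp
      ring
    have p7 : 1 + (2*((i+s+1:ℕ):ℚ)+1)/(2*((i:ℚ)+1)) = (2*((i+s+1+1+i:ℕ):ℚ)+1)/(2*((i:ℚ)+1)) := by
      push_cast
      field_simp
      ring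
    rw [p6, p7, pow_succ (-1:ℚ) i]
    generalize rho (i+s+1) i = a
    generalize (t (i+s+1) / 4^(i+s+1)) = b
    generalize ((2*(i+s+1)+1).choose (s+1) : ℚ) = c
    generalize (-1:ℚ)^i = d
    have p8 : (2*((i+s+1+1+i:ℕ):ℚ)+2) = 2*(2*(i:ℚ)+s+3) := by push_cast; ring
    rw [p8]
    have p9 : -(2*(s:ℚ)+1) ≠ 0 := by
      intro h
      apply p1
      linarith
    field_simp

theorem u_eq (M i : ℕ) (h : i ≤ M) : 2 * (2*(M:ℚ)+1) * (t (M-i) * t (M+1+i) / (2*i+1)) =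
    w M i * rho M i := by
  have h1 := tt_eq M i h
  have h2 : 2 * (2*(M:ℚ)+1) * (t (M-i) * t (M+1+i) / (2*i+1)) =
    (2 * (t (M-i) * t (M+1+i))) * ((2*(M:ℚ)+1)/(2*i+1)) := by ring
  rw [h2, h1]
  unfold w
  ring

theorem A_eq2 (M : ℕ) : A M = (2*(M:ℚ)+1) * t M ^ 2 * ∑ i ∈ range (M+1), w M i * rho M i := by
  rw [A_eq]
  have h1 : ∑ i ∈ range (M+1), w M i * rho M i = 2 * (2*(M:ℚ)+1) * V M := by
    unfold V
    rw [mul_sum]
    refine sum_congr rfl fun i hi => ?_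
    rw [mem_range] at hi
    exact (u_eq M i (by omega)).symm
  rw [h1]
  ring

/-! ### `∑ w = 1` -/

/-- `σ_M = ∑_{i=0}^M (-1)^i binom(2M+1,M-i)/(2i+1)` -/
def sg (M : ℕ) : ℚ := ∑ i ∈ range (M+1), (-1)^i * ((2*M+1).choose (M-i) : ℕ) / (2*(i:ℚ)+1)

/-- auxiliary: `(-1)^i binom(2M+1, M+1-i)` or zero -/
def ff (M i : ℕ) : ℚ := if i ≤ M+1 then (-1)^i * ((2*M+1).choose (M+1-i) : ℕ) else 0

theorem sg_rec (M : ℕ) : (2*(M:ℚ)+3) * sg (M+1) = 8*((M:ℚ)+1) * sg M := by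
  have key : ∀ i ∈ range (M+1),
      (2*(M:ℚ)+3) * ((-1)^i * ((2*(M+1)+1).choose (M+1-i) : ℕ) / (2*(i:ℚ)+1)) -
       8*((M:ℚ)+1) * ((-1)^i * ((2*M+1).choose (M-i) : ℕ) / (2*(i:ℚ)+1)) = ff M i - ff M (i+2) := by
    intro i hi
    rw [mem_range] at hi
    obtain ⟨s, hs⟩ : ∃ s, M = i + s := ⟨M-i, by omega⟩
    subst hs
    have e1 : i + s + 1 - i = s + 1 := by omega
    have e2 : i + s - i = s := by omega
    rw [e1, e2]
    have h1 : ((2*(i+s+1)+1).choose (s+1) : ℚ) =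
      ((2*(i+s)+1).choose s : ℚ) * ((2*(i+s)+3)*(2*(i+s)+2)) / ((s+1)*(2*i+s+2)) := by
      have a1 := Nat.add_one_mul_choose_eq (2*(i+s)+1) s
      have a4 := Nat.choose_mul_succ_eq (2*(i+s)+2) (s+1)
      have a5 : 2*(i+s)+2+1-(s+1) = 2*i+s+2 := by omega
      rw [a5] at a4
      have a6 : (2*(i+s+1)+1) = 2*(i+s)+2+1 := by ring
      rw [a6]
      have b1 : (((2*(i+s)+1+1) * (2*(i+s)+1).choose s : ℕ) : ℚ) =
        (((2*(i+s)+1+1).choose (s+1) * (s+1) : ℕ) : ℚ) := by rw [a1]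
      have b4 : (((2*(i+s)+2).choose (s+1) * (2*(i+s)+2+1) : ℕ) : ℚ) =
        (((2*(i+s)+2+1).choose (s+1) * (2*i+s+2) : ℕ) : ℚ) := by rw [a4]
      have c1 : (2*(i+s)+1+1) = 2*(i+s)+2 := rfl
      rw [c1] at b1
      push_cast at b1 b4
      have p1 : ((s:ℚ)+1) ≠ 0 := by positivity
      have p2 : (2*(i:ℚ)+s+2) ≠ 0 := by positivity
      rw [eq_div_iff (mul_ne_zero p1 p2)]
      linear_combination (-(s:ℚ)-1) * b4 - (2*((i:ℚ)+s)+3) * b1
    have hff1 : ff (i+s) i = (-1)^i * (((2*(i+s)+1).choose s : ℚ) * (2*i+s+1)/(s+1)) := by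
      unfold ff
      rw [if_pos (by omega), e1]
      congr 1
      have a1 := Nat.choose_succ_right_eq (2*(i+s)+1) s
      have e : 2*(i+s)+1 - s = 2*i+s+1 := by omega
      rw [e] at a1
      have b1 : (((2*(i+s)+1).choose (s+1) * (s+1) : ℕ) : ℚ) =
        (((2*(i+s)+1).choose s * (2*i+s+1) : ℕ) : ℚ) := by rw [a1]
      push_cast at b1
      have p1 : ((s:ℚ)+1) ≠ 0 := by positivity
      rw [eq_div_iff p1]
      exact b1
    have hff2 : ff (i+s) (i+2) = (-1)^i * (((2*(i+s)+1).choose s : ℚ) * s/(2*i+s+2)) := by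
      unfold ff
      by_cases h0 : s = 0
      · subst h0
        rw [if_neg (by omega)]
        simp
      · obtain ⟨v, hv⟩ : ∃ v, s = v + 1 := ⟨s-1, by omega⟩
        subst hv
        rw [if_pos (by omega)]
        have e : i + (v+1) + 1 - (i+2) = v := by omega
        rw [e, pow_add]
        have a1 := Nat.choose_succ_right_eq (2*(i+(v+1))+1) v
        have e : 2*(i+(v+1))+1 - v = 2*i+v+3 := by omega
        rw [e] at a1
        have b1 : (((2*(i+(v+1))+1).choose (v+1) * (v+1) : ℕ) : ℚ) =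
          (((2*(i+(v+1))+1).choose v * (2*i+v+3) : ℕ) : ℚ) := by rw [a1]
        push_cast at b1 ⊢
        have p1 : (2*(i:ℚ)+(v+1)+2) ≠ 0 := by positivity
        rw [b1]
        have : (2*(i:ℚ)+v+3) = (2*(i:ℚ)+(v+1)+2) := by ring
        rw [this]
        field_simp
    rw [h1, hff1, hff2]
    generalize ((2*(i+s)+1).choose s : ℚ) = c
    generalize (-1:ℚ)^i = d
    push_cast
    have p1 : ((s:ℚ)+1) ≠ 0 := by positivity
    have p2 : (2*(i:ℚ)+s+2) ≠ 0 := by positivity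
    have p3 : (2*(i:ℚ)+1) ≠ 0 := by positivity
    field_simp
    ring
  have h1 : (2*(M:ℚ)+3) * sg (M+1) - 8*((M:ℚ)+1) * sg M =
      ∑ i ∈ range (M+1), ((2*(M:ℚ)+3) * ((-1)^i * ((2*(M+1)+1).choose (M+1-i) : ℕ) / (2*(i:ℚ)+1)) -
       8*((M:ℚ)+1) * ((-1)^i * ((2*M+1).choose (M-i) : ℕ) / (2*(i:ℚ)+1))) +
      (2*(M:ℚ)+3) * ((-1)^(M+1) * ((2*(M+1)+1).choose (M+1-(M+1)) : ℕ) / (2*((M+1:ℕ):ℚ)+1)) := by
    unfold sg
    rw [sum_range_succ (fun i => (-1:ℚ)^i * ((2*(M+1)+1).choose (M+1-i) : ℕ) / (2*(i:ℚ)+1)) (M+1),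
      mul_add, mul_sum, mul_sum, sum_sub_distrib]
    ring
  have h2 : ∑ i ∈ range (M+1), (ff M i - ff M (i+2)) = ff M 0 + ff M 1 - ff M (M+1) - ff M (M+2) := by
    have : ∀ n : ℕ, ∑ i ∈ range n, (ff M i - ff M (i+2)) = ff M 0 + ff M 1 - ff M n - ff M (n+1) := by
      intro n
      induction n with
      | zero => simp
      | succ n ih =>
        rw [sum_range_succ, ih]
        ring
    exact this (M+1)
  have h3 : ff M 0 + ff M 1 = 0 := by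
    unfold ff
    rw [if_pos (by omega), if_pos (by omega)]
    simp only [Nat.sub_zero, pow_zero, pow_one, one_mul, Nat.add_sub_cancel]
    rw [Nat.choose_symm_half]
    ring
  have h4 : ff M (M+1) = (-1)^(M+1) := by
    unfold ff
    rw [if_pos le_rfl]
    simp
  have h5 : ff M (M+2) = 0 := by
    unfold ff
    rw [if_neg (by omega)]
  rw [sum_congr rfl key, h2, h3, h4, h5] at h1
  have h6 : (2*((M+1:ℕ):ℚ)+1) = 2*(M:ℚ)+3 := by push_cast; ring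
  have p1 : (2*(M:ℚ)+3) ≠ 0 := by positivity
  rw [h6] at h1
  simp only [Nat.sub_self, Nat.choose_zero_right, Nat.cast_one, mul_one] at h1
  have h7 : (2*(M:ℚ)+3) * ((-1)^(M+1)/(2*(M:ℚ)+3)) = (-1)^(M+1) := by
    field_simp
  rw [h7] at h1
  linarith

theorem sg_eq (M : ℕ) : (2*(M:ℚ)+1) * sg M * (t M / 4^M) = 1 := by
  induction M with
  | zero => simp [sg, t_zero]
  | succ M ih =>
    have h1 := sg_rec M
    have h2 : (2*((M+1:ℕ):ℚ)+1) * sg (M+1) = 8*((M:ℚ)+1) * sg M := by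
      rw [← h1]
      push_cast
      ring
    rw [h2, t_succ, pow_succ]
    have p1 : (2*(M:ℚ)+2) ≠ 0 := by positivity
    have h3 : 8 * ((M:ℚ)+1) * sg M * (t M * ((2*(M:ℚ)+1)/(2*M+2)) / (4^M*4)) =
      (2*(M:ℚ)+1) * sg M * (t M / 4^M) := by
      field_simp
      ring
    rw [h3, ih]

theorem sum_w (M : ℕ) : ∑ i ∈ range (M+1), w M i = 1 := by
  rw [← sg_eq M]
  unfold sg w
  rw [mul_sum, sum_mul]
  refine sum_congr rfl fun i _ => ?_
  ring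

end Pool.Agent.N926.Sup2
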