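import Pool.Agent.N926.Sup.B

set_option autoImplicit false
set_option linter.unusedSectionVars false
set_option linter.unusedVariables false

namespace Pool.Agent.N926.Sup

open Finset

section
variable {p : ℕ} [hp : Fact p.Prime]

theorem Dv.nat (z : ℕ) : Dv p 0 (z:ℚ) := by
  have := Dv.int (p := p) (z:ℤ)
  simpa using this

theorem Dv.one : Dv p 0 (1:ℚ) := by simpa using Dv.nat (p := p) 1

theorem Dv.mul0 {n : ℤ} {x y : ℚ} (hx : Dv p n x) (hy : Dv p 0 y) : Dv p n (x * y) := by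
  simpa using hx.mul hy

theorem Dv.mul0' {n : ℤ} {x y : ℚ} (hx : Dv p 0 x) (hy : Dv p n y) : Dv p n (x * y) := by
  simpa using hx.mul hy

theorem Dv.p_pow (n : ℕ) : Dv p n ((p:ℚ)^n) := by
  right
  rw [padicValRat.pow, padicValRat.self hp.out.one_lt, mul_one]

theorem Dv.p1 : Dv p 1 (p:ℚ) := by simpa using Dv.p_pow (p := p) 1

/-- dividing by `p^n` -/
theorem Dv.of_p_mul {m : ℤ} {n : ℕ} {x : ℚ} (h : Dv p (m + n) ((p:ℚ)^n * x)) : Dv p m x := by
  by_cases hx : x = 0
  · exact Or.inl hx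
  right
  have hpp : (p:ℚ)^n ≠ 0 := pow_ne_zero _ (by exact_mod_cast hp.out.ne_zero)
  rcases h with h | h
  · exact absurd (mul_eq_zero.1 h) (by tauto)
  · rw [padicValRat.mul hpp hx, padicValRat.pow, padicValRat.self hp.out.one_lt, mul_one] at h
    linarith

/-- `x` is a unit times something -/
theorem Dv.div_unit {n : ℤ} {x y : ℚ} (hx : Dv p n x) (hy : padicValRat p y = 0) :
    Dv p n (x / y) := by
  rcases hx with hx | hx
  · left; rw [hx, zero_div]
  by_cases h1 : x = 0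
  · left; rw [h1, zero_div]
  by_cases h2 : y = 0
  · left; rw [h2, div_zero]
  right
  rw [padicValRat.div h1 h2, hy, sub_zero]
  exact hx

theorem unit_nat {n : ℕ} (h : ¬ p ∣ n) : padicValRat p (n:ℚ) = 0 := by
  rw [padicValRat.of_nat, padicValNat.eq_zero_of_not_dvd h]
  rfl

theorem unit_int {n : ℤ} (h : ¬ (p:ℤ) ∣ n) : padicValRat p (n:ℚ) = 0 := by
  rw [padicValRat.of_int, padicValInt.eq_zero_of_not_dvd h]
  rfl

/-- cancel a unit factor -/
theorem Dv.of_unit_mul {n : ℤ} {x y : ℚ} (hy : padicValRat p y = 0) (hy0 : y ≠ 0)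
    (h : Dv p n (y * x)) : Dv p n x := by
  have := h.div_unit hy
  have e : y * x / y = x := by field_simp
  rwa [e] at this

theorem unit_sub {x : ℚ} (hx : Dv p 1 x) : 1 - x ≠ 0 ∧ padicValRat p (1 - x) = 0 := by
  by_cases h0 : x = 0
  · subst h0
    simp
  rcases hx with hx | hx
  · exact absurd hx h0
  have h1 : (1:ℚ) - x ≠ 0 := by
    intro h
    have : x = 1 := by linarith
    rw [this, padicValRat.one] at hx
    omega
  refine ⟨h1, ?_⟩
  have h2 : (1:ℚ) + (-x) ≠ 0 := by rwa [← sub_eq_add_neg]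
  have h3 := padicValRat.add_eq_of_lt (p := p) h2 (by norm_num) (neg_ne_zero.2 h0)
    (by rw [padicValRat.one, padicValRat.neg]; omega)
  rw [sub_eq_add_neg, h3, padicValRat.one]

theorem unit_of_cong {x y : ℚ} (hx : Dv p 1 (x - y)) (hy0 : y ≠ 0) (hy : padicValRat p y = 0) :
    x ≠ 0 ∧ padicValRat p x = 0 := by
  have h1 : Dv p 1 ((y - x)/y) := by
    have : Dv p 1 (y - x) := by
      have := hx.neg
      have e : -(x - y) = y - x := by ring
      rwa [e] at this
    exact this.div_unit hy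
  have h2 := unit_sub h1
  have e : 1 - (y-x)/y = x / y := by field_simp; ring
  rw [e] at h2
  have hx0 : x ≠ 0 := by
    intro h
    apply h2.1
    rw [h, zero_div]
  refine ⟨hx0, ?_⟩
  have h3 := h2.2
  rw [padicValRat.div hx0 hy0, hy] at h3
  linarith

theorem Dv.div_sub {n : ℤ} {x y : ℚ} (hy : Dv p n y) (hx : Dv p 1 x) : Dv p n (y / (1 - x)) :=
  hy.div_unit (unit_sub hx).2

/-- `∏ (1 + f) ≡ 1` -/
theorem Dv.prod1 {ι : Type*} {n : ℤ} (hn : 0 ≤ n) (s : Finset ι) (f : ι → ℚ)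
    (h : ∀ i ∈ s, Dv p n (f i)) : Dv p n (∏ i ∈ s, (1 + f i) - 1) := by
  classical
  induction s using Finset.induction_on with
  | empty => exact Or.inl (by simp)
  | insert a s ha ih =>
    rw [prod_insert ha]
    have h1 := ih fun i hi => h i (mem_insert_of_mem hi)
    have h2 := h a (mem_insert_self a s)
    have h3 : Dv p 0 (1 + f a) := Dv.one.add (h2.mono hn)
    have h4 := (h3.mul0' h1).add h2
    have e : (1 + f a) * ∏ i ∈ s, (1 + f i) - 1 = (1 + f a) * (∏ i ∈ s, (1 + f i) - 1) + f a := by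
      ring
    rw [e]
    exact h4

/-- `∏ (1 + f) ≡ 1 + ∑ f` to twice the precision -/
theorem Dv.prod2 {ι : Type*} {n : ℤ} (hn : 0 ≤ n) (s : Finset ι) (f : ι → ℚ)
    (h : ∀ i ∈ s, Dv p n (f i)) : Dv p (2*n) (∏ i ∈ s, (1 + f i) - 1 - ∑ i ∈ s, f i) := by
  classical
  induction s using Finset.induction_on with
  | empty => exact Or.inl (by simp)
  | insert a s ha ih =>
    rw [prod_insert ha, sum_insert ha]
    have h1 := ih fun i hi => h i (mem_insert_of_mem hi)
    have h2 := h a (mem_insert_self a s)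
    have h5 : Dv p n (∏ i ∈ s, (1 + f i) - 1) := Dv.prod1 hn s f fun i hi => h i (mem_insert_of_mem hi)
    have h4 := h1.add ((h2.mul h5).mono (by linarith : 2*n ≤ n + n))
    have e : (1 + f a) * ∏ i ∈ s, (1 + f i) - 1 - (f a + ∑ i ∈ s, f i) =
      (∏ i ∈ s, (1 + f i) - 1 - ∑ i ∈ s, f i) + f a * (∏ i ∈ s, (1 + f i) - 1) := by
      ring
    rw [e]
    exact h4

/-- only the multiples of `q` matter -/
theorem Dv.split {n : ℤ} (q : ℕ) (f : ℕ → ℚ) (N : ℕ)
    (h : ∀ l < N, ¬ q ∣ l + 1 → Dv p n (f (l+1))) :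
    Dv p n (∑ l ∈ range N, f (l+1) - ∑ l ∈ range (N/q), f (q*(l+1))) := by
  induction N with
  | zero => exact Or.inl (by simp)
  | succ N ih =>
    have ih' := ih fun l hl => h l (by omega)
    rw [sum_range_succ, Nat.succ_div]
    by_cases hq : q ∣ N + 1
    · rw [if_pos hq, sum_range_succ]
      have e1 : q * (N/q + 1) = N + 1 := by
        have := @Nat.succ_div N q
        rw [if_pos hq] at this
        rw [← this]
        exact Nat.mul_div_cancel' hq
      rw [e1]
      have e : ∑ l ∈ range N, f (l+1) + f (N+1) - (∑ l ∈ range (N/q), f (q*(l+1)) + f (N+1)) =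
        ∑ l ∈ range N, f (l+1) - ∑ l ∈ range (N/q), f (q*(l+1)) := by ring
      rw [e]
      exact ih'
    · rw [if_neg hq, add_zero]
      have e : ∑ l ∈ range N, f (l+1) + f (N+1) - ∑ l ∈ range (N/q), f (q*(l+1)) =
        (∑ l ∈ range N, f (l+1) - ∑ l ∈ range (N/q), f (q*(l+1))) + f (N+1) := by ring
      rw [e]
      exact ih'.add (h N (by omega) hq)

/-- valuation of `P/l`, `P = p^(s+1)`, `0 < l < P` -/
theorem Dv.Pl1 {s l : ℕ} (h0 : 0 < l) (h : l < p^(s+1)) : Dv p 1 ((p:ℚ)^(s+1) / l) := by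
  right
  have hpp : (p:ℚ)^(s+1) ≠ 0 := pow_ne_zero _ (by exact_mod_cast hp.out.ne_zero)
  have hl : (l:ℚ) ≠ 0 := by positivity
  rw [padicValRat.div hpp hl, padicValRat.pow, padicValRat.self hp.out.one_lt, padicValRat.of_nat]
  have h6 : padicValNat p l < s+1 := by
    by_contra hcon
    have h7 : p^(s+1) ∣ l := (pow_dvd_pow p (by omega)).trans pow_padicValNat_dvd
    have := Nat.le_of_dvd h0 h7
    omega
  omega

theorem Dv.Pl2 {s l : ℕ} (h0 : 0 < l) (h : ¬ p^s ∣ l) : Dv p 2 ((p:ℚ)^(s+1) / l) := by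
  right
  have hpp : (p:ℚ)^(s+1) ≠ 0 := pow_ne_zero _ (by exact_mod_cast hp.out.ne_zero)
  have hl : (l:ℚ) ≠ 0 := by positivity
  rw [padicValRat.div hpp hl, padicValRat.pow, padicValRat.self hp.out.one_lt, padicValRat.of_nat]
  have h6 : padicValNat p l < s := by
    by_contra hcon
    exact h ((pow_dvd_pow p (by omega)).trans pow_padicValNat_dvd)
  omega

end

end Pool.Agent.N926.Sup
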