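import Pool.Agent.N926.Sup2.B

set_option autoImplicit false

namespace Pool.Agent.N926.Sup2

open Finset

/-- `x_l = P/(2(l+1))`, `P = 2M+1` -/
def x (M l : ℕ) : ℚ := (2*(M:ℚ)+1)/(2*((l:ℚ)+1))

theorem x_ne (M l : ℕ) : 1 - x M l ≠ 0 := by
  unfold x
  intro h
  have h1 : (2*((l:ℚ)+1)) ≠ 0 := by positivity
  have h2 : 2*((l:ℚ)+1) - (2*(M:ℚ)+1) = 0 := by
    have : (1 - (2*(M:ℚ)+1)/(2*((l:ℚ)+1))) * (2*((l:ℚ)+1)) = 0 := by rw [h, zero_mul]
    rw [sub_mul, one_mul, div_mul_cancel₀ _ h1] at this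
    exact this
  exact odd_ne M l h2

theorem x_pos (M l : ℕ) : 0 < x M l := by
  unfold x
  positivity

/-- `Π_c = ∏ (1 - c² x_l²)` -/
def Pi2 (c : ℚ) (M : ℕ) : ℚ := ∏ l ∈ range M, (1 + (-(c^2) * x M l ^ 2))

/-- the relative weights -/
def T (M n : ℕ) : ℚ := 2 * x M n ^ 2 / (1 - x M n) * ∏ l ∈ range n, (1 - 2 * x M l)

theorem choose_prod (M n : ℕ) (h : n ≤ 2*M) : (((2*M).choose n : ℕ) : ℚ) =
    (-1)^n * ∏ l ∈ range n, (1 - 2 * x M l) := by
  induction n with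
  | zero => simp
  | succ n ih =>
    rw [prod_range_succ, pow_succ]
    have ih' := ih (by omega)
    have a1 := Nat.choose_succ_right_eq (2*M) n
    have b1 : (((2*M).choose (n+1) * (n+1) : ℕ) : ℚ) = (((2*M).choose n * (2*M-n) : ℕ) : ℚ) := by
      rw [a1]
    rw [Nat.cast_mul, Nat.cast_mul, Nat.cast_sub (by omega)] at b1
    push_cast at b1
    have p1 : ((n:ℚ)+1) ≠ 0 := by positivity
    have b2 : (((2*M).choose (n+1) : ℕ) : ℚ) = (((2*M).choose n : ℕ) : ℚ) * (2*M-n)/(n+1) := by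
      rw [eq_div_iff p1]
      exact b1
    rw [b2, ih']
    unfold x
    field_simp
    ring

theorem w_last (M : ℕ) : w M M = (-1)^M * (t M / 4^M) := by
  unfold w
  have : (2*(M:ℚ)+1) ≠ 0 := by positivity
  simp only [Nat.sub_self, Nat.choose_zero_right, Nat.cast_one, mul_one]
  rw [mul_div_assoc, div_self this, mul_one]

theorem w_eq (M n : ℕ) (h : n < M) : w M (M-1-n) = w M M * T M n := by
  obtain ⟨i, hi⟩ : ∃ i, M = i + n + 1 := ⟨M-n-1, by omega⟩
  rw [w_last]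
  have e1 : M - 1 - n = i := by omega
  rw [e1]
  unfold w T
  have e2 : M - i = n + 1 := by omega
  rw [e2]
  have a1 := Nat.add_one_mul_choose_eq (2*M) n
  have b1 : (((2*M+1) * (2*M).choose n : ℕ) : ℚ) = (((2*M+1).choose (n+1) * (n+1) : ℕ) : ℚ) := by
    rw [a1]
  push_cast at b1
  have p1 : ((n:ℚ)+1) ≠ 0 := by positivity
  have b2 : (((2*M+1).choose (n+1) : ℕ) : ℚ) = (2*M+1) * (((2*M).choose n : ℕ) : ℚ)/(n+1) := by
    rw [eq_div_iff p1]
    exact b1.symm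
  rw [b2, choose_prod M n (by omega)]
  have hM : (M:ℚ) = i + n + 1 := by rw [hi]; push_cast; ring
  have s1 : (-1:ℚ)^M = (-1)^i * (-1)^n * (-1) := by
    rw [hi, pow_succ, pow_add]
  have s2 : (-1:ℚ)^n * (-1)^n = 1 := by
    rw [← mul_pow]
    norm_num
  have hx : 1 - x M n = -(2*(i:ℚ)+1)/(2*((n:ℚ)+1)) := by
    unfold x
    rw [hM]
    field_simp
    ring
  have hx2 : x M n = (2*(M:ℚ)+1)/(2*((n:ℚ)+1)) := rfl
  rw [hx, hx2, s1]
  generalize (∏ l ∈ range n, (1 - 2 * x M l)) = a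
  generalize t M / 4^M = b
  have p2 : (2*(i:ℚ)+1) ≠ 0 := by positivity
  have p3 : -(2*(i:ℚ)+1) ≠ 0 := neg_ne_zero.2 p2
  field_simp

theorem rho_x (M i : ℕ) : rho M i = ∏ l ∈ range i, ((1 + x M l)/(1 - x M l)) := rfl

theorem rho_ne (M i : ℕ) : rho M i ≠ 0 := by
  rw [rho_x, prod_ne_zero_iff]
  intro l _
  have := x_pos M l
  exact div_ne_zero (by positivity) (x_ne M l)

theorem t_rho (M : ℕ) : t M ^ 2 * rho M M = Pi2 1 M := by
  rw [t_half, rho_x]
  unfold Pi2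
  rw [mul_pow, ← pow_mul, mul_comm M 2, pow_mul, neg_one_sq, one_pow, one_mul, ← prod_pow,
    ← prod_mul_distrib]
  refine prod_congr rfl fun l _ => ?_
  have h := x_ne M l
  have e : (1 - (2*(M:ℚ)+1)/(2*((l:ℚ)+1))) = 1 - x M l := rfl
  rw [e]
  field_simp
  ring

theorem sum_T (M : ℕ) : w M M * (1 + ∑ n ∈ range M, T M n) = 1 := by
  have h := sum_w M
  rw [sum_range_succ, ← sum_range_reflect] at h
  have h2 : ∑ n ∈ range M, w M (M-1-n) = w M M * ∑ n ∈ range M, T M n := by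
    rw [mul_sum]
    refine sum_congr rfl fun n hn => ?_
    rw [mem_range] at hn
    exact w_eq M n hn
  rw [h2] at h
  linarith

theorem A_form (M : ℕ) : A M = (2*(M:ℚ)+1) * (Pi2 1 M +
    w M M * Pi2 1 M * ∑ n ∈ range M, T M n * (rho M (M-1-n) / rho M M - 1)) := by
  have h1 : ∑ i ∈ range (M+1), w M i * rho M i = w M M * rho M M +
      w M M * ∑ n ∈ range M, T M n * rho M (M-1-n) := by
    rw [sum_range_succ, ← sum_range_reflect, add_comm, mul_sum]
    congr 1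
    refine sum_congr rfl fun n hn => ?_
    rw [mem_range] at hn
    rw [w_eq M n hn]
    ring
  have h2 : t M ^ 2 = Pi2 1 M / rho M M := by
    rw [eq_div_iff (rho_ne M M)]
    exact t_rho M
  have h3 : Pi2 1 M = Pi2 1 M * (w M M * (1 + ∑ n ∈ range M, T M n)) := by
    rw [sum_T, mul_one]
  have h4 : ∑ n ∈ range M, T M n * (rho M (M-1-n) / rho M M - 1) =
      (∑ n ∈ range M, T M n * rho M (M-1-n)) / rho M M - ∑ n ∈ range M, T M n := by
    rw [sum_div, ← sum_sub_distrib]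
    refine sum_congr rfl fun n _ => ?_
    ring
  rw [A_eq2, h1, h2, h4]
  have h5 : Pi2 1 M + w M M * Pi2 1 M * ((∑ n ∈ range M, T M n * rho M (M-1-n)) / rho M M -
      ∑ n ∈ range M, T M n) = Pi2 1 M * w M M * (1 + (∑ n ∈ range M, T M n * rho M (M-1-n)) / rho M M) +
      (Pi2 1 M - Pi2 1 M * (w M M * (1 + ∑ n ∈ range M, T M n))) := by ring
  rw [h5, ← h3]
  have := rho_ne M M
  field_simp
  ring

end Pool.Agent.N926.Sup2
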