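import Pool.Agent.N926.Sup2.C
import Pool.Agent.N926.Sup2.D

set_option autoImplicit false
set_option linter.unusedSectionVars false
set_option linter.unusedVariables false

namespace Pool.Agent.N926.Sup2

open Finset Pool.Agent.N926.Sup

/-- `P/(2k)` -/
def X (M k : ℕ) : ℚ := (2*(M:ℚ)+1)/(2*(k:ℚ))

theorem x_X (M l : ℕ) : x M l = X M (l+1) := by
  unfold x X
  push_cast
  rfl

/-- power sums `H^{(k)}_n` -/
def Hs (k n : ℕ) : ℚ := ∑ l ∈ range n, 1/((l:ℚ)+1)^k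

section
variable {p : ℕ} [hp : Fact p.Prime] {s M h : ℕ}

theorem cast_P (hM : p^(s+1) = 2*M+1) : (2*(M:ℚ)+1) = (p:ℚ)^(s+1) := by
  have : ((p^(s+1) : ℕ) : ℚ) = ((2*M+1 : ℕ) : ℚ) := by rw [hM]
  push_cast at this
  exact this.symm

theorem pos_of (hM : p^(s+1) = 2*M+1) (hh : p = 2*h+1) : 1 ≤ h := by
  have := hp.out.two_le
  omega

theorem M_eq (hM : p^(s+1) = 2*M+1) (hh : p = 2*h+1) : ∃ e, p^s = 2*e+1 ∧ M = h*p^s+e := by
  have hodd : Odd (p^s) := (show Odd p from ⟨h, hh⟩).pow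
  obtain ⟨e, he⟩ := hodd
  refine ⟨e, he, ?_⟩
  rw [pow_succ, he, hh] at hM
  have h1 : (2*e+1)*(2*h+1) = 2*(h*(2*e+1)) + (2*e+1) := by ring
  rw [h1] at hM
  rw [he]
  omega

theorem div_q (hM : p^(s+1) = 2*M+1) (hh : p = 2*h+1) : M / p^s = h := by
  obtain ⟨e, he, h1⟩ := M_eq hM hh
  rw [h1, mul_comm, Nat.mul_add_div (by omega), Nat.div_eq_of_lt (by omega), add_zero]

theorem x1 (h2 : p ≠ 2) (hM : p^(s+1) = 2*M+1) {k : ℕ} (h0 : 0 < k) (hk : k < 2*M+1) :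
    Dv p 1 (X M k) := by
  have h1 := (Dv.Pl1 (p := p) (s := s) h0 (by omega)).div_unit (val_two h2)
  unfold X
  rw [cast_P hM]
  have e : (p:ℚ)^(s+1)/(2*(k:ℚ)) = (p:ℚ)^(s+1)/(k:ℚ)/2 := by
    have : (k:ℚ) ≠ 0 := by positivity
    field_simp
  rw [e]
  exact h1

theorem x2 (h2 : p ≠ 2) (hM : p^(s+1) = 2*M+1) {k : ℕ} (h0 : 0 < k) (hk : ¬ p^s ∣ k) :
    Dv p 2 (X M k) := by
  have h1 := (Dv.Pl2 (p := p) (s := s) h0 hk).div_unit (val_two h2)
  unfold X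
  rw [cast_P hM]
  have e : (p:ℚ)^(s+1)/(2*(k:ℚ)) = (p:ℚ)^(s+1)/(k:ℚ)/2 := by
    have : (k:ℚ) ≠ 0 := by positivity
    field_simp
  rw [e]
  exact h1

theorem Xq (hM : p^(s+1) = 2*M+1) (j : ℕ) : X M (p^s*(j+1)) = p/(2*((j:ℚ)+1)) := by
  unfold X
  rw [cast_P hM, pow_succ]
  have : (p:ℚ)^s ≠ 0 := pow_ne_zero _ (by exact_mod_cast hp.out.ne_zero)
  push_cast
  have h3 : ((j:ℚ)+1) ≠ 0 := by positivity
  field_simp

theorem unit_j {j : ℕ} (hj : j + 1 < p) : padicValRat p ((j:ℚ)+1) = 0 := by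
  have h1 : ¬ p ∣ j + 1 := fun h => by
    have := Nat.le_of_dvd (by omega) h
    omega
  have := unit_nat (p := p) h1
  push_cast at this
  exact this

theorem Hs_int {k n : ℕ} (hn : n < p) : Dv p 0 (Hs k n) := by
  unfold Hs
  refine Dv.sum _ _ fun l hl => ?_
  rw [mem_range] at hl
  refine Dv.one.div_unit ?_
  rw [padicValRat.pow, unit_j (by omega), mul_zero]

theorem two_int (n : ℕ) : Dv p 0 ((n:ℚ)) := Dv.nat n

/-- general: `∏_{l<i} (1 + f)` with `f ≡ c x` mod `p²` -/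
theorem prod_cong (h2 : p ≠ 2) (hM : p^(s+1) = 2*M+1) (hh : p = 2*h+1) {i : ℕ} (hi : i < 2*M+1)
    (c : ℤ) (f : ℕ → ℚ) (hf : ∀ l < i, Dv p 2 (f l - c * x M l)) :
    Dv p 2 (∏ l ∈ range i, (1 + f l) - 1 - c * (p/2) * Hs 1 (i/p^s)) ∧
    Dv p 1 (∏ l ∈ range i, (1 + f l) - 1) := by
  have h1 : ∀ l ∈ range i, Dv p 1 (f l) := by
    intro l hl
    rw [mem_range] at hl
    have a1 := (hf l hl).mono (by norm_num : (1:ℤ) ≤ 2)
    have a2 : Dv p 1 ((c:ℚ) * x M l) := by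
      rw [x_X]
      exact (Dv.int c).mul0' (x1 h2 hM (by omega) (by omega))
    have := a1.add a2
    simpa using this
  refine ⟨?_, Dv.prod1 (by norm_num) _ _ h1⟩
  have h3 := Dv.prod2 (p := p) (n := 1) (by norm_num) (range i) f h1
  have h4 : Dv p 2 (∑ l ∈ range i, (f l - c * x M l)) :=
    Dv.sum _ _ fun l hl => hf l (mem_range.1 hl)
  have h5 := Dv.split (p := p) (n := 2) (p^s) (fun k => (c:ℚ) * X M k) i (fun l hl hq =>
    (Dv.int c).mul0' (x2 h2 hM (by omega) hq))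
  have h6 : ∑ l ∈ range (i/p^s), (c:ℚ) * X M (p^s*(l+1)) = c * (p/2) * Hs 1 (i/p^s) := by
    unfold Hs
    rw [mul_sum]
    refine sum_congr rfl fun l _ => ?_
    rw [Xq hM]
    have h3 : ((l:ℚ)+1) ≠ 0 := by positivity
    field_simp
  simp only [h6] at h5
  have h7 : ∑ l ∈ range i, (f l - c * x M l) = ∑ l ∈ range i, f l - ∑ l ∈ range i, c * X M (l+1) := by
    rw [← sum_sub_distrib]
    refine sum_congr rfl fun l _ => ?_
    rw [x_X]
  rw [h7] at h4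
  have h8 := (h3.add h4).add h5
  have e : ∏ i ∈ range i, (1 + f i) - 1 - ∑ i ∈ range i, f i +
      (∑ l ∈ range i, f l - ∑ l ∈ range i, ↑c * X M (l + 1)) +
      (∑ l ∈ range i, ↑c * X M (l + 1) - ↑c * (↑p / 2) * Hs 1 (i / p ^ s)) =
      ∏ l ∈ range i, (1 + f l) - 1 - c * (p/2) * Hs 1 (i/p^s) := by ring
  rw [e] at h8
  exact h8

theorem rho_cong (h2 : p ≠ 2) (hM : p^(s+1) = 2*M+1) (hh : p = 2*h+1) {i : ℕ} (hi : i ≤ M) :
    Dv p 2 (rho M i - 1 - p * Hs 1 (i/p^s)) ∧ Dv p 1 (rho M i - 1) := by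
  have h1 := prod_cong h2 hM hh (i := i) (by omega) 2 (fun l => 2 * x M l / (1 - x M l)) (by
    intro l hl
    have a1 : Dv p 1 (x M l) := by
      rw [x_X]; exact x1 h2 hM (by omega) (by omega)
    have a2 : Dv p 2 (2 * x M l ^ 2) := by
      have := (Dv.nat (p := p) 2).mul0' (a1.pow 2)
      simpa using this
    have a3 := a2.div_sub a1
    have e : 2 * x M l / (1 - x M l) - ((2:ℤ):ℚ) * x M l = 2 * x M l ^ 2 / (1 - x M l) := by
      have := x_ne M l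
      field_simp
      push_cast
      ring
    rw [e]
    exact a3)
  have e : rho M i = ∏ l ∈ range i, (1 + 2 * x M l / (1 - x M l)) := by
    rw [rho_x]
    refine prod_congr rfl fun l _ => ?_
    have := x_ne M l
    field_simp
    ring
  rw [e]
  have e2 : (((2:ℤ):ℚ) * ((p:ℚ)/2) * Hs 1 (i/p^s)) = p * Hs 1 (i/p^s) := by
    push_cast
    ring
  rw [e2] at h1
  exact h1

theorem ratio_cong (h2 : p ≠ 2) (hM : p^(s+1) = 2*M+1) (hh : p = 2*h+1) {i : ℕ} (hi : i ≤ M) :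
    Dv p 2 (rho M i / rho M M - 1 - p * (Hs 1 (i/p^s) - Hs 1 h)) ∧
    Dv p 1 (rho M i / rho M M - 1) := by
  have hq : 0 < p^s := Nat.pos_of_ne_zero (pow_ne_zero _ hp.out.ne_zero)
  obtain ⟨a1, a2⟩ := rho_cong h2 hM hh hi
  obtain ⟨b1, b2⟩ := rho_cong h2 hM hh (le_refl M)
  rw [div_q hM hh] at b1
  have hu := unit_of_cong (p := p) b2 (by norm_num) padicValRat.one
  have hH1 : Dv p 0 (Hs 1 (i/p^s)) := Hs_int (by
    have := Nat.div_le_div_right (c := p^s) hi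
    rw [div_q hM hh] at this
    omega)
  have hH2 : Dv p 0 (Hs 1 h) := Hs_int (by omega)
  have hd : Dv p 1 ((p:ℚ) * (Hs 1 (i/p^s) - Hs 1 h)) := Dv.p1.mul0 (hH1.sub hH2)
  have c1 : Dv p 2 (rho M i / rho M M - 1 - p * (Hs 1 (i/p^s) - Hs 1 h)) := by
    have e : rho M i / rho M M - 1 - p * (Hs 1 (i/p^s) - Hs 1 h) =
      ((rho M i - 1 - p * Hs 1 (i/p^s)) - (rho M M - 1 - p * Hs 1 h) -
        (p * (Hs 1 (i/p^s) - Hs 1 h)) * (rho M M - 1)) / rho M M := by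
      have := rho_ne M M
      field_simp
      ring
    rw [e]
    exact ((a1.sub b1).sub ((hd.mul b2).mono (by norm_num))).div_unit hu.2
  refine ⟨c1, ?_⟩
  have := (c1.mono (by norm_num : (1:ℤ) ≤ 2)).add hd
  have e : rho M i / rho M M - 1 - p * (Hs 1 (i/p^s) - Hs 1 h) + p * (Hs 1 (i/p^s) - Hs 1 h) =
    rho M i / rho M M - 1 := by ring
  rw [e] at this
  exact this

theorem T_int (h2 : p ≠ 2) (hM : p^(s+1) = 2*M+1) (hh : p = 2*h+1) {n : ℕ} (hn : n < M) :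
    Dv p 2 (T M n) ∧ (¬ p^s ∣ n+1 → Dv p 4 (T M n)) := by
  have a0 : Dv p 1 (x M n) := by
    rw [x_X]; exact x1 h2 hM (by omega) (by omega)
  have hp2 := (prod_cong h2 hM hh (i := n) (by omega) (-2) (fun l => -(2 * x M l)) (by
    intro l hl
    left
    push_cast
    ring)).2
  have hp3 : Dv p 0 (∏ l ∈ range n, (1 - 2 * x M l)) := by
    have := (hp2.mono (by norm_num : (0:ℤ) ≤ 1)).add Dv.one
    simpa [sub_eq_add_neg] using this
  unfold T
  constructor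
  · have a2 : Dv p 2 (2 * x M n ^ 2) := by
      have := (Dv.nat (p := p) 2).mul0' (a0.pow 2)
      simpa using this
    exact (a2.div_sub a0).mul0 hp3
  · intro hq
    have a1 : Dv p 2 (x M n) := by
      rw [x_X]; exact x2 h2 hM (by omega) hq
    have a2 : Dv p 4 (2 * x M n ^ 2) := by
      have := (Dv.nat (p := p) 2).mul0' (a1.pow 2)
      simpa using this
    exact (a2.div_sub a0).mul0 hp3

/-- precise form of `T` at the relevant places -/
theorem T_cong (h2 : p ≠ 2) (hM : p^(s+1) = 2*M+1) (hh : p = 2*h+1) {j : ℕ} (hj : j < h) :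
    Dv p 4 (T M (p^s*(j+1)-1) -
      2 * (p/(2*((j:ℚ)+1)))^2 * (1 + p/(2*((j:ℚ)+1)) - p * Hs 1 j)) := by
  have hq : 0 < p^s := Nat.pos_of_ne_zero (pow_ne_zero _ hp.out.ne_zero)
  obtain ⟨e, he, hMe⟩ := M_eq hM hh
  have hle : p^s*(j+1) ≤ M := by
    rw [hMe]
    calc p^s*(j+1) ≤ p^s*h := Nat.mul_le_mul_left _ (by omega)
      _ = h * p^s := Nat.mul_comm _ _
      _ ≤ _ := Nat.le_add_right _ _
  have hpos : 0 < p^s*(j+1) := by positivity
  obtain ⟨n, hn⟩ : ∃ n, p^s*(j+1) = n+1 := ⟨p^s*(j+1)-1, by omega⟩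
  have hn2 : p^s*(j+1)-1 = n := by omega
  have hdiv : n / p^s = j := by
    have h3 : n = p^s*j + (p^s-1) := by
      have : p^s*(j+1) = p^s*j + p^s := by ring
      omega
    rw [h3, Nat.mul_add_div hq, Nat.div_eq_of_lt (by omega), add_zero]
  obtain ⟨hp2, hp1⟩ := (prod_cong h2 hM hh (i := n) (by omega) (-2) (fun l => -(2 * x M l)) (by
    intro l hl
    left
    push_cast
    ring))
  rw [hdiv] at hp2
  have hxq : x M n = p/(2*((j:ℚ)+1)) := by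
    rw [x_X, ← hn, Xq hM]
  have a0 : Dv p 1 (x M n) := by
    rw [x_X]; exact x1 h2 hM (by omega) (by omega)
  rw [hn2, ← hxq]
  unfold T
  have e1 : ∏ l ∈ range n, (1 + -(2 * x M l)) = ∏ l ∈ range n, (1 - 2 * x M l) := by
    refine prod_congr rfl fun l _ => ?_
    ring
  rw [e1] at hp2 hp1
  generalize ∏ l ∈ range n, (1 - 2 * x M l) = R at *
  have hx0 := x_ne M n
  generalize x M n = y at *
  have b1 : Dv p 2 (2 * y^2) := by
    have := (Dv.nat (p := p) 2).mul0' (a0.pow 2)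
    simpa using this
  -- 1/(1-y) = 1 + y + y²/(1-y)
  have b2 : Dv p 2 (y^2/(1-y)) := by
    have := (a0.pow 2).div_sub a0
    simpa using this
  have hHj : Dv p 0 (Hs 1 j) := Hs_int (by omega)
  have b3 : Dv p 1 ((p:ℚ) * Hs 1 j) := Dv.p1.mul0 hHj
  have e2 : 2 * y ^ 2 / (1 - y) * R - 2 * y ^ 2 * (1 + y - p * Hs 1 j) =
      2 * y^2 * ((y^2/(1-y)) * R + (1 + y) * (R - 1 - ((-2:ℤ):ℚ) * ((p:ℚ)/2) * Hs 1 j) -
        y * (p * Hs 1 j)) := by
    push_cast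
    field_simp
    ring
  rw [e2]
  have hR : Dv p 0 R := by
    have := (hp1.mono (by norm_num : (0:ℤ) ≤ 1)).add Dv.one
    simpa using this
  have b4 : Dv p 2 ((y^2/(1-y)) * R + (1 + y) * (R - 1 - ((-2:ℤ):ℚ) * ((p:ℚ)/2) * Hs 1 j) -
        y * (p * Hs 1 j)) := by
    refine ((b2.mul0 hR).add ((Dv.one.add (a0.mono (by norm_num))).mul0' hp2)).sub ?_
    exact (a0.mul b3).mono (by norm_num)
  exact (b1.mul b4).mono (by norm_num)

theorem sumT_int (h2 : p ≠ 2) (hM : p^(s+1) = 2*M+1) (hh : p = 2*h+1) :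
    Dv p 2 (∑ n ∈ range M, T M n) :=
  Dv.sum _ _ fun n hn => (T_int h2 hM hh (mem_range.1 hn)).1

theorem wM_cong (h2 : p ≠ 2) (hM : p^(s+1) = 2*M+1) (hh : p = 2*h+1) :
    Dv p 2 (w M M - 1) := by
  have h1 := sum_T M
  have h3 := sumT_int h2 hM hh
  generalize ∑ n ∈ range M, T M n = S at *
  have hS : Dv p 1 (-S) := (h3.mono (by norm_num)).neg
  have hu := unit_sub hS
  rw [sub_neg_eq_add] at hu
  have e : w M M - 1 = -S / (1 + S) := by
    rw [eq_div_iff hu.1]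
    linear_combination h1
  rw [e]
  exact h3.neg.div_unit hu.2

theorem Pi2_cong (h2 : p ≠ 2) (hM : p^(s+1) = 2*M+1) (hh : p = 2*h+1) (c : ℤ) :
    Dv p 4 (Pi2 c M - 1 + c^2 * (p^2/4) * Hs 2 h) ∧ Dv p 2 (Pi2 c M - 1) := by
  have h1 : ∀ l ∈ range M, Dv p 2 (-((c:ℚ)^2) * x M l ^ 2) := by
    intro l hl
    rw [mem_range] at hl
    have a1 : Dv p 1 (x M l) := by
      rw [x_X]; exact x1 h2 hM (by omega) (by omega)
    have := (Dv.int (p := p) (-c^2)).mul0' (a1.pow 2)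
    push_cast at this
    simpa using this
  refine ⟨?_, Dv.prod1 (by norm_num) _ _ h1⟩
  have h3 := Dv.prod2 (p := p) (n := 2) (by norm_num) (range M) (fun l => -((c:ℚ)^2) * x M l ^ 2) h1
  have h5 := Dv.split (p := p) (n := 4) (p^s) (fun k => -((c:ℚ)^2) * X M k ^ 2) M (fun l hl hq => by
    have := (Dv.int (p := p) (-c^2)).mul0' ((x2 (k := l+1) h2 hM (by omega) hq).pow 2)
    push_cast at this
    norm_num at this ⊢
    exact this)
  rw [div_q hM hh] at h5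
  have h6 : ∑ l ∈ range h, -((c:ℚ)^2) * X M (p^s*(l+1))^2 = -(c^2 * (p^2/4) * Hs 2 h) := by
    unfold Hs
    rw [mul_sum, ← sum_neg_distrib]
    refine sum_congr rfl fun l _ => ?_
    rw [Xq hM]
    have h3 : ((l:ℚ)+1) ≠ 0 := by positivity
    field_simp
    ring
  simp only [h6] at h5
  have h7 : ∑ l ∈ range M, -((c:ℚ)^2) * x M l ^ 2 = ∑ l ∈ range M, -((c:ℚ)^2) * X M (l+1) ^ 2 := by
    refine sum_congr rfl fun l _ => ?_
    rw [x_X]
  simp only [h7] at h3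
  have h8 := h3.add h5
  have e : ∏ i ∈ range M, (1 + -((c:ℚ)^2) * x M i ^ 2) - 1 - ∑ l ∈ range M, -((c:ℚ)^2) * X M (l + 1) ^ 2 +
      (∑ l ∈ range M, -((c:ℚ)^2) * X M (l + 1) ^ 2 - -(c^2 * (p^2/4) * Hs 2 h)) =
      Pi2 c M - 1 + c^2 * (p^2/4) * Hs 2 h := by
    unfold Pi2
    ring
  rw [e] at h8
  exact h8

end

end Pool.Agent.N926.Sup2
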