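import Pool.Agent.N926.Sup2.E

set_option autoImplicit false
set_option linter.unusedSectionVars false
set_option linter.unusedVariables false

namespace Pool.Agent.N926.Sup2

open Finset Pool.Agent.N926.Sup

theorem Hs_succ (k n : ℕ) : Hs k (n+1) = Hs k n + 1/((n:ℚ)+1)^k := by
  unfold Hs
  rw [sum_range_succ]

theorem Hs_zero (k : ℕ) : Hs k 0 = 0 := by simp [Hs]

/-- `∑_j (H_{h-1-j} - H_h)/(j+1)²` -/
def DD (h : ℕ) : ℚ := ∑ j ∈ range h, (1/((j:ℚ)+1)^2) * (Hs 1 (h-1-j) - Hs 1 h)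

section
variable {p : ℕ} [hp : Fact p.Prime] {s M h : ℕ}

theorem unit_int_of {z : ℤ} (h0 : z ≠ 0) (h1 : -(p:ℤ) < z) (h2 : z < p) : padicValRat p (z:ℚ) = 0 := by
  apply unit_int
  intro hd
  obtain ⟨c, hc⟩ := hd
  have hp1 : (0:ℤ) < p := by exact_mod_cast hp.out.pos
  rcases lt_trichotomy c 0 with h | h | h
  · have : (p:ℤ) * c ≤ p * (-1) := mul_le_mul_of_nonneg_left (by omega) hp1.le
    omega
  · subst h
    simp at hc
    exact h0 hc
  · have : (p:ℤ) * 1 ≤ p * c := mul_le_mul_of_nonneg_left (by omega) hp1.le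
    omega

theorem unit_two_j (h2 : p ≠ 2) {j : ℕ} (hj : j + 1 < p) : padicValRat p (2*((j:ℚ)+1)) = 0 := by
  have h3 : ((j:ℚ)+1) ≠ 0 := by positivity
  rw [padicValRat.mul (by norm_num) h3, val_two h2, unit_j hj, add_zero]

/-- reflection: `H_{h-i} + H_i ≡ H_h + 2 H_{2i}` mod `p` -/
theorem refl_H (hh : p = 2*h+1) (i : ℕ) (hi : i ≤ h) :
    Dv p 1 (Hs 1 i + Hs 1 (h-i) - Hs 1 h - 2 * Hs 1 (2*i)) := by
  induction i with
  | zero =>
    left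
    simp [Hs_zero]
  | succ i ih =>
    have ih' := ih (by omega)
    obtain ⟨r, hr⟩ : ∃ r, h - i = r + 1 := ⟨h-i-1, by omega⟩
    have e1 : h - (i+1) = r := by omega
    have e2 : 2*(i+1) = (2*i+1)+1 := by ring
    rw [hr, Hs_succ] at ih'
    rw [e1, e2, Hs_succ, Hs_succ, Hs_succ]
    have hr2 : (r:ℚ) + 1 = h - i := by
      have : h = i + r + 1 := by omega
      rw [this]
      push_cast
      ring
    have hpc : (p:ℚ) = 2*h+1 := by rw [hh]; push_cast; ring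
    have p1 : ((r:ℚ)+1) ≠ 0 := by positivity
    have p2 : (2*(i:ℚ)+1) ≠ 0 := by positivity
    have p3 : (2*(i:ℚ)+1+1) ≠ 0 := by positivity
    have p4 : ((i:ℚ)+1) ≠ 0 := by positivity
    have u : padicValRat p (((r:ℚ)+1) * (2*(i:ℚ)+1)) = 0 := by
      rw [padicValRat.mul p1 p2, unit_j (by omega)]
      have := unit_j (p := p) (j := 2*i) (by omega)
      push_cast at this
      rw [this, add_zero]
    have h3 : Dv p 1 ((p:ℚ) / (((r:ℚ)+1) * (2*(i:ℚ)+1))) := Dv.p1.div_unit u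
    have h4 := ih'.sub h3
    have e : Hs 1 i + 1/((i:ℚ)+1)^1 + Hs 1 r - Hs 1 h -
        2 * (Hs 1 (2*i) + 1/(((2*i:ℕ):ℚ)+1)^1 + 1/(((2*i+1:ℕ):ℚ)+1)^1) =
        Hs 1 i + (Hs 1 r + 1/((r:ℚ)+1)^1) - Hs 1 h - 2 * Hs 1 (2*i) -
        (p:ℚ) / (((r:ℚ)+1) * (2*(i:ℚ)+1)) := by
      have hpr : (p:ℚ) = 2*(r+1)+2*i+1 := by
        rw [hpc, hr2]
        ring
      rw [hpr]
      push_cast
      field_simp
      ring
    rw [e]
    exact h4

/-- `g a = 1/(a(a-p))` -/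
def gg (p a : ℕ) : ℚ := 1/((a:ℚ)*((a:ℚ)-p))

theorem gg_refl (p a : ℕ) (h : a ≤ p) : gg p (p - a) = gg p a := by
  unfold gg
  rw [Nat.cast_sub h]
  congr 1
  ring

/-- `Y = ∑_{a=1}^{p-1} 1/(a(a-p))` -/
def YY (p h : ℕ) : ℚ := ∑ j ∈ range (2*h), gg p (j+1)

theorem YY_half (hh : p = 2*h+1) : YY p h = 2 * ∑ j ∈ range h, gg p (j+1) := by
  unfold YY
  have e : 2*h = h + h := by ring
  rw [e, sum_range_add, two_mul]
  congr 1
  rw [← sum_range_reflect]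
  refine sum_congr rfl fun j hj => ?_
  rw [mem_range] at hj
  rw [← gg_refl p (j+1) (by omega)]
  congr 1
  omega

theorem YY_even (hh : p = 2*h+1) : YY p h = 2 * ∑ j ∈ range h, gg p (2*(j+1)) := by
  have h1 : ∀ n : ℕ, ∑ j ∈ range (2*n), gg p (j+1) =
      ∑ j ∈ range n, gg p (2*j+1) + ∑ j ∈ range n, gg p (2*(j+1)) := by
    intro n
    induction n with
    | zero => simp
    | succ n ih =>
      have e : 2*(n+1) = 2*n+1+1 := by ring
      rw [e, sum_range_succ, sum_range_succ, ih, sum_range_succ, sum_range_succ]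
      have e2 : 2*(n+1) = 2*n+1+1 := by ring
      rw [e2]
      ring
  unfold YY
  rw [h1, two_mul]
  congr 1
  rw [← sum_range_reflect]
  refine sum_congr rfl fun j hj => ?_
  rw [mem_range] at hj
  rw [← gg_refl p (2*(j+1)) (by omega)]
  congr 1
  omega

theorem Y_cong (h2 : p ≠ 2) (hh : p = 2*h+1) :
    Dv p 2 (3 * YY p h + p * Hs 3 h) ∧ Dv p 2 (YY p h - 2 * Hs 2 h - 2 * p * Hs 3 h) := by
  have hA := YY_half (p := p) hh
  have hB := YY_even (p := p) hh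
  have hu : ∀ j ∈ range h, padicValRat p ((((j+1:ℕ):ℚ))-p) = 0 ∧ (((j+1:ℕ):ℚ))-p ≠ 0 := by
    intro j hj
    rw [mem_range] at hj
    have e : (((j+1:ℕ):ℚ))-p = (((j+1:ℕ):ℤ)-(p:ℤ) : ℤ) := by push_cast; ring
    rw [e]
    refine ⟨unit_int_of (by omega) (by omega) (by omega), ?_⟩
    exact_mod_cast (by omega : (((j+1:ℕ):ℤ)-(p:ℤ) : ℤ) ≠ 0)
  have hu2 : ∀ j ∈ range h, padicValRat p ((((2*(j+1):ℕ):ℚ))-p) = 0 ∧ (((2*(j+1):ℕ):ℚ))-p ≠ 0 := by
    intro j hj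
    rw [mem_range] at hj
    have e : (((2*(j+1):ℕ):ℚ))-p = (((2*(j+1):ℕ):ℤ)-(p:ℤ) : ℤ) := by push_cast; ring
    rw [e]
    refine ⟨unit_int_of (by omega) (by omega) (by omega), ?_⟩
    exact_mod_cast (by omega : (((2*(j+1):ℕ):ℤ)-(p:ℤ) : ℤ) ≠ 0)
  constructor
  · have e : 3 * YY p h + p * Hs 3 h = ∑ j ∈ range h,
        (8 * gg p (2*(j+1)) - 2 * gg p (j+1) + p * (1/((j:ℚ)+1)^3)) := by
      rw [sum_add_distrib, sum_sub_distrib, ← mul_sum, ← mul_sum, ← mul_sum]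
      unfold Hs
      linarith
    rw [e]
    refine Dv.sum _ _ fun j hj => ?_
    obtain ⟨u1, n1⟩ := hu j hj
    obtain ⟨u2, n2⟩ := hu2 j hj
    rw [mem_range] at hj
    have hj0 : ((j:ℚ)+1) ≠ 0 := by positivity
    have hU : padicValRat p (((j:ℚ)+1)^3 * (((2*(j+1):ℕ):ℚ)-p) * (((j+1:ℕ):ℚ)-p)) = 0 := by
      rw [padicValRat.mul (mul_ne_zero (pow_ne_zero _ hj0) n2) n1,
        padicValRat.mul (pow_ne_zero _ hj0) n2, padicValRat.pow, unit_j (by omega), u1, u2]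
      norm_num
    have hN : Dv p 2 ((p:ℚ)^2 * ((p:ℚ) - 3*((j+1:ℕ):ℚ))) := by
      have h3 : Dv p 0 ((p:ℚ) - 3*((j+1:ℕ):ℚ)) := by
        have := Dv.int (p := p) ((p:ℤ) - 3*((j+1:ℕ):ℤ))
        push_cast at this ⊢
        exact this
      exact (Dv.p_pow 2).mul0 h3
    have := hN.div_unit hU
    have e : 8 * gg p (2*(j+1)) - 2 * gg p (j+1) + p * (1/((j:ℚ)+1)^3) =
      (p:ℚ)^2 * ((p:ℚ) - 3*((j+1:ℕ):ℚ)) /
      (((j:ℚ)+1)^3 * (((2*(j+1):ℕ):ℚ)-p) * (((j+1:ℕ):ℚ)-p)) := by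
      unfold gg
      push_cast at n1 n2 ⊢
      field_simp
      ring
    rw [e]
    exact this
  · have e : YY p h - 2 * Hs 2 h - 2 * p * Hs 3 h = ∑ j ∈ range h,
        (2 * gg p (j+1) - 2 * (1/((j:ℚ)+1)^2) - 2 * p * (1/((j:ℚ)+1)^3)) := by
      rw [sum_sub_distrib, sum_sub_distrib, ← mul_sum, ← mul_sum, ← mul_sum]
      unfold Hs
      linarith
    rw [e]
    refine Dv.sum _ _ fun j hj => ?_
    obtain ⟨u1, n1⟩ := hu j hj
    rw [mem_range] at hj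
    have hj0 : ((j:ℚ)+1) ≠ 0 := by positivity
    have hU : padicValRat p (((j:ℚ)+1)^3 * (((j+1:ℕ):ℚ)-p)) = 0 := by
      rw [padicValRat.mul (pow_ne_zero _ hj0) n1, padicValRat.pow, unit_j (by omega), u1]
      norm_num
    have hN : Dv p 2 ((p:ℚ)^2 * 2) := (Dv.p_pow 2).mul0 (by simpa using Dv.nat (p := p) 2)
    have := hN.div_unit hU
    have e : 2 * gg p (j+1) - 2 * (1/((j:ℚ)+1)^2) - 2 * p * (1/((j:ℚ)+1)^3) =
      (p:ℚ)^2 * 2 / (((j:ℚ)+1)^3 * (((j+1:ℕ):ℚ)-p)) := by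
      unfold gg
      push_cast at n1 ⊢
      field_simp
      ring
    rw [e]
    exact this

/-- places `n+1 = q(j+1)` -/
theorem place (hM : p^(s+1) = 2*M+1) (hh : p = 2*h+1) {j : ℕ} (hj : j < h) :
    p^s*(j+1) ≤ M ∧ 0 < p^s*(j+1) ∧ (M - p^s*(j+1))/p^s = h - 1 - j := by
  have hq : 0 < p^s := Nat.pos_of_ne_zero (pow_ne_zero _ hp.out.ne_zero)
  obtain ⟨e, he, hMe⟩ := M_eq hM hh
  have hle : p^s*(j+1) ≤ M := by
    rw [hMe]
    calc p^s*(j+1) ≤ p^s*h := Nat.mul_le_mul_left _ (by omega)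
      _ = h * p^s := Nat.mul_comm _ _
      _ ≤ _ := Nat.le_add_right _ _
  refine ⟨hle, by positivity, ?_⟩
  have h3 : M - p^s*(j+1) = p^s*(h-1-j) + e := by
    have h4 : p^s*(h-1-j) + p^s*(j+1) = h*p^s := by
      rw [← Nat.mul_add, Nat.mul_comm]
      congr 1
      omega
    omega
  rw [h3, Nat.mul_add_div hq, Nat.div_eq_of_lt (by omega), add_zero]

/-- sums `∑_{n<M} T_n c_n` -/
theorem sumT_split (h2 : p ≠ 2) (hM : p^(s+1) = 2*M+1) (hh : p = 2*h+1) (c : ℕ → ℚ)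
    (hc : ∀ n < M, Dv p 0 (c n)) :
    Dv p 4 (∑ n ∈ range M, T M n * c n -
      ∑ j ∈ range h, T M (p^s*(j+1)-1) * c (p^s*(j+1)-1)) := by
  have h5 := Dv.split (p := p) (n := 4) (p^s) (fun k => T M (k-1) * c (k-1)) M (fun l hl hq => by
    simp only [Nat.add_sub_cancel]
    exact ((T_int h2 hM hh hl).2 hq).mul0 (hc l hl))
  rw [div_q hM hh] at h5
  simp only [Nat.add_sub_cancel] at h5
  exact h5

theorem A_main (h2 : p ≠ 2) (hM : p^(s+1) = 2*M+1) (hh : p = 2*h+1) :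
    Dv p 4 (A M / (2*(M:ℚ)+1) - (1 - (p^2/4) * Hs 2 h + (p^3/2) * DD h)) := by
  have hq : 0 < p^s := Nat.pos_of_ne_zero (pow_ne_zero _ hp.out.ne_zero)
  have hP : (2*(M:ℚ)+1) ≠ 0 := by positivity
  have hA : A M / (2*(M:ℚ)+1) = Pi2 1 M +
    w M M * Pi2 1 M * ∑ n ∈ range M, T M n * (rho M (M-1-n) / rho M M - 1) := by
    rw [A_form]
    field_simp
  rw [hA]
  obtain ⟨a1, a2⟩ := Pi2_cong (p := p) h2 hM hh 1
  have e1 : (((1:ℤ):ℚ)) = 1 := by norm_num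
  rw [e1] at a1 a2
  have hs := sumT_split h2 hM hh (fun n => rho M (M-1-n) / rho M M - 1) (fun n hn =>
    (ratio_cong h2 hM hh (i := M-1-n) (by omega)).2.mono (by norm_num))
  have hterm : ∀ j ∈ range h, Dv p 4 (T M (p^s*(j+1)-1) * (rho M (M-1-(p^s*(j+1)-1)) / rho M M - 1) -
      (p^3/2) * ((1/((j:ℚ)+1)^2) * (Hs 1 (h-1-j) - Hs 1 h))) := by
    intro j hj
    rw [mem_range] at hj
    obtain ⟨pl1, pl2, pl3⟩ := place (p := p) hM hh hj
    have e2 : M-1-(p^s*(j+1)-1) = M - p^s*(j+1) := by omega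
    rw [e2]
    obtain ⟨b1, b2⟩ := ratio_cong h2 hM hh (i := M - p^s*(j+1)) (by omega)
    rw [pl3] at b1
    have c1 := T_cong h2 hM hh hj
    have hy : Dv p 1 ((p:ℚ)/(2*((j:ℚ)+1))) := Dv.p1.div_unit (unit_two_j h2 (by omega))
    have hH : Dv p 0 (Hs 1 j) := Hs_int (by omega)
    have hδ : Dv p 1 ((p:ℚ) * (Hs 1 (h-1-j) - Hs 1 h)) :=
      Dv.p1.mul0 ((Hs_int (by omega)).sub (Hs_int (by omega)))
    generalize T M (p^s*(j+1)-1) = t at *
    generalize rho M (M - p^s*(j+1)) / rho M M = r at *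
    have hj0 : ((j:ℚ)+1) ≠ 0 := by positivity
    obtain ⟨y, hyd⟩ : ∃ y : ℚ, y = (p:ℚ)/(2*((j:ℚ)+1)) := ⟨_, rfl⟩
    have e3 : (p:ℚ)^3/2 * (1/((j:ℚ)+1)^2 * (Hs 1 (h-1-j) - Hs 1 h)) =
      2*y^2 * (p * (Hs 1 (h-1-j) - Hs 1 h)) := by
      rw [hyd]
      field_simp
    rw [e3]
    rw [← hyd] at c1 hy
    have hy2 : Dv p 2 (2*y^2) := by
      have := (Dv.nat (p := p) 2).mul0' (hy.pow 2)
      simpa using this
    have hc : Dv p 1 (y - p * Hs 1 j) := hy.sub (Dv.p1.mul0 hH)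
    have e4 : t * (r - 1) - 2*y^2 * (p * (Hs 1 (h-1-j) - Hs 1 h)) =
      (t - 2*y^2*(1 + y - p * Hs 1 j)) * (r - 1) + 2*y^2 * ((y - p * Hs 1 j) * (r-1)) +
      2*y^2 * (r - 1 - p * (Hs 1 (h-1-j) - Hs 1 h)) := by ring
    rw [e4]
    refine ((c1.mul0 (b2.mono (by norm_num))).add ?_).add ?_
    · exact (hy2.mul (hc.mul b2)).mono (by norm_num)
    · exact (hy2.mul b1).mono (by norm_num)
  have hsum : Dv p 4 (∑ n ∈ range M, T M n * (rho M (M-1-n) / rho M M - 1) - (p^3/2) * DD h) := by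
    have h3 := Dv.sum _ _ hterm
    have h4 := hs.add h3
    have e : ∑ n ∈ range M, T M n * (rho M (M-1-n) / rho M M - 1) -
      ∑ j ∈ range h, T M (p^s*(j+1)-1) * (rho M (M-1-(p^s*(j+1)-1)) / rho M M - 1) +
      ∑ j ∈ range h, (T M (p^s*(j+1)-1) * (rho M (M-1-(p^s*(j+1)-1)) / rho M M - 1) -
      (p^3/2) * ((1/((j:ℚ)+1)^2) * (Hs 1 (h-1-j) - Hs 1 h))) =
      ∑ n ∈ range M, T M n * (rho M (M-1-n) / rho M M - 1) - (p^3/2) * DD h := by
      unfold DD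
      rw [sum_sub_distrib, ← mul_sum]
      ring
    rw [e] at h4
    exact h4
  have hDD : Dv p 0 (DD h) := by
    unfold DD
    refine Dv.sum _ _ fun j hj => ?_
    rw [mem_range] at hj
    refine (Dv.one.div_unit ?_).mul0 ((Hs_int (by omega)).sub (Hs_int (by omega)))
    rw [padicValRat.pow, unit_j (by omega), mul_zero]
  have hp3 : Dv p 3 ((p:ℚ)^3/2 * DD h) := ((Dv.p_pow 3).div_unit (val_two h2)).mul0 hDD
  have hw := wM_cong h2 hM hh
  generalize ∑ n ∈ range M, T M n * (rho M (M-1-n) / rho M M - 1) = S at *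
  have hS3 : Dv p 3 S := by
    have := (hsum.mono (by norm_num : (3:ℤ) ≤ 4)).add hp3
    simpa using this
  have hwp : Dv p 1 (w M M * Pi2 1 M - 1) := by
    have e : w M M * Pi2 1 M - 1 = (w M M - 1) * (Pi2 1 M - 1) + (w M M - 1) + (Pi2 1 M - 1) := by
      ring
    rw [e]
    exact (((hw.mul a2).mono (by norm_num)).add (hw.mono (by norm_num))).add (a2.mono (by norm_num))
  have e5 : Pi2 1 M + w M M * Pi2 1 M * S - (1 - (p^2/4) * Hs 2 h + (p^3/2) * DD h) =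
    (Pi2 1 M - 1 + 1^2 * (p^2/4) * Hs 2 h) + (w M M * Pi2 1 M - 1) * S +
      (S - (p^3/2) * DD h) := by ring
  rw [e5]
  exact (a1.add ((hwp.mul hS3).mono (by norm_num))).add hsum

end

end Pool.Agent.N926.Sup2
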