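import Pool.Agent.N926.Sup2.D

set_option autoImplicit false
set_option linter.unusedVariables false

namespace Pool.Agent.N926.Sup2

open Finset

/-- `(1/2)_n` -/
def hq (n : ℕ) : ℚ := t n * (n.factorial : ℚ)

theorem hq_succ (n : ℕ) : hq (n+1) = hq n * ((n:ℚ) + 1/2) := by
  unfold hq
  rw [t_succ, Nat.factorial_succ]
  have h2 : (2*(n:ℚ) + 2) ≠ 0 := by positivity
  push_cast
  field_simp
  try ring

theorem hq_pos (n : ℕ) : 0 < hq n := by
  unfold hq
  have := t_pos n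
  positivity

theorem hq_zero : hq 0 = 1 := by simp [hq, t_zero]

/-- `(2n)! = 4^n n! (1/2)_n` -/
theorem fact_two (n : ℕ) : ((2*n).factorial : ℚ) = 4^n * (n.factorial : ℚ) * hq n := by
  induction n with
  | zero => simp [hq_zero]
  | succ n ih =>
    have e : 2*(n+1) = 2*n+1+1 := by ring
    rw [e, Nat.factorial_succ, Nat.factorial_succ]
    push_cast
    rw [ih, hq_succ, Nat.factorial_succ]
    push_cast
    ring

/-- `B N = ∑_{n<N} (3n+1) t_n^3 4^n` -/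
def B (N : ℕ) : ℚ := ∑ n ∈ range N, (3*(n:ℚ)+1) * t n ^ 3 * 4^n

/-- WZ pair; `F(n,k) = (-1)^k (3n+1) 4^n (1/2)_n (1/2)_{n-k} (1/2)_{n+k} / (n! (n-2k)! (n+2k)!)` -/
def FB (n k : ℕ) : ℚ := if 2*k ≤ n then
  (-1)^k * (3*(n:ℚ)+1) * 4^n * hq n * hq (n-k) * hq (n+k) /
    ((n.factorial : ℚ) * ((n-2*k).factorial : ℚ) * ((n+2*k).factorial : ℚ)) else 0

/-- `G(n,k) = (-1)^k 4^n 2n (1/2)_n (1/2)_{n-k-1} (1/2)_{n+k} / ((n-1)! (n-2k-1)! (n+2k+1)!)` -/
def GB (n k : ℕ) : ℚ := if 2*k + 1 ≤ n then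
  (-1)^k * 4^n * (2*(n:ℚ)) * hq n * hq (n-k-1) * hq (n+k) /
    (((n-1).factorial : ℚ) * ((n-2*k-1).factorial : ℚ) * ((n+2*k+1).factorial : ℚ)) else 0

theorem wzB (n k : ℕ) : FB n k - FB n (k+1) = GB (n+1) k - GB n k := by
  rcases Nat.lt_or_ge n (2*k) with h | h
  · unfold FB GB
    rw [if_neg (by omega), if_neg (by omega), if_neg (by omega), if_neg (by omega)]
  obtain ⟨d, rfl⟩ : ∃ d, n = 2*k+d := ⟨n-2*k, by omega⟩
  rcases d with _ | d
  · -- n = 2k
    unfold FB GB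
    rw [if_pos (by omega), if_neg (by omega), if_pos (by omega), if_neg (by omega)]
    have e1 : 2*k+0-k = k := by omega
    have e2 : 2*k+0-2*k = 0 := by omega
    have e3 : 2*k+0+k = 3*k := by omega
    have e4 : 2*k+0+1-k-1 = k := by omega
    have e5 : 2*k+0+1+k = 3*k+1 := by omega
    have e6 : 2*k+0+1-1 = 2*k := by omega
    have e7 : 2*k+0+1-2*k-1 = 0 := by omega
    have e8 : 2*k+0+1+2*k+1 = (4*k+1)+1 := by omega
    have e9 : 2*k+0+2*k = 4*k := by omega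
    have e10 : 2*k+0 = 2*k := by omega
    rw [e4, e5, e6, e7, e8, e1, e2, e3, e9, e10, hq_succ (2*k), hq_succ (3*k),
      Nat.factorial_succ (4*k+1), Nat.factorial_succ (4*k), pow_succ 4 (2*k)]
    have f1 : ((2*k).factorial : ℚ) ≠ 0 := by positivity
    have f2 : ((4*k).factorial : ℚ) ≠ 0 := by positivity
    have f3 : (4*(k:ℚ)+1+1) ≠ 0 := by positivity
    have f4 : (4*(k:ℚ)+1) ≠ 0 := by positivity
    push_cast
    field_simp
    ring
  rcases d with _ | d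
  · -- n = 2k+1
    unfold FB GB
    rw [if_pos (by omega), if_neg (by omega), if_pos (by omega), if_pos (by omega)]
    have e1 : 2*k+(0+1)-k = k+1 := by omega
    have e2 : 2*k+(0+1)-2*k = 1 := by omega
    have e3 : 2*k+(0+1)+k = 3*k+1 := by omega
    have e4 : 2*k+(0+1)+1-k-1 = k+1 := by omega
    have e5 : 2*k+(0+1)+1+k = (3*k+1)+1 := by omega
    have e6 : 2*k+(0+1)+1-1 = 2*k+1 := by omega
    have e7 : 2*k+(0+1)+1-2*k-1 = 1 := by omega
    have e8 : 2*k+(0+1)+1+2*k+1 = (4*k+1)+1+1 := by omega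
    have e9 : 2*k+(0+1)+2*k = 4*k+1 := by omega
    have e10 : 2*k+(0+1)-k-1 = k := by omega
    have e11 : 2*k+(0+1)-1 = 2*k := by omega
    have e12 : 2*k+(0+1)-2*k-1 = 0 := by omega
    have e13 : 2*k+(0+1)+2*k+1 = 4*k+1+1 := by omega
    have e14 : 2*k+(0+1) = 2*k+1 := by omega
    rw [e4, e5, e6, e7, e8, e10, e12, e13, e11, e1, e2, e3, e9, e14]
    rw [hq_succ (2*k+1), hq_succ (3*k+1), hq_succ k, Nat.factorial_succ (4*k+1+1),
      Nat.factorial_succ (4*k+1), Nat.factorial_succ (2*k), pow_succ 4 (2*k+1)]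
    have f1 : ((2*k).factorial : ℚ) ≠ 0 := by positivity
    have f2 : ((4*k+1).factorial : ℚ) ≠ 0 := by positivity
    have f3 : (4*(k:ℚ)+1+1+1) ≠ 0 := by positivity
    have f4 : (4*(k:ℚ)+1+1) ≠ 0 := by positivity
    have f5 : (2*(k:ℚ)+1) ≠ 0 := by positivity
    simp only [Nat.factorial_one, Nat.factorial_zero]
    push_cast
    field_simp
    ring
  · -- n = 2k+2+d
    unfold FB GB
    rw [if_pos (by omega), if_pos (by omega), if_pos (by omega), if_pos (by omega)]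
    have e1 : 2*k+(d+1+1)-k = k+d+1+1 := by omega
    have e2 : 2*k+(d+1+1)-2*k = d+1+1 := by omega
    have e3 : 2*k+(d+1+1)+k = 3*k+d+2 := by omega
    have e4 : 2*k+(d+1+1)+1-k-1 = k+d+1+1 := by omega
    have e5 : 2*k+(d+1+1)+1+k = (3*k+d+2)+1 := by omega
    have e6 : 2*k+(d+1+1)+1-1 = 2*k+d+1+1 := by omega
    have e7 : 2*k+(d+1+1)+1-2*k-1 = d+1+1 := by omega
    have e8 : 2*k+(d+1+1)+1+2*k+1 = (4*k+d+2)+1+1 := by omega
    have e9 : 2*k+(d+1+1)+2*k = 4*k+d+2 := by omega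
    have e10 : 2*k+(d+1+1)-k-1 = k+d+1 := by omega
    have e11 : 2*k+(d+1+1)-1 = 2*k+d+1 := by omega
    have e12 : 2*k+(d+1+1)-2*k-1 = d+1 := by omega
    have e13 : 2*k+(d+1+1)+2*k+1 = 4*k+d+2+1 := by omega
    have e14 : 2*k+(d+1+1)-(k+1) = k+d+1 := by omega
    have e15 : 2*k+(d+1+1)+(k+1) = 3*k+d+2+1 := by omega
    have e16 : 2*k+(d+1+1)-2*(k+1) = d := by omega
    have e17 : 2*k+(d+1+1)+2*(k+1) = (4*k+d+2)+1+1 := by omega
    have e18 : 2*k+(d+1+1) = 2*k+d+1+1 := by omega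
    rw [e4, e5, e6, e7, e8, e10, e12, e13, e11, e14, e15, e16, e17, e1, e2, e3, e9, e18]
    rw [hq_succ (2*k+d+1+1), hq_succ (3*k+d+2), hq_succ (k+d+1), Nat.factorial_succ (4*k+d+2+1),
      Nat.factorial_succ (4*k+d+2), Nat.factorial_succ (2*k+d+1), Nat.factorial_succ (d+1),
      Nat.factorial_succ d, pow_succ 4 (2*k+d+1+1), pow_succ (-1:ℚ) k]
    have f1 : ((2*k+d+1).factorial : ℚ) ≠ 0 := by positivity
    have f2 : ((4*k+d+2).factorial : ℚ) ≠ 0 := by positivity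
    have f6 : ((d).factorial : ℚ) ≠ 0 := by positivity
    have f3 : (4*(k:ℚ)+d+2+1+1) ≠ 0 := by positivity
    have f4 : (4*(k:ℚ)+d+2+1) ≠ 0 := by positivity
    have f5 : (2*(k:ℚ)+d+1+1) ≠ 0 := by positivity
    have f7 : ((d:ℚ)+1) ≠ 0 := by positivity
    have f8 : ((d:ℚ)+1+1) ≠ 0 := by positivity
    push_cast
    field_simp
    ring

theorem sumFB (N k : ℕ) :
    ∑ n ∈ range N, FB n k - ∑ n ∈ range N, FB n (k+1) = GB N k := by
  rw [← sum_sub_distrib]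
  rw [sum_congr rfl (fun n _ => wzB n k), sum_range_sub (fun n => GB n k) N]
  have : GB 0 k = 0 := by simp [GB]
  rw [this, sub_zero]

theorem B_sum (N K : ℕ) :
    ∑ n ∈ range N, FB n 0 = ∑ n ∈ range N, FB n K + ∑ k ∈ range K, GB N k := by
  induction K with
  | zero => simp
  | succ K ih =>
    rw [ih, sum_range_succ (fun k => GB N k) K, ← sumFB N K]
    ring

theorem B_GB (M : ℕ) : B (2*M+1) = ∑ k ∈ range (M+1), GB (2*M+1) k := by
  have h1 : B (2*M+1) = ∑ n ∈ range (2*M+1), FB n 0 := by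
    unfold B
    refine sum_congr rfl fun n _ => ?_
    unfold FB
    rw [if_pos (by omega)]
    simp only [pow_zero, mul_zero, Nat.sub_zero, add_zero, one_mul]
    unfold hq
    have : (n.factorial : ℚ) ≠ 0 := by positivity
    field_simp
  rw [h1, B_sum (2*M+1) (M+1)]
  have h2 : ∑ n ∈ range (2*M+1), FB n (M+1) = 0 := by
    refine sum_eq_zero fun n hn => ?_
    rw [mem_range] at hn
    unfold FB
    rw [if_neg (by omega)]
  rw [h2, zero_add]

end Pool.Agent.N926.Sup2
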