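import Pool.Agent.N926.Sup2.I

set_option autoImplicit false
set_option linter.unusedVariables false

namespace Pool.Agent.N926.Sup2

open Finset

theorem prod_1x (M n : ℕ) : ∏ l ∈ range n, (1 + x M l) = hq (M+1+n) / (hq (M+1) * (n.factorial : ℚ)) := by
  induction n with
  | zero =>
    have := hq_pos (M+1)
    simp only [range_zero, prod_empty, add_zero, Nat.factorial_zero, Nat.cast_one, mul_one]
    field_simp
  | succ n ih =>
    rw [prod_range_succ, ih]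
    have e : M + 1 + (n+1) = (M+1+n)+1 := by ring
    rw [e, hq_succ (M+1+n), Nat.factorial_succ n]
    unfold x
    have h1 := (hq_pos (M+1)).ne'
    have h2 : (n.factorial : ℚ) ≠ 0 := by positivity
    have h3 : ((n:ℚ)+1) ≠ 0 := by positivity
    push_cast
    field_simp
    ring

theorem prod_2x (M n : ℕ) : ∏ l ∈ range n, (1 + 2 * x M l) =
    ((2*M+1+n).factorial : ℚ) / (((2*M+1).factorial : ℚ) * (n.factorial : ℚ)) := by
  induction n with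
  | zero =>
    have : ((2*M+1).factorial : ℚ) ≠ 0 := by positivity
    simp only [range_zero, prod_empty, add_zero, Nat.factorial_zero, Nat.cast_one, mul_one]
    field_simp
  | succ n ih =>
    rw [prod_range_succ, ih]
    have e : 2*M + 1 + (n+1) = (2*M+1+n)+1 := by ring
    rw [e, Nat.factorial_succ (2*M+1+n), Nat.factorial_succ n]
    unfold x
    have h1 : ((2*M+1).factorial : ℚ) ≠ 0 := by positivity
    have h2 : (n.factorial : ℚ) ≠ 0 := by positivity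
    have h3 : ((n:ℚ)+1) ≠ 0 := by positivity
    push_cast
    field_simp
    ring

theorem prod_6x (M n : ℕ) (h : n ≤ 6*M+2) : ∏ l ∈ range n, (1 - 6 * x M l) =
    (-1)^n * ((6*M+2).factorial : ℚ) / (((6*M+2-n).factorial : ℚ) * (n.factorial : ℚ)) := by
  induction n with
  | zero =>
    have : ((6*M+2).factorial : ℚ) ≠ 0 := by positivity
    simp only [range_zero, prod_empty, Nat.sub_zero, Nat.factorial_zero, Nat.cast_one, mul_one,
      pow_zero, one_mul]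
    field_simp
  | succ n ih =>
    rw [prod_range_succ, ih (by omega)]
    obtain ⟨r, hr⟩ : ∃ r, 6*M+2 = n + 1 + r := ⟨6*M+2-(n+1), by omega⟩
    have e1 : 6*M+2-n = r+1 := by omega
    have e2 : 6*M+2-(n+1) = r := by omega
    rw [e1, e2, Nat.factorial_succ r, Nat.factorial_succ n, pow_succ]
    have hr2 : (6*(M:ℚ)+2) = n + 1 + r := by exact_mod_cast hr
    have hx : 1 - 6 * x M n = -((r:ℚ)+1)/((n:ℚ)+1) := by
      unfold x
      have h3 : ((n:ℚ)+1) ≠ 0 := by positivity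
      have hr3 : (r:ℚ) = 6*M+2-n-1 := by linarith
      rw [hr3]
      field_simp
      ring
    rw [hx]
    have h1 : ((6*M+2).factorial : ℚ) ≠ 0 := by positivity
    have h2 : (n.factorial : ℚ) ≠ 0 := by positivity
    have h4 : (r.factorial : ℚ) ≠ 0 := by positivity
    have h3 : ((n:ℚ)+1) ≠ 0 := by positivity
    have h5 : ((r:ℚ)+1) ≠ 0 := by positivity
    push_cast
    field_simp

/-- `Z_3 = ∏_{l<P} (1 - 3P/l)` -/
def Z3 (M : ℕ) : ℚ := ∏ l ∈ range (2*M), (1 - 6 * x M l)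

theorem prod_neg_x (M : ℕ) : ∏ l ∈ range M, (1 - x M l) = (-1)^M * t M := by
  rw [t_half, ← mul_assoc, ← mul_pow]
  norm_num
  rfl

theorem prod_neg_2x (M : ℕ) : ∏ l ∈ range M, (1 - 2 * x M l) = (-1)^M * 4^M * t M := by
  have h := choose_prod M M (by omega)
  have h2 : (((2*M).choose M : ℕ) : ℚ) = 4^M * t M := by
    unfold t Nat.centralBinom
    field_simp
  rw [h2] at h
  have h3 : (-1:ℚ)^M * (-1)^M = 1 := by
    rw [← mul_pow]
    norm_num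
  calc ∏ l ∈ range M, (1 - 2 * x M l) = ((-1)^M * (-1)^M) * ∏ l ∈ range M, (1 - 2 * x M l) := by
        rw [h3, one_mul]
    _ = (-1)^M * ((-1)^M * ∏ l ∈ range M, (1 - 2 * x M l)) := by ring
    _ = _ := by rw [← h]; ring

theorem Pi2_1 (M : ℕ) : Pi2 1 M = (∏ l ∈ range M, (1 - x M l)) * ∏ l ∈ range M, (1 + x M l) := by
  unfold Pi2
  rw [← prod_mul_distrib]
  refine prod_congr rfl fun l _ => ?_
  ring

theorem Pi2_2 (M : ℕ) : Pi2 2 M = (∏ l ∈ range M, (1 - 2 * x M l)) * ∏ l ∈ range M, (1 + 2 * x M l) := by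
  unfold Pi2
  rw [← prod_mul_distrib]
  refine prod_congr rfl fun l _ => ?_
  ring

theorem g0_eq (M : ℕ) : GB (2*M+1) M * Pi2 2 M = (2*(M:ℚ)+1) * (Pi2 1 M * Z3 M * w M M) := by
  rw [Pi2_2, Pi2_1, prod_neg_x, prod_neg_2x, prod_1x, prod_2x, w_last]
  unfold Z3
  rw [prod_6x M (2*M) (by omega)]
  unfold GB
  rw [if_pos (by omega)]
  have e1 : 2*M+1-M-1 = M := by omega
  have e2 : 2*M+1+M = 3*M+1 := by omega
  have e3 : 2*M+1-1 = 2*M := by omega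
  have e4 : 2*M+1-2*M-1 = 0 := by omega
  have e5 : 2*M+1+2*M+1 = 2*(2*M+1) := by omega
  have e6 : M+1+M = 2*M+1 := by omega
  have e7 : 6*M+2-2*M = 2*(2*M+1) := by omega
  have e8 : 6*M+2 = 2*(3*M+1) := by omega
  have f2M : ((2*M+1).factorial : ℚ) = (2*(M:ℚ)+1) * (4^M * (M.factorial : ℚ) * hq M) := by
    rw [Nat.factorial_succ]
    push_cast
    rw [fact_two]
  rw [e1, e2, e3, e4, e5, e6, e7, e8, fact_two (2*M+1), fact_two (3*M+1), fact_two M,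
    f2M, hq_succ M]
  have h1 : (-1:ℚ)^(2*M) = 1 := by rw [pow_mul]; norm_num
  have h2 : t M = hq M / (M.factorial : ℚ) := by
    unfold hq
    have : (M.factorial : ℚ) ≠ 0 := by positivity
    field_simp
  have h3 : (4:ℚ)^(3*M+1) = 4^(2*M+1) * 4^M := by rw [← pow_add]; congr 1; omega
  have h4 : (4:ℚ)^(2*M+1) = 4^M * 4^M * 4 := by rw [pow_succ, two_mul, pow_add]
  rw [h1, h2, h3, h4]
  have f1 : (M.factorial : ℚ) ≠ 0 := by positivity
  have f2 := (hq_pos M).ne'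
  have f3 := (hq_pos (2*M+1)).ne'
  have f4 := (hq_pos (3*M+1)).ne'
  have f5 : ((3*M+1).factorial : ℚ) ≠ 0 := by positivity
  have f6 : (2*(M:ℚ)+1) ≠ 0 := by positivity
  have f7 : (4:ℚ)^M ≠ 0 := by positivity
  have f8 : ((M:ℚ)+1/2) ≠ 0 := by positivity
  have f9 : (-1:ℚ)^M * (-1)^M = 1 := by rw [← mul_pow]; norm_num
  push_cast
  generalize (-1:ℚ)^M = sgn at *
  generalize (4:ℚ)^M = F at *
  generalize (M.factorial : ℚ) = a at *
  generalize ((3*M+1).factorial : ℚ) = a3 at *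
  generalize hq M = b at *
  generalize hq (2*M+1) = b2 at *
  generalize hq (3*M+1) = b3 at *
  simp only [Nat.factorial_zero, Nat.cast_one]
  field_simp

/-- ratio of consecutive `G` -/
theorem GB_ratio (i r : ℕ) :
    GB (2*(i+r+1)+1) r * ((3*(2*((i:ℚ)+r+1)+1) - 2 - 2*i) * ((2*i+1) * (2*i+2))) =
    - GB (2*(i+r+1)+1) (r+1) * ((2*((i:ℚ)+r+1)+1 + 2*i) * ((2*(2*((i:ℚ)+r+1)+1) - 2*i) *
      (2*(2*((i:ℚ)+r+1)+1) - 2*i - 1))) := by
  unfold GB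
  rw [if_pos (by omega), if_pos (by omega)]
  have e1 : 2*(i+r+1)+1-r-1 = (2*i+r+1)+1 := by omega
  have e2 : 2*(i+r+1)+1+r = 2*i+3*r+3 := by omega
  have e3 : 2*(i+r+1)+1-2*r-1 = (2*i)+1+1 := by omega
  have e4 : 2*(i+r+1)+1+2*r+1 = 2*i+4*r+4 := by omega
  have e5 : 2*(i+r+1)+1-(r+1)-1 = 2*i+r+1 := by omega
  have e6 : 2*(i+r+1)+1+(r+1) = (2*i+3*r+3)+1 := by omega
  have e7 : 2*(i+r+1)+1-2*(r+1)-1 = 2*i := by omega
  have e8 : 2*(i+r+1)+1+2*(r+1)+1 = (2*i+4*r+4)+1+1 := by omega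
  rw [e1, e2, e3, e4, e5, e6, e7, e8, hq_succ (2*i+r+1), hq_succ (2*i+3*r+3),
    Nat.factorial_succ (2*i+1), Nat.factorial_succ (2*i), Nat.factorial_succ (2*i+4*r+4+1),
    Nat.factorial_succ (2*i+4*r+4), pow_succ (-1:ℚ) r]
  have f1 : ((2*i).factorial : ℚ) ≠ 0 := by positivity
  have f2 : ((2*i+4*r+4).factorial : ℚ) ≠ 0 := by positivity
  have f3 : ((2*(i+r+1)+1-1).factorial : ℚ) ≠ 0 := by positivity
  have f4 : (2*(i:ℚ)+1) ≠ 0 := by positivity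
  have f5 : (2*(i:ℚ)+1+1) ≠ 0 := by positivity
  have f6 : (2*(i:ℚ)+4*r+4+1) ≠ 0 := by positivity
  have f7 : (2*(i:ℚ)+4*r+4+1+1) ≠ 0 := by positivity
  push_cast
  generalize (-1:ℚ)^r = sgn at *
  generalize (4:ℚ)^(2*(i+r+1)+1) = F at *
  generalize ((2*i).factorial : ℚ) = a at *
  generalize ((2*i+4*r+4).factorial : ℚ) = b at *
  generalize ((2*(i+r+1)+1-1).factorial : ℚ) = c at *
  generalize hq (2*(i+r+1)+1) = d at *
  generalize hq (2*i+r+1) = d1 at *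
  generalize hq (2*i+3*r+3) = d2 at *
  field_simp
  ring

/-- relative terms of `B` -/
def TB (M n : ℕ) : ℚ := 2 * x M n ^ 2 / (1 + x M n) * (∏ l ∈ range (2*n+1), (1 - 4 * x M l)) *
  ∏ l ∈ range (n+1), ((1 + x M l)/(1 - 3 * x M l))

theorem x3_ne (M l : ℕ) : 1 - 3 * x M l ≠ 0 := by
  unfold x
  intro h
  have h1 : (2*((l:ℚ)+1)) ≠ 0 := by positivity
  have h2 : 2*((l:ℚ)+1) - 3*(2*(M:ℚ)+1) = 0 := by
    have : (1 - 3*((2*(M:ℚ)+1)/(2*((l:ℚ)+1)))) * (2*((l:ℚ)+1)) = 0 := by rw [h, zero_mul]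
    have e : (1 - 3*((2*(M:ℚ)+1)/(2*((l:ℚ)+1)))) * (2*((l:ℚ)+1)) = 2*((l:ℚ)+1) - 3*(2*(M:ℚ)+1) := by
      field_simp
    rw [e] at this
    exact this
  have h3 : 2*((l:ℚ)+1) = 3*(2*(M:ℚ)+1) := by linarith
  have h4 : 2*(l+1) = 3*(2*M+1) := by exact_mod_cast h3
  omega

theorem GB_TB (M n : ℕ) (h : n < M) : GB (2*M+1) (M-1-n) = - GB (2*M+1) M * TB M n := by
  induction n with
  | zero =>
    obtain ⟨r, rfl⟩ : ∃ r, M = 0 + r + 1 := ⟨M-1, by omega⟩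
    have h1 := GB_ratio 0 r
    have e1 : 0 + r + 1 - 1 - 0 = r := by omega
    rw [e1]
    have e2 : 0 + r + 1 = r + 1 := by omega
    rw [e2] at h1 ⊢
    unfold TB
    simp only [mul_zero, zero_add, range_one, prod_singleton]
    have hx3 := x3_ne (r+1) 0
    have hx1 := x_pos (r+1) 0
    have hx : x (r+1) 0 = (2*((r:ℚ)+1)+1)/2 := by
      unfold x
      push_cast
      ring
    rw [hx] at hx3 hx1 ⊢
    have hx1' : 1 + (2*((r:ℚ)+1)+1)/2 ≠ 0 := by positivity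
    simp only [Nat.cast_zero, mul_zero, zero_add, sub_zero, add_zero] at h1
    have hne : (3*(2*((r:ℚ)+1)+1) - 2) ≠ 0 := by
      intro hh
      apply hx3
      linarith
    have hk : GB (2*(r+1)+1) r = - GB (2*(r+1)+1) (r+1) *
      (((2*((r:ℚ)+1)+1) * ((2*(2*((r:ℚ)+1)+1)) * (2*(2*((r:ℚ)+1)+1) - 1))) /
        ((3*(2*((r:ℚ)+1)+1) - 2) * (1*2))) := by
      rw [← mul_div_assoc, eq_div_iff (mul_ne_zero hne (by norm_num))]
      exact h1
    rw [hk]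
    congr 1
    obtain ⟨P, hP⟩ : ∃ P : ℚ, P = 2*((r:ℚ)+1)+1 := ⟨_, rfl⟩
    rw [← hP] at hne hx3 hx1' ⊢
    obtain ⟨q, hq'⟩ : ∃ q : ℚ, q = 3*P - 2 := ⟨_, rfl⟩
    have e3 : 1 - 3 * (P/2) = -q/2 := by rw [hq']; ring
    rw [e3, ← hq']
    rw [← hq'] at hne
    have e4 : -q/2 ≠ 0 := by
      rw [← e3]
      exact hx3
    have e5 : 1 + P/2 ≠ 0 := hx1'
    obtain ⟨v, hv⟩ : ∃ v : ℚ, v = 1 + P/2 := ⟨_, rfl⟩
    have e6 : P = 2*v - 2 := by rw [hv]; ring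
    rw [← hv] at e5 ⊢
    rw [e6]
    field_simp
    ring
  | succ n ih =>
    have ih' := ih (by omega)
    obtain ⟨r, rfl⟩ : ∃ r, M = (n+1) + r + 1 := ⟨M-(n+1)-1, by omega⟩
    have h1 := GB_ratio (n+1) r
    have e1 : n + 1 + r + 1 - 1 - (n+1) = r := by omega
    have e2 : n + 1 + r + 1 - 1 - n = r + 1 := by omega
    rw [e2] at ih'
    rw [e1]
    rw [ih'] at h1
    have hT : TB (n+1+r+1) (n+1) * ((3*(2*(((n+1:ℕ):ℚ)+r+1)+1) - 2 - 2*(n+1:ℕ)) *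
        ((2*(n+1:ℕ)+1) * (2*(n+1:ℕ)+2))) = - TB (n+1+r+1) n * ((2*(((n+1:ℕ):ℚ)+r+1)+1 + 2*(n+1:ℕ)) *
        ((2*(2*(((n+1:ℕ):ℚ)+r+1)+1) - 2*(n+1:ℕ)) * (2*(2*(((n+1:ℕ):ℚ)+r+1)+1) - 2*(n+1:ℕ) - 1))) := by
      unfold TB
      have e3 : 2*(n+1)+1 = 2*n+1+1+1 := by ring
      rw [e3, prod_range_succ, prod_range_succ _ (2*n+1), prod_range_succ _ (n+1)]
      have y0 := x3_ne (n+1+r+1) (n+1)
      have y1 := x_pos (n+1+r+1) n
      have y2 := x_pos (n+1+r+1) (n+1)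
      have y1' : 1 + x (n+1+r+1) n ≠ 0 := by positivity
      have y2' : 1 + x (n+1+r+1) (n+1) ≠ 0 := by positivity
      generalize (∏ l ∈ range (2*n+1), (1 - 4 * x (n+1+r+1) l)) = R1
      generalize (∏ l ∈ range (n+1), ((1 + x (n+1+r+1) l)/(1 - 3 * x (n+1+r+1) l))) = R2
      obtain ⟨P, hP⟩ : ∃ P : ℚ, P = 2*(((n+1:ℕ):ℚ)+r+1)+1 := ⟨_, rfl⟩
      have z1 : x (n+1+r+1) n = P/(2*((n:ℚ)+1)) := by rw [hP]; unfold x; push_cast; ring
      have z2 : x (n+1+r+1) (n+1) = P/(2*((n:ℚ)+1+1)) := by rw [hP]; unfold x; push_cast; ring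
      have z3 : x (n+1+r+1) (2*n+1) = P/(2*(2*(n:ℚ)+1+1)) := by rw [hP]; unfold x; push_cast; ring
      have z4 : x (n+1+r+1) (2*n+1+1) = P/(2*(2*(n:ℚ)+1+1+1)) := by rw [hP]; unfold x; push_cast; ring
      rw [z1, z2, z3, z4, ← hP]
      rw [z1] at y1'
      rw [z2] at y0 y2'
      have u1 : ((n:ℚ)+1) ≠ 0 := by positivity
      have u2 : ((n:ℚ)+1+1) ≠ 0 := by positivity
      have u3 : (2*(n:ℚ)+1+1) ≠ 0 := by positivity
      have u4 : (2*(n:ℚ)+1+1+1) ≠ 0 := by positivity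
      have v1 : 2*((n:ℚ)+1) + P ≠ 0 := by
        rw [hP]; positivity
      have v2 : 2*((n:ℚ)+1+1) + P ≠ 0 := by
        rw [hP]; positivity
      have v3 : 2*((n:ℚ)+1+1) - 3*P ≠ 0 := by
        intro hh
        apply y0
        have : 1 - 3 * (P/(2*((n:ℚ)+1+1))) = (2*((n:ℚ)+1+1) - 3*P)/(2*((n:ℚ)+1+1)) := by
          field_simp
        rw [this, hh, zero_div]
      have w1 : 1 + P/(2*((n:ℚ)+1)) = (2*((n:ℚ)+1) + P)/(2*((n:ℚ)+1)) := by field_simp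
      have w2 : 1 + P/(2*((n:ℚ)+1+1)) = (2*((n:ℚ)+1+1) + P)/(2*((n:ℚ)+1+1)) := by field_simp
      have w3 : 1 - 3 * (P/(2*((n:ℚ)+1+1))) = (2*((n:ℚ)+1+1) - 3*P)/(2*((n:ℚ)+1+1)) := by
        field_simp
      rw [w1, w2, w3]
      obtain ⟨q1, hq1⟩ : ∃ q : ℚ, q = 2*((n:ℚ)+1) + P := ⟨_, rfl⟩
      obtain ⟨q2, hq2⟩ : ∃ q : ℚ, q = 2*((n:ℚ)+1+1) + P := ⟨_, rfl⟩
      obtain ⟨q3, hq3⟩ : ∃ q : ℚ, q = 2*((n:ℚ)+1+1) - 3*P := ⟨_, rfl⟩
      rw [← hq1, ← hq2, ← hq3]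
      rw [← hq1] at v1
      rw [← hq2] at v2
      rw [← hq3] at v3
      have g1 : (3*P - 2 - 2*((n+1:ℕ):ℚ)) = -q3 := by rw [hq3]; push_cast; ring
      rw [g1]
      push_cast
      field_simp
      rw [hq1]
      ring
    have hne : ((3*(2*(((n+1:ℕ):ℚ)+r+1)+1) - 2 - 2*(n+1:ℕ)) *
        ((2*(n+1:ℕ)+1) * (2*(n+1:ℕ)+2))) ≠ 0 := by
      refine mul_ne_zero ?_ (by positivity)
      have : (3*(2*(((n+1:ℕ):ℚ)+r+1)+1) - 2 - 2*(n+1:ℕ)) = 4*(n+1:ℕ) + 6*r + 7 := by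
        push_cast
        ring
      rw [this]
      positivity
    apply mul_right_cancel₀ hne
    rw [h1]
    linear_combination GB (2*(n+1+r+1)+1) (n+1+r+1) * hT

theorem B_form (M : ℕ) : B (2*M+1) * Pi2 2 M = (2*(M:ℚ)+1) * (Pi2 1 M * Z3 M * w M M *
    (1 - ∑ n ∈ range M, TB M n)) := by
  rw [B_GB, sum_range_succ, ← sum_range_reflect]
  have h1 : ∑ j ∈ range M, GB (2*M+1) (M-1-j) = - GB (2*M+1) M * ∑ n ∈ range M, TB M n := by
    rw [mul_sum]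
    refine sum_congr rfl fun n hn => ?_
    rw [mem_range] at hn
    exact GB_TB M n hn
  rw [h1]
  have h2 := g0_eq M
  linear_combination (1 - ∑ n ∈ range M, TB M n) * h2

theorem A_form2 (M : ℕ) : A M = (2*(M:ℚ)+1) * (w M M * Pi2 1 M *
    (1 + ∑ n ∈ range M, T M n * (rho M (M-1-n) / rho M M))) := by
  have h1 := A_form M
  have h2 := sum_T M
  have h3 : ∑ n ∈ range M, T M n * (rho M (M-1-n) / rho M M - 1) =
    ∑ n ∈ range M, T M n * (rho M (M-1-n) / rho M M) - ∑ n ∈ range M, T M n := by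
    rw [← sum_sub_distrib]
    refine sum_congr rfl fun n _ => ?_
    ring
  rw [h1, h3]
  linear_combination -(2*(M:ℚ)+1) * Pi2 1 M * h2

end Pool.Agent.N926.Sup2
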